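import Pool.Agent.Lib.TATE.FA.Spec2
import Pool.Agent.Lib.SE.CR.Crs

/-!
# PROJECT TATE, package FA, module Alp: the map of the curve modulo words
-/

set_option autoImplicit false

open Topology Metric MeasureTheory Filter

noncomputable section

namespace TATE.FA

open SEJ TATE SECR
open HC (AV)
open HC.SE (New IsCov)

private lemma Alp_prim {m : ℕ} (hm : m ≠ 0) : IsPrimitiveRoot (ze m 1) m := by
  have h := Complex.isPrimitiveRoot_exp m hm
  have h2 : ze m 1 = Complex.exp (2 * Real.pi * Complex.I / m) := by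
    unfold ze
    congr 1
    push_cast
    ring
  rw [h2]
  exact h

/-- The sheet of a point. -/
private def Alp_sh (m : ℕ) {r : ℕ} (b : Fin (r + 1) → ℕ) (s : Fin (r + 1) → ℂ) (P : ℂ × ℂ) : ℕ :=
  Classical.epsilon fun f : ℕ => f < m ∧ P.2 = ze m 1 ^ f * y0 m s b P.1

private lemma Alp_sheet {m r : ℕ} (hm : m ≠ 0) (b : Fin (r + 1) → ℕ) (s : Fin (r + 1) → ℂ)
    {P : ℂ × ℂ} (hP : P ∈ Pts m b s) : ∃ f : ℕ, f < m ∧ P.2 = ze m 1 ^ f * y0 m s b P.1 := by
  have hy0 := Crs.y0_ne (m := m) s b hP.1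
  have h1 : (P.2 / y0 m s b P.1) ^ m = 1 := by
    have h2 := pow_ne_zero m hy0
    rw [div_pow, hP.2, Crs.y0_pow hm s b P.1, div_self]
    rwa [Crs.y0_pow hm s b P.1] at h2
  have : NeZero m := ⟨hm⟩
  obtain ⟨f, hf, hf2⟩ := (Alp_prim hm).eq_pow_of_pow_eq_one h1
  refine ⟨f, hf, ?_⟩
  rw [hf2]
  field_simp

/-- The sheet of `(x, ζ^n y0 x)`. -/
private lemma Alp_sh_eq {m r : ℕ} (hm : m ≠ 0) (b : Fin (r + 1) → ℕ) (s : Fin (r + 1) → ℂ)
    {x : ℂ} (hx : x ∉ Set.range s) (n : ℕ) :
    Alp_sh m b s (x, ze m 1 ^ n * y0 m s b x) = n % m := by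
  have hy0 := Crs.y0_ne (m := m) s b hx
  have hmod : ze m 1 ^ n = ze m 1 ^ (n % m) := by
    conv_lhs => rw [← Nat.div_add_mod n m, pow_add, pow_mul, Crs.ze_pow_m hm, one_pow, one_mul]
  have hlt : n % m < m := Nat.mod_lt _ (Nat.pos_of_ne_zero hm)
  have hex : ∃ f : ℕ, f < m ∧ ((x, ze m 1 ^ n * y0 m s b x) : ℂ × ℂ).2 =
      ze m 1 ^ f * y0 m s b ((x, ze m 1 ^ n * y0 m s b x) : ℂ × ℂ).1 :=
    ⟨n % m, hlt, by rw [hmod]⟩
  have h := Classical.epsilon_spec hex
  have h2 : ze m 1 ^ n * y0 m s b x =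
      ze m 1 ^ (Alp_sh m b s (x, ze m 1 ^ n * y0 m s b x)) * y0 m s b x := h.2
  have h3 := mul_right_cancel₀ hy0 h2
  rw [hmod] at h3
  have h4 : Alp_sh m b s (x, ze m 1 ^ n * y0 m s b x) < m := h.1
  exact ((Alp_prim hm).pow_inj h4 hlt (by rw [← hmod]; rw [← hmod] at h3; exact h3.symm))

private lemma Alp_pts {m r : ℕ} (hm : m ≠ 0) (b : Fin (r + 1) → ℕ) (s : Fin (r + 1) → ℂ)
    {x : ℂ} (hx : x ∉ Set.range s) (n : ℕ) : (x, ze m 1 ^ n * y0 m s b x) ∈ Pts m b s := by
  refine ⟨hx, ?_⟩
  change (ze m 1 ^ n * y0 m s b x) ^ m = ∏ j, (x - s j) ^ b j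
  rw [mul_pow, ← pow_mul, mul_comm n m, pow_mul, Crs.ze_pow_m hm, one_pow, one_mul,
    Crs.y0_pow hm s b x]

private lemma Alp_om {m r : ℕ} (hm : m ≠ 0) (b : Fin (r + 1) → ℕ) (s : Fin (r + 1) → ℂ)
    {x : ℂ} (hx : x ∉ Set.range s) (n : ℕ) (p : Ix m b) :
    om m b s (x, ze m 1 ^ n * y0 m s b x) p =
      ze m (ch p) ^ n * frm s (SEJ.mu m b (ch p)) (Polynomial.X ^ ex p) x := by
  have h := Crs.form hm s b x hx (ch p) (ex p) (ze m 1 ^ n)
  have h2 : (ze m 1 ^ n) ^ ch p = ze m (ch p) ^ n := by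
    rw [Crs.ze_pow m (ch p), ← pow_mul, ← pow_mul, mul_comm]
  rw [h2] at h
  exact h

theorem tAlp : S_Alp := by
  intro m r b s hc hs Λ C hC
  have hm : m ≠ 0 := by
    have := hc.1
    omega
  have hgood : ∀ p : Ix m b, Good s (SEJ.mu m b (ch p)) (Polynomial.X ^ ex p) := fun p =>
    (tN0 s b hc (ch p) p.1.1.2 p.2.1).2.2.2.2.2.2.2.2.2 hs (ex p) p.2.2
  have hlam : ∀ (p : Ix m b) (j : Fin (r + 1)),
      lam (SEJ.mu m b (ch p)) j = (ze m (ch p) ^ b j)⁻¹ := fun p j =>
    (tN0 s b hc (ch p) p.1.1.2 p.2.1).2.1 j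
  have hze : ∀ u : ℕ, ze m u ≠ 0 := fun u => Complex.exp_ne_zero _
  refine ⟨fun P => Zn m b (Alp_sh m b s P) (Fm m b s P.1) + C (Alp_sh m b s P), ?_⟩
  rintro ⟨x₀, y₀⟩ hP
  obtain ⟨f, hf, hy⟩ := Alp_sheet hm b s hP
  have hx₀ : x₀ ∉ Set.range s := hP.1
  have hy₀ : y₀ = ze m 1 ^ f * y0 m s b x₀ := hy
  have haway := Crs.away s hx₀
  by_cases hray : ∀ j, x₀.im = (s j).im → (s j).re < x₀.re
  · -- no ray
    refine ⟨fun x => ze m 1 ^ f * y0 m s b x, fun x => Zn m b f (Fm m b s x) + C f, hy₀.symm,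
      ?_, ?_⟩
    · change ContinuousAt (fun x => ze m 1 ^ f * y0 m s b x) x₀
      refine ContinuousAt.mul continuousAt_const ?_
      unfold y0
      refine tendsto_finsetProd _ fun j _ => ?_
      refine Crs.cont ?_
      intro h
      have h1 : x₀.im = (s j).im := by
        rw [Complex.sub_im] at h
        linarith
      have h2 := hray j h1
      rw [Complex.sub_re]
      linarith
    · change ∀ᶠ x in 𝓝 x₀, _
      have hopen : ∀ᶠ x in 𝓝 x₀, ∀ j, x.im = (s j).im → (s j).re < x.re := by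
        rw [eventually_all]
        intro j
        by_cases h : x₀.im = (s j).im
        · have h2 : ∀ᶠ x : ℂ in 𝓝 x₀, (s j).re < x.re :=
            Complex.continuous_re.continuousAt.eventually (lt_mem_nhds (hray j h))
          filter_upwards [h2] with x hx _ using hx
        · have h2 : ∀ᶠ x : ℂ in 𝓝 x₀, x.im ≠ (s j).im :=
            Complex.continuous_im.continuousAt.eventually (isOpen_ne.mem_nhds h)
          filter_upwards [h2] with x hx h3
          exact absurd h3 hx
      filter_upwards [haway, hopen] with x hx hxr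
      refine ⟨Alp_pts hm b s hx f, ?_, ?_⟩
      · rw [Alp_sh_eq hm b s hx f, Nat.mod_eq_of_lt hf, sub_self]
        exact Λ.zero_mem
      · rw [hasDerivAt_pi]
        intro p
        rw [Alp_om hm b s hx f p]
        exact ((xD1 s _ _ (hgood p) x hxr).const_mul _).add_const _
  · push Not at hray
    obtain ⟨j, hj1, hj2⟩ := hray
    have hj3 : x₀.re < (s j).re := by
      refine lt_of_le_of_ne hj2 ?_
      intro h
      exact hx₀ ⟨j, (Complex.ext h hj1).symm⟩
    have hG := fun p : Ix m b => xN11 s _ _ (hgood p) j x₀ hj1 hj3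
    choose G hG using hG
    have hGall := eventually_all.mpr hG
    refine ⟨fun x => if (s j).im ≤ x.im then ze m 1 ^ f * y0 m s b x
      else ze m 1 ^ f * ze m 1 ^ b j * y0 m s b x,
      fun x => Zn m b f (fun p => G p x) + C f, ?_, ?_, ?_⟩
    · change (if (s j).im ≤ x₀.im then ze m 1 ^ f * y0 m s b x₀
        else ze m 1 ^ f * ze m 1 ^ b j * y0 m s b x₀) = y₀
      rw [if_pos hj1.ge]
      exact hy₀.symm
    · exact Crs.branch (m := m) (b := b) hs j hj1 hj3 (ze m 1 ^ f)
    · change ∀ᶠ x in 𝓝 x₀, _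
      filter_upwards [haway, hGall] with x hx hGx
      by_cases him : (s j).im ≤ x.im
      · simp only [if_pos him]
        refine ⟨Alp_pts hm b s hx f, ?_, ?_⟩
        · rw [Alp_sh_eq hm b s hx f, Nat.mod_eq_of_lt hf]
          have h : Fm m b s x = fun p => G p x := by
            funext p
            have h3 := hGx p
            rw [if_pos him] at h3
            exact h3.1.symm
          rw [h, sub_self]
          exact Λ.zero_mem
        · rw [hasDerivAt_pi]
          intro p
          have h3 := hGx p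
          rw [if_pos him] at h3
          rw [Alp_om hm b s hx f p]
          exact (h3.2.const_mul _).add_const _
      · simp only [if_neg him, ← pow_add]
        refine ⟨Alp_pts hm b s hx (f + b j), ?_, ?_⟩
        · rw [Alp_sh_eq hm b s hx (f + b j)]
          have h := hC f ((f + b j) % m) j (Nat.mod_modEq _ _)
          have h2 : Zn m b ((f + b j) % m) (Fm m b s x) + C ((f + b j) % m) -
              (Zn m b f (fun p => G p x) + C f) = C ((f + b j) % m) - C f -
              Zn m b f (Pm m b s j - Zn m b (b j) (Pm m b s j)) := by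
            funext p
            have h3 := (hGx p)
            rw [if_neg him, hlam p j] at h3
            have hz : ze m (ch p) ^ b j ≠ 0 := pow_ne_zero _ (hze _)
            have h4 : Fm m b s x p = (ze m (ch p) ^ b j)⁻¹ * G p x +
                (1 - (ze m (ch p) ^ b j)⁻¹) * Pm m b s j p := by
              rw [h3.1]
              unfold Fm Pm
              ring
            have h5 : ze m (ch p) ^ ((f + b j) % m) = ze m (ch p) ^ f * ze m (ch p) ^ b j := by
              rw [← pow_add]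
              conv_rhs => rw [← Nat.div_add_mod (f + b j) m, pow_add, pow_mul]
              have h6 : ze m (ch p) ^ m = 1 := by
                rw [Crs.ze_pow m (ch p), ← pow_mul, mul_comm, pow_mul, Crs.ze_pow_m hm, one_pow]
              rw [h6, one_pow, one_mul]
            simp only [Pi.sub_apply, Pi.add_apply, Zn]
            rw [h5, h4]
            field_simp
            ring
          rw [h2]
          exact h
        · rw [hasDerivAt_pi]
          intro p
          have h3 := hGx p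
          rw [if_neg him, hlam p j, inv_inv] at h3
          rw [Alp_om hm b s hx (f + b j) p, pow_add, mul_assoc]
          exact (h3.2.const_mul _).add_const _

end TATE.FA
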