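import Pool.Agent.Lib.TATE.FA.Spec
import Pool.Agent.Lib.SE.CR.Crd

/-!
# PROJECT TATE, package FA: frames in charts
-/

set_option autoImplicit false

open Topology Metric MeasureTheory

noncomputable section

namespace TATE.FA

open SEJ TATE
open SECR (cutp)
open HC (AV)
open HC.SE (New IsCov)

theorem Chf_cvb {m r : ℕ} {b : Fin (r + 1) → ℕ} (π : Equiv.Perm (Fin (r + 1))) (h : Cvb m b) :
    Cvb m (b ∘ π) := by
  obtain ⟨h1, h2, h3, h4⟩ := h
  refine ⟨h1, fun j => h2 (π j), ?_, fun d hd hj => h4 d hd fun j => ?_⟩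
  · have e : ∑ j, (b ∘ π) j = ∑ j, b j := Equiv.sum_comp π b
    rw [e]
    exact h3
  · have := hj (π.symm j)
    rw [Function.comp_apply, Equiv.apply_symm_apply] at this
    exact this

theorem Chf_cov {m r : ℕ} {b : Fin (r + 1) → ℕ} {t : Fin (r + 1) → ℂ} (h : Cvb m b)
    (ht : Function.Injective t) : IsCov m t b := ⟨h.1, ht, h.2.1, h.2.2.1, h.2.2.2⟩

/-- The complex linear map `Ds`. -/
def Chf_D (m : ℕ) {r : ℕ} (b : Fin (r + 1) → ℕ) (π : Equiv.Perm (Fin (r + 1))) (ρ c : ℂ) :
    (Ix m (b ∘ π) → ℂ) →ₗ[ℝ] (Ix m b → ℂ) where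
  toFun := Ds m b π ρ c
  map_add' u v := by
    funext p
    exact mul_add _ _ _
  map_smul' x v := by
    funext p
    exact mul_smul_comm x ((dl m b ρ c (ch p) (ex p))⁻¹) (v (ixe m b π p))

/-- **Chf**: frames in charts. -/
theorem tChf : S_Rot → S_Vec → S_Li → S_Hlf → S_Rnk → S_Chf := by
  intro hRot hVec hLi hHlf hRnk m r b π ρ c hb hρ hc
  have hm : 1 ≤ m := le_trans (by norm_num) hb.1
  have hρ0 : ρ ≠ 0 := by
    intro h
    rw [h, norm_zero] at hρ
    exact zero_ne_one hρ
  refine ⟨fun t ht => ?_, fun q => ?_⟩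
  · have hs : Function.Injective (rt π ρ t) := fun i j hij =>
      ht.injective (congrArg Complex.im hij)
    have hi : Function.Injective t := by
      intro i j hij
      have h1 : rt π ρ t (π.symm i) = rt π ρ t (π.symm j) := by
        show ρ * t (π (π.symm i)) = ρ * t (π (π.symm j))
        rw [Equiv.apply_symm_apply, Equiv.apply_symm_apply, hij]
      exact π.symm.injective (hs h1)
    obtain ⟨hR1, hR2, -, -, -, hR6⟩ := hRot m r b t π ρ c hm hρ hc
    have hcov : IsCov m (rt π ρ t) (b ∘ π) := Chf_cov (Chf_cvb π hb) hs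
    have hlin : LinearIndependent ℝ (frc m b π ρ c t) := by
      have h1 := hLi m r (b ∘ π) (rt π ρ t) hcov ht
      refine h1.map' (Chf_D m b π ρ c) ?_
      rw [LinearMap.ker_eq_bot]
      intro u v huv
      rw [← hR2 u, ← hR2 v]
      exact congrArg _ huv
    refine ⟨hi, hlin, ?_⟩
    obtain ⟨T, N, -, -⟩ := tNewEx t b (Chf_cov hb hi)
    obtain ⟨C⟩ := SECR.tCrd (Chf_cov hb hi) N
    refine (hRnk T m r t b N C.e hb hi ?_ (frc m b π ρ c t) hlin ?_).1
    · intro x hx y hy
      funext p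
      exact C.om x hx y hy p
    · intro q
      rw [hR6]
      show Dr m b π ρ c (Ds m b π ρ c _) ∈ _
      rw [hR2]
      exact hVec m r (b ∘ π) (rt π ρ t) hcov ht q
  · have h1 := hHlf m r (b ∘ π) (Chf_cvb π hb) q
    have h2 : Differentiable ℂ (fun t : Fin (r + 1) → ℂ => rt π ρ t) := by
      rw [differentiable_pi]
      intro j
      exact (differentiable_apply (π j)).const_mul ρ
    have h3 : DifferentiableOn ℂ (fun t => fr m (b ∘ π) (rt π ρ t) q) {t | Up (rt π ρ t)} :=
      h1.comp h2.differentiableOn fun t ht => ht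
    rw [differentiableOn_pi] at h3 ⊢
    intro p
    exact (h3 (ixe m b π p)).const_mul _

end TATE.FA
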