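import Pool.Agent.Lib.TATE.FA.Spec

/-! # TATE/FA Cht: charts exist -/

set_option autoImplicit false

open Topology Metric

noncomputable section

namespace TATE.FA

/-- A direction in which the imaginary parts are different. -/
private theorem Cht_rho {n : ℕ} (s : Fin n → ℂ) (hs : Function.Injective s) :
    ∃ ρ : Circle, Function.Injective fun j => ((ρ : ℂ) * s j).im := by
  classical
  obtain ⟨τ, hτ⟩ := Infinite.exists_notMem_finset
    ((Finset.univ : Finset (Fin n × Fin n)).image fun p =>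
      -(s p.1 - s p.2).im / (s p.1 - s p.2).re)
  have h0 : (1 + (τ : ℂ) * Complex.I) ≠ 0 := by
    intro h
    have := congrArg Complex.re h
    simp at this
  have hn : 0 < ‖1 + (τ : ℂ) * Complex.I‖ := norm_pos_iff.2 h0
  have h1 : (1 + (τ : ℂ) * Complex.I) / (‖1 + (τ : ℂ) * Complex.I‖ : ℂ) ∈
      Submonoid.unitSphere ℂ := by
    refine mem_sphere_zero_iff_norm.2 ?_
    rw [norm_div, Complex.norm_real, norm_norm, div_self hn.ne']
  refine ⟨⟨_, h1⟩, fun i j hij => ?_⟩
  by_contra hne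
  have hd : s i - s j ≠ 0 := sub_ne_zero.2 fun h => hne (hs h)
  simp only at hij
  have h2 : ((1 + (τ : ℂ) * Complex.I) * (s i - s j)).im = 0 := by
    have h3 : ∀ z : ℂ, ((1 + (τ : ℂ) * Complex.I) / (‖1 + (τ : ℂ) * Complex.I‖ : ℂ) * z).im =
        ((1 + (τ : ℂ) * Complex.I) * z).im / ‖1 + (τ : ℂ) * Complex.I‖ := by
      intro z
      rw [div_mul_eq_mul_div, Complex.div_ofReal_im]
    change ((1 + (τ : ℂ) * Complex.I) / (‖1 + (τ : ℂ) * Complex.I‖ : ℂ) * s i).im =
      ((1 + (τ : ℂ) * Complex.I) / (‖1 + (τ : ℂ) * Complex.I‖ : ℂ) * s j).im at hij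
    rw [h3, h3, div_left_inj' hn.ne'] at hij
    rw [mul_sub, Complex.sub_im, hij, sub_self]
  have h4 : (s i - s j).im + τ * (s i - s j).re = 0 := by
    have h5 : ((1 + (τ : ℂ) * Complex.I) * (s i - s j)).im =
        (s i - s j).im + τ * (s i - s j).re := by
      simp only [Complex.mul_im, Complex.add_re, Complex.one_re, Complex.mul_re,
        Complex.ofReal_re, Complex.I_re, Complex.ofReal_im, Complex.I_im, Complex.add_im,
        Complex.one_im]
      ring
    rw [← h5, h2]
  by_cases hre : (s i - s j).re = 0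
  · apply hd
    refine Complex.ext hre ?_
    rw [hre, mul_zero, add_zero] at h4
    exact h4
  · apply hτ
    rw [Finset.mem_image]
    refine ⟨(i, j), Finset.mem_univ _, ?_⟩
    change -(s i - s j).im / (s i - s j).re = τ
    rw [div_eq_iff hre]
    linarith

private theorem Cht_open {k : ℕ} (π : Equiv.Perm (Fin (k + 1))) (ρ : ℂ) :
    IsOpen {t : Fin (k + 1) → ℂ | Up (rt π ρ t)} := by
  have h : {t : Fin (k + 1) → ℂ | Up (rt π ρ t)} =
      ⋂ p : Fin (k + 1) × Fin (k + 1),
        {t : Fin (k + 1) → ℂ | p.1 < p.2 → (ρ * t (π p.1)).im < (ρ * t (π p.2)).im} := by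
    ext t
    simp only [Set.mem_ofPred_eq, Set.mem_iInter, Prod.forall]
    constructor
    · intro h i j hij
      exact h hij
    · intro h i j hij
      exact h i j hij
  rw [h]
  refine isOpen_iInter_of_finite fun p => ?_
  by_cases hp : p.1 < p.2
  · simp only [hp, forall_const]
    exact isOpen_lt (by fun_prop) (by fun_prop)
  · simp [hp]

theorem tCht : S_Cht := by
  intro m r b t hm hinj
  obtain ⟨ρ, hρ⟩ := Cht_rho t hinj
  have hmono : Up (rt (Tuple.sort fun j => ((ρ : ℂ) * t j).im) (ρ : ℂ) t) := by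
    refine Monotone.strictMono_of_injective (Tuple.monotone_sort fun j => ((ρ : ℂ) * t j).im) ?_
    intro i j hij
    exact (Tuple.sort fun j => ((ρ : ℂ) * t j).im).injective (hρ hij)
  obtain ⟨c, hc⟩ := IsAlgClosed.exists_pow_nat_eq ((ρ : ℂ) ^ (∑ j, b j)) (n := m) (by omega)
  obtain ⟨ε, hε, hb⟩ := Metric.isOpen_iff.1 (Cht_open _ _) t hmono
  exact ⟨_, ρ, c, ε, Circle.norm_coe ρ, hc, hε, fun t' ht' => hb ht'⟩

end TATE.FA
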