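import Pool.Agent.Lib.TATE.FA.Spec2

/-!
# PROJECT TATE, package FA: the frames are flat for `LZ`
-/

set_option autoImplicit false

open Topology Metric MeasureTheory

noncomputable section

namespace TATE.FA

open SEJ TATE
open SECR (cutp)
open HC (AV)
open HC.SE (New IsCov)

theorem Chz_smul {ι : Type} (x : ℝ) (v : ι → ℂ) : ((x : ℝ) : ℂ) • v = x • v := by
  funext p
  exact (Complex.real_smul (x := x) (z := v p)).symm

theorem Chz_cvb {m r : ℕ} {b : Fin (r + 1) → ℕ} (π : Equiv.Perm (Fin (r + 1))) (h : Cvb m b) :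
    Cvb m (b ∘ π) := by
  obtain ⟨h1, h2, h3, h4⟩ := h
  refine ⟨h1, fun j => h2 (π j), ?_, fun d hd hj => h4 d hd fun j => ?_⟩
  · have e : ∑ j, (b ∘ π) j = ∑ j, b j := Equiv.sum_comp π b
    rw [e]
    exact h3
  · have := hj (π.symm j)
    rw [Function.comp_apply, Equiv.apply_symm_apply] at this
    exact this

theorem Chz_cov {m r : ℕ} {b : Fin (r + 1) → ℕ} {t : Fin (r + 1) → ℂ} (h : Cvb m b)
    (ht : Function.Injective t) : IsCov m t b := ⟨h.1, ht, h.2.1, h.2.2.1, h.2.2.2⟩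

/-- `Ds`, real linear. -/
def Chz_Ds (m : ℕ) {r : ℕ} (b : Fin (r + 1) → ℕ) (π : Equiv.Perm (Fin (r + 1))) (ρ c : ℂ) :
    (Ix m (b ∘ π) → ℂ) →ₗ[ℝ] (Ix m b → ℂ) where
  toFun := Ds m b π ρ c
  map_add' u v := by
    funext p
    exact mul_add _ _ _
  map_smul' x v := by
    funext p
    exact mul_smul_comm x ((dl m b ρ c (ch p) (ex p))⁻¹) (v (ixe m b π p))

/-- `Dr`, real linear. -/
def Chz_Dr (m : ℕ) {r : ℕ} (b : Fin (r + 1) → ℕ) (π : Equiv.Perm (Fin (r + 1))) (ρ c : ℂ) :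
    (Ix m b → ℂ) →ₗ[ℝ] (Ix m (b ∘ π) → ℂ) where
  toFun := Dr m b π ρ c
  map_add' u v := by
    funext p
    exact mul_add _ _ _
  map_smul' x v := by
    funext p
    exact mul_smul_comm x (dl m b ρ c (ch p) (ex p)) (v ((ixe m b π).symm p))

theorem Chz_Zn {m r : ℕ} {b : Fin (r + 1) → ℕ} (φ : (Ix m b → ℂ) →ₗ[ℝ] (Ix m b → ℂ))
    (h : ∀ v, φ (Zd m b v) = Zd m b (φ v)) (n : ℕ) (v : Ix m b → ℂ) :
    φ (Zn m b n v) = Zn m b n (φ v) := by
  have hz : ∀ v : Ix m b → ℂ, Zn m b 0 v = v := by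
    intro v
    funext p
    show ze m (ch p) ^ 0 * v p = v p
    rw [pow_zero, one_mul]
  have hs : ∀ (n : ℕ) (v : Ix m b → ℂ), Zn m b (n + 1) v = Zd m b (Zn m b n v) := by
    intro n v
    funext p
    show ze m (ch p) ^ (n + 1) * v p = ze m (ch p) * (ze m (ch p) ^ n * v p)
    rw [pow_succ']
    ring
  induction n with
  | zero => rw [hz, hz]
  | succ n ih => rw [hs, hs, h, ih]

theorem Chz_span {m r : ℕ} {b : Fin (r + 1) → ℕ} {t : Fin (r + 1) → ℂ} (h : IsCov m t b)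
    (W : Fin m.totient × Fin r → (Ix m b → ℂ)) (hW : LinearIndependent ℝ W) :
    Submodule.span ℝ (Set.range W) = ⊤ := by
  apply hW.span_eq_top_of_card_eq_finrank'
  have h1 := tN1b tN1 t b h
  rw [Module.finrank_pi_fintype, Finset.sum_const, Complex.finrank_real_complex,
    Fintype.card_prod, Fintype.card_fin, Fintype.card_fin, Finset.card_univ, smul_eq_mul,
    mul_comm, ← h1, mul_comm]

/-- One inclusion. -/
theorem Chz_aux (hRot : S_Rot) (hRtz : S_Rtz) (hLzc : S_Lzc) (hWrd : S_Wrd) (hPk : S_Pk)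
    (hChf : S_Chf) (m r : ℕ) (b : Fin (r + 1) → ℕ) (π : Equiv.Perm (Fin (r + 1))) (ρ c : ℂ)
    (hb : Cvb m b) (hρ : ‖ρ‖ = 1) (hc : c ^ m = ρ ^ (∑ j, b j)) (t t' : Fin (r + 1) → ℂ)
    (ht : Up (rt π ρ t)) (ht' : Up (rt π ρ t')) (φ : (Ix m b → ℂ) →ₗ[ℝ] (Ix m b → ℂ))
    (hφ : ∀ q, φ (frc m b π ρ c t q) = frc m b π ρ c t' q) :
    (∀ v ∈ LZ m b t, φ v ∈ LZ m b t') ∧ ∀ v, φ (Zd m b v) = Zd m b (φ v) := by
  have hm : 1 ≤ m := le_trans (by norm_num) hb.1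
  obtain ⟨hR1, hR2, hR3, -, -, -⟩ := hRot m r b t π ρ c hm hρ hc
  obtain ⟨hinj, hlin, -⟩ := (hChf m r b π ρ c hb hρ hc).1 t ht
  have hspan := Chz_span (Chz_cov hb hinj) _ hlin
  obtain ⟨⟨κ, hκ⟩, n, hn⟩ := hPk m r (b ∘ π) (Chz_cvb π hb)
  have hZD : ∀ w, Ds m b π ρ c (Zd m (b ∘ π) w) = Zd m b (Ds m b π ρ c w) := by
    intro w
    have h1 := hR3 (Ds m b π ρ c w)
    rw [hR2] at h1
    rw [← h1, hR1]
  have hfr : ∀ (s : Fin (r + 1) → ℂ) q, Zd m b (frc m b π ρ c s q) =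
      ∑ q', (n q q' : ℝ) • frc m b π ρ c s q' := by
    intro s q
    show Zd m b (Ds m b π ρ c (fr m (b ∘ π) (rt π ρ s) q)) = _
    rw [← hZD, hn]
    show Chz_Ds m b π ρ c _ = _
    rw [map_sum]
    refine Finset.sum_congr rfl fun q' _ => ?_
    rw [Chz_smul, map_smul]
    rfl
  have hZ : ∀ v, φ (Zd m b v) = Zd m b (φ v) := by
    intro v
    have h1 : φ ∘ₗ (Zd m b).restrictScalars ℝ = (Zd m b).restrictScalars ℝ ∘ₗ φ := by
      apply LinearMap.ext_on_range hspan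
      intro q
      show φ (Zd m b (frc m b π ρ c t q)) = Zd m b (φ (frc m b π ρ c t q))
      rw [hfr, hφ, hfr, map_sum]
      refine Finset.sum_congr rfl fun q' _ => ?_
      rw [map_smul, hφ]
    exact LinearMap.congr_fun h1 v
  refine ⟨fun v hv => ?_, hZ⟩
  have hs : Function.Injective (rt π ρ t) := fun i j hij =>
    ht.injective (congrArg Complex.im hij)
  have hs' : Function.Injective (rt π ρ t') := fun i j hij =>
    ht'.injective (congrArg Complex.im hij)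
  rw [hRtz m r b t π ρ c hm hρ hc, hLzc m r (b ∘ π) _ (Chz_cov (Chz_cvb π hb) hs) ht] at hv
  rw [hRtz m r b t' π ρ c hm hρ hc, hLzc m r (b ∘ π) _ (Chz_cov (Chz_cvb π hb) hs') ht']
  let φ' : (Ix m (b ∘ π) → ℂ) →ₗ[ℝ] (Ix m (b ∘ π) → ℂ) :=
    Chz_Dr m b π ρ c ∘ₗ φ ∘ₗ Chz_Ds m b π ρ c
  have hφ' : ∀ w, φ' w = Dr m b π ρ c (φ (Ds m b π ρ c w)) := fun w => rfl
  have hZ' : ∀ w, φ' (Zd m (b ∘ π) w) = Zd m (b ∘ π) (φ' w) := by
    intro w
    rw [hφ', hφ', hZD, hZ, hR3]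
  have hfr' : ∀ q, φ' (fr m (b ∘ π) (rt π ρ t) q) = fr m (b ∘ π) (rt π ρ t') q := by
    intro q
    rw [hφ']
    have h1 : φ (Ds m b π ρ c (fr m (b ∘ π) (rt π ρ t) q)) =
      Ds m b π ρ c (fr m (b ∘ π) (rt π ρ t') q) := hφ q
    rw [h1, hR2]
  have hP : ∀ k, φ' (Pm m (b ∘ π) (rt π ρ t) k) = Pm m (b ∘ π) (rt π ρ t') k := by
    intro k
    rw [hκ _ ht k, hκ _ ht' k, map_sum]
    refine Finset.sum_congr rfl fun q _ => ?_
    rw [Chz_smul, Chz_smul, map_smul, hfr']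
  obtain ⟨f, hf, hw⟩ := hv
  have h2 := (hWrd m r (b ∘ π) (Pm m (b ∘ π) (rt π ρ t)) hm).2.2.2.2.2.2.2
    (Pm m (b ∘ π) (rt π ρ t')) φ' (Chz_Zn φ' hZ') hP f _ hw
  rw [hφ', hR1] at h2
  exact ⟨f, hf, h2⟩

/-- **Chz**: the frames are flat for `LZ`. -/
theorem tChz : S_Rot → S_Rtz → S_Lzc → S_Wrd → S_Pk → S_Chf → S_Chz := by
  intro hRot hRtz hLzc hWrd hPk hChf m r b π ρ c hb hρ hc t t' ht ht' φ hφ
  have h1 := Chz_aux hRot hRtz hLzc hWrd hPk hChf m r b π ρ c hb hρ hc t t' ht ht'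
    φ.toLinearMap hφ
  have h2 := Chz_aux hRot hRtz hLzc hWrd hPk hChf m r b π ρ c hb hρ hc t' t ht' ht
    φ.symm.toLinearMap fun q => by
      show φ.symm (frc m b π ρ c t' q) = frc m b π ρ c t q
      rw [← hφ q, LinearEquiv.symm_apply_apply]
  refine ⟨?_, h1.2⟩
  apply Set.Subset.antisymm
  · rintro _ ⟨v, hv, rfl⟩
    exact h1.1 v hv
  · intro v hv
    exact ⟨φ.symm v, h2.1 v hv, LinearEquiv.apply_symm_apply φ v⟩

end TATE.FA
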