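import Pool.Agent.Lib.TATE.FA.Spec
import Pool.Agent.Lib.SE.CR.Al

/-!
# TATE, FA: connectedness of the curve (helper36)
-/

set_option autoImplicit false

open Topology Metric MeasureTheory

noncomputable section

namespace TATE.FA

open SEJ TATE
open SECR (cutp)
open HC (AV)
open HC.SE (New IsCov)

section con

variable {m r : ℕ} {b : Fin (r + 1) → ℕ} {s : Fin (r + 1) → ℂ}

private theorem Con_cov (hc : Cvb m b) (hs : Function.Injective s) : IsCov m s b :=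
  ⟨hc.1, hs, hc.2.1, hc.2.2.1, hc.2.2.2⟩

private theorem Con_inj (hs : Up s) : Function.Injective s := fun _ _ h =>
  hs.injective (congrArg Complex.im h)

private theorem Con_prod (π : Equiv.Perm (Fin (r + 1))) (hc : Cvb m b) : Cvb m (b ∘ π) := by
  refine ⟨hc.1, fun j => hc.2.1 (π j), ?_, fun d hd h => hc.2.2.2 d hd fun j => ?_⟩
  · have h : ∑ j, (b ∘ π) j = ∑ j, b j := Equiv.sum_comp π b
    rw [h]
    exact hc.2.2.1
  · have h2 := h (π.symm j)
    rwa [Function.comp_apply, Equiv.apply_symm_apply] at h2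

/-- The local branch. -/
private theorem Con_up (hm : 1 ≤ m) (hPri : S_Pri) (x y : ℂ) (h : (x, y) ∈ Pts m b s) :
    ∃ x' y' v, x' ∈ cutp s ∧ (x', y') ∈ Pts m b s ∧ Itg m b s (x, y) (x', y') v := by
  have hm0 : m ≠ 0 := by omega
  have hx : ∀ j, x - s j ≠ 0 := fun j h0 => h.1 ⟨j, (sub_eq_zero.mp h0).symm⟩
  let U : Set (Fin 1 → ℂ) := {ξ | ∀ j, (ξ 0 - s j) / (x - s j) ∈ Complex.slitPlane}
  let η : (Fin 1 → ℂ) → ℂ := fun ξ => y * ∏ j, ((ξ 0 - s j) / (x - s j)) ^ ((b j : ℂ) / m)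
  have hU : IsOpen U := by
    have : U = ⋂ j, (fun ξ : Fin 1 → ℂ => (ξ 0 - s j) / (x - s j)) ⁻¹' Complex.slitPlane := by
      ext ξ
      simp [U]
    rw [this]
    refine isOpen_iInter_of_finite fun j => Complex.isOpen_slitPlane.preimage ?_
    fun_prop
  have hxU : (fun _ => x : Fin 1 → ℂ) ∈ U := by
    intro j
    change (x - s j) / (x - s j) ∈ Complex.slitPlane
    rw [div_self (hx j)]
    exact Complex.one_mem_slitPlane
  have hη : ∀ ξ, η ξ ^ m = ∏ j, (ξ 0 - s j) ^ b j := by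
    intro ξ
    change (y * ∏ j, ((ξ 0 - s j) / (x - s j)) ^ ((b j : ℂ) / m)) ^ m = _
    rw [mul_pow, h.2, ← Finset.prod_pow, ← Finset.prod_mul_distrib]
    refine Finset.prod_congr rfl fun j _ => ?_
    rw [← Complex.cpow_nat_mul, mul_div_cancel₀ _ (Nat.cast_ne_zero.mpr hm0 : (m : ℂ) ≠ 0),
      Complex.cpow_natCast, ← mul_pow, mul_div_cancel₀ _ (hx j)]
  have hdη : DifferentiableOn ℂ η U := by
    let W : Set ℂ := {z | ∀ j, (z - s j) / (x - s j) ∈ Complex.slitPlane}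
    have h1 : ∀ j ∈ (Finset.univ : Finset (Fin (r + 1))), DifferentiableOn ℂ
        (fun z : ℂ => ((z - s j) / (x - s j)) ^ ((b j : ℂ) / m)) W := by
      intro j _ z hz
      have h2 : DifferentiableWithinAt ℂ (fun z : ℂ => (z - s j) / (x - s j)) W z := by
        fun_prop
      exact h2.cpow_const (hz j)
    have h3 : DifferentiableOn ℂ (fun z : ℂ => ∏ j,
        ((z - s j) / (x - s j)) ^ ((b j : ℂ) / m)) W := DifferentiableOn.fun_finsetProd h1
    have h4 : DifferentiableOn ℂ (fun ξ : Fin 1 → ℂ => ξ 0) U := by fun_prop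
    exact (differentiableOn_const y).mul (h3.comp h4 fun ξ hξ => hξ)
  have hQ : ∀ ξ ∈ U, (ξ 0, η ξ) ∈ Pts m b s := by
    intro ξ hξ
    refine ⟨?_, hη ξ⟩
    rintro ⟨j, hj⟩
    have h2 := hξ j
    change s j = ξ 0 at hj
    rw [← hj, sub_self, zero_div] at h2
    exact Complex.slitPlane_ne_zero h2 rfl
  have hη0 : η (fun _ => x) = y := by
    change y * ∏ j, ((x - s j) / (x - s j)) ^ ((b j : ℂ) / m) = y
    have : ∀ j, ((x - s j) / (x - s j)) ^ ((b j : ℂ) / m) = 1 := fun j => by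
      rw [div_self (hx j), Complex.one_cpow]
    simp [this]
  obtain ⟨U', hU'U, hU'o, hxU', v, -, -, hv⟩ := hPri m r b hm 1 U (fun _ => x) (fun _ => s)
    (fun _ => (x, y)) (fun ξ => (ξ 0, η ξ)) 0 hU hxU (differentiableOn_const _)
    (differentiableOn_const _) (DifferentiableOn.prodMk (by fun_prop) hdη)
    (fun ξ hξ => ⟨h, hQ ξ hξ⟩) (by
      change Itg m b s (x, y) (x, η fun _ => x) 0
      rw [hη0]
      exact Itg.refl _ h)
  -- move up
  have h5 : Filter.Tendsto (fun ε : ℝ => (fun _ => x + ε * Complex.I : Fin 1 → ℂ)) (𝓝 0)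
      (𝓝 (fun _ => x)) := by
    have : Continuous (fun ε : ℝ => (fun _ => x + ε * Complex.I : Fin 1 → ℂ)) := by fun_prop
    have h6 := this.tendsto 0
    simpa using h6
  have h6 : ∀ᶠ ε : ℝ in 𝓝 0, (fun _ => x + ε * Complex.I : Fin 1 → ℂ) ∈ U' :=
    h5 (hU'o.mem_nhds hxU')
  have h7 : ∀ᶠ ε : ℝ in 𝓝[≠] 0, ∀ j, x.im + ε ≠ (s j).im := by
    rw [Filter.eventually_all]
    intro j
    by_cases h8 : (s j).im - x.im = 0
    · filter_upwards [self_mem_nhdsWithin] with ε hε h9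
      refine hε ?_
      change ε = 0
      linarith
    · filter_upwards [nhdsWithin_le_nhds (isOpen_ne.mem_nhds (Ne.symm h8))] with ε hε h9
      refine hε ?_
      linarith
  obtain ⟨ε, h8, h9⟩ := ((h6.filter_mono nhdsWithin_le_nhds).and h7).exists
  refine ⟨x + ε * Complex.I, η (fun _ => x + ε * Complex.I), v (fun _ => x + ε * Complex.I), ?_,
    hQ _ (hU'U h8), hv _ h8⟩
  intro j h10
  exfalso
  refine h9 j ?_
  rw [← h10]
  simp

/-- The points over `x`. -/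
private theorem Con_pf (hm : 1 ≤ m) (x y : ℂ) (h : (x, y) ∈ Pts m b s) :
    ∃ f : ℕ, (x, y) = pf m b s f x := by
  have hm0 : m ≠ 0 := by omega
  have h0 : y0 m s b x ≠ 0 := SECR.Al.y0ne h.1
  have h1 : (y / y0 m s b x) ^ m = 1 := by
    rw [div_pow, SECR.Al.y0pow hm0 x, h.2]
    refine div_self ?_
    rw [← SECR.Al.y0pow hm0 x]
    exact pow_ne_zero _ h0
  have h2 : IsPrimitiveRoot (ze m 1) m := by
    rw [SECR.Al.ze1]
    exact Complex.isPrimitiveRoot_exp m hm0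
  have : NeZero m := ⟨hm0⟩
  obtain ⟨f, -, hf⟩ := h2.eq_pow_of_pow_eq_one h1
  refine ⟨f, ?_⟩
  unfold pf
  rw [hf, div_mul_cancel₀ _ h0]

/-- The sheets. -/
private theorem Con_sheet (hAlg : S_Alg) (hLop : S_Lop) (hc : Cvb m b) (hs : Up s)
    (x : ℂ) (hx : x ∈ cutp s) (f f' : ℕ) :
    ∃ v, Itg m b s (pf m b s f x) (pf m b s f' x) v := by
  have hm : 1 ≤ m := by
    have := hc.1
    omega
  have hm0 : m ≠ 0 := by omega
  obtain ⟨-, hA2, hA3, -⟩ := hAlg m r b s hm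
  obtain ⟨hL1, hL2⟩ := hLop m r b s (Con_cov hc (Con_inj hs)) hs
  have hmem : ∀ f, pf m b s f x ∈ Pts m b s := by
    intro f
    refine ⟨SECR.Al.notin hx, ?_⟩
    change (ze m 1 ^ f * y0 m s b x) ^ m = _
    rw [mul_pow, ← pow_mul, mul_comm f m, pow_mul, SECR.Al.zepow hm0, one_pow, one_mul,
      SECR.Al.y0pow hm0]
    rfl
  have hmod : ∀ f f' : ℕ, (f : ℤ) ≡ f' [ZMOD m] → pf m b s f x = pf m b s f' x := by
    intro f f' h
    have h1 : f ≡ f' [MOD m] := (Int.natCast_modEq_iff).mp h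
    unfold pf
    rw [pow_eq_pow_mod f (SECR.Al.zepow hm0), pow_eq_pow_mod f' (SECR.Al.zepow hm0), h1]
  let H : AddSubgroup ℤ :=
    { carrier := {n | ∀ f f' : ℕ, (f' : ℤ) ≡ f + n [ZMOD m] →
        ∃ v, Itg m b s (pf m b s f x) (pf m b s f' x) v}
      zero_mem' := by
        intro f f' h
        rw [add_zero] at h
        rw [hmod f' f h]
        exact ⟨0, Itg.refl _ (hmem f)⟩
      add_mem' := by
        intro a c ha hc' f f' h
        obtain ⟨g, hg⟩ : ∃ g : ℕ, (g : ℤ) ≡ f + a [ZMOD m] := by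
          refine ⟨(((f : ℤ) + a) % m).toNat, ?_⟩
          rw [Int.toNat_of_nonneg (Int.emod_nonneg _ (by exact_mod_cast hm0))]
          exact Int.mod_modEq _ _
        obtain ⟨v, hv⟩ := ha f g hg
        obtain ⟨w, hw⟩ := hc' g f' (h.trans (by
          rw [← add_assoc]
          exact (hg.symm.add_right c)))
        exact ⟨v + w, hA3 _ _ _ _ _ hv hw⟩
      neg_mem' := by
        intro a ha f f' h
        obtain ⟨v, hv⟩ := ha f' f (by
          have h1 := h.add_right a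
          rw [neg_add_cancel_right] at h1
          exact h1.symm)
        exact ⟨-v, (hA2 _ _ _ hv).2.2⟩ }
  have hHm : (m : ℤ) ∈ H := by
    intro f f' h
    have h1 : (f' : ℤ) ≡ f [ZMOD m] := h.trans (by
      have h2 : (f : ℤ) + m ≡ f + 0 [ZMOD m] := Int.ModEq.add_left _ (by
        have h3 : (m : ℤ) ≡ 0 [ZMOD m] := Int.modEq_zero_iff_dvd.mpr dvd_rfl
        exact h3)
      rwa [add_zero] at h2)
    rw [hmod f' f h1]
    exact ⟨0, Itg.refl _ (hmem f)⟩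
  have hHb : ∀ k, (b k : ℤ) ∈ H := by
    intro k f f' h
    have h1 : (f' : ℤ) ≡ ((f + b k : ℕ) : ℤ) [ZMOD m] := by
      push_cast
      exact h
    rw [hmod f' (f + b k) h1]
    exact ⟨_, hL2 f k x hx⟩
  obtain ⟨d, hd⟩ := Int.subgroup_cyclic H
  have hdv : ∀ n ∈ H, d ∣ n := by
    intro n hn
    rw [hd] at hn
    obtain ⟨z, hz⟩ := AddSubgroup.mem_closure_singleton.mp hn
    exact ⟨z, by rw [← hz, smul_eq_mul, mul_comm]⟩
  have hd1 : d.natAbs = 1 := hc.2.2.2 d.natAbs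
    (by
      have := Int.natAbs_dvd_natAbs.mpr (hdv _ hHm)
      simpa using this)
    (fun k => by
      have := Int.natAbs_dvd_natAbs.mpr (hdv _ (hHb k))
      simpa using this)
  have h1 : (1 : ℤ) ∈ H := by
    rw [hd, AddSubgroup.mem_closure_singleton]
    rcases Int.natAbs_eq d with h | h
    · rw [hd1] at h
      exact ⟨1, by rw [h]; norm_num⟩
    · rw [hd1] at h
      exact ⟨-1, by rw [h]; norm_num⟩
  have hall : ((f' : ℤ) - f) ∈ H := by
    have h2 := H.zsmul_mem h1 ((f' : ℤ) - f)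
    simpa using h2
  exact hall f f' (by
    rw [add_sub_cancel])

private theorem Con_Up (hAlg : S_Alg) (hLop : S_Lop) (hPri : S_Pri) (hc : Cvb m b) (hs : Up s)
    (P Q : ℂ × ℂ) (hP : P ∈ Pts m b s) (hQ : Q ∈ Pts m b s) : ∃ v, Itg m b s P Q v := by
  have hm : 1 ≤ m := by
    have := hc.1
    omega
  obtain ⟨-, hA2, hA3, -⟩ := hAlg m r b s hm
  obtain ⟨hL1, hL2⟩ := hLop m r b s (Con_cov hc (Con_inj hs)) hs
  obtain ⟨x, y⟩ := P
  obtain ⟨x', y'⟩ := Q
  obtain ⟨x₁, y₁, v₁, h1, h2, h3⟩ := Con_up hm hPri x y hP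
  obtain ⟨x₂, y₂, v₂, k1, k2, k3⟩ := Con_up hm hPri x' y' hQ
  obtain ⟨f, hf⟩ := Con_pf hm x₁ y₁ h2
  obtain ⟨g, hg⟩ := Con_pf hm x₂ y₂ k2
  rw [hf] at h3
  rw [hg] at k3
  obtain ⟨w, hw⟩ := Con_sheet hAlg hLop hc hs x₁ h1 f g
  exact ⟨_, hA3 _ _ _ _ _ (hA3 _ _ _ _ _ (hA3 _ _ _ _ _ h3 hw) (hL1 g x₁ h1 x₂ k1))
    (hA2 _ _ _ k3).2.2⟩

end con

theorem tCon : S_Alg → S_Rot → S_Cht → S_Lop → S_Pri → S_Con := by
  intro hAlg hRot hCht hLop hPri m r b t hc ht P hP Q hQ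
  have hm : 1 ≤ m := by
    have := hc.1
    omega
  obtain ⟨π, ρ, c, ε, h1, h2, h3, h4⟩ := hCht m r b t hm ht
  obtain ⟨-, h5, -, h6, h7, -⟩ := hRot m r b t π ρ c hm h1 h2
  obtain ⟨v, hv⟩ := Con_Up hAlg hLop hPri (Con_prod π hc) (h4 t (mem_ball_self h3)) _ _
    ((h6 P).mp hP) ((h6 Q).mp hQ)
  refine ⟨Ds m b π ρ c v, (h7 P Q _).mpr ?_⟩
  rw [h5]
  exact hv

end TATE.FA
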