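import Pool.Agent.Lib.TATE.FA.Spec
import Pool.Agent.Lib.SE.CR.Crs
import Pool.Agent.Lib.SE.CR.Al

/-!
# TATE/FA/Crx: crossing a ray
-/

set_option autoImplicit false

open Topology Metric MeasureTheory Filter

noncomputable section

namespace TATE.FA

open SEJ TATE SEB HC HC.SE
open SECR (cutp)
open HC (AV)
open HC.SE (New IsCov)
open SECR.Crs (ze_pow ze_pow_m y0_pow y0_ne form branch away)

namespace Crx

/-- The branch is continuous near the ray. -/
theorem ycont {m r : ℕ} {s : Fin (r + 1) → ℂ} {b : Fin (r + 1) → ℕ}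
    (hs : StrictMono fun j => (s j).im) (k : Fin (r + 1)) (ε : ℂ) {z : ℂ}
    (h1 : z.im = (s k).im → z.re < (s k).re) (h2 : ∀ l, l ≠ k → z.im ≠ (s l).im) :
    ContinuousAt (fun x => if (s k).im ≤ x.im then ε * y0 m s b x
      else ε * ze m 1 ^ b k * y0 m s b x) z := by
  by_cases hz : z.im = (s k).im
  · exact branch hs k hz (h1 hz) ε
  · have hc : z ∈ cutp s := by
      intro l hl
      by_cases h : l = k
      · rw [h] at hl
        exact absurd hl hz
      · exact absurd hl (h2 l h)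
    have hy := SECR.Al.y0c (m := m) (b := b) hc
    rcases lt_or_gt_of_ne hz with h | h
    · have h3 : ∀ᶠ x : ℂ in 𝓝 z, x.im < (s k).im :=
        Complex.continuous_im.continuousAt.eventually (gt_mem_nhds h)
      refine (continuousAt_const.mul hy : ContinuousAt
        (fun x => ε * ze m 1 ^ b k * y0 m s b x) z).congr ?_
      filter_upwards [h3] with x hx
      exact (if_neg (not_le.2 hx)).symm
    · have h3 : ∀ᶠ x : ℂ in 𝓝 z, (s k).im < x.im :=
        Complex.continuous_im.continuousAt.eventually (lt_mem_nhds h)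
      refine (continuousAt_const.mul hy : ContinuousAt
        (fun x => ε * y0 m s b x) z).congr ?_
      filter_upwards [h3] with x hx
      exact (if_pos hx.le).symm

end Crx

open Crx in
theorem tCrx : S_Crx := by
  intro m r b s hc hs k x₀ hj1 hj3
  have hm : m ≠ 0 := by
    have := hc.1
    omega
  have hoth : ∀ l, l ≠ k → x₀.im ≠ (s l).im := by
    intro l hl h
    exact hl (hs.injective (by
      change (s l).im = (s k).im
      rw [← h, hj1]))
  have hx₀ : x₀ ∉ Set.range s := by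
    rintro ⟨l, hl⟩
    by_cases h : l = k
    · rw [h] at hl
      rw [← hl] at hj3
      exact lt_irrefl _ hj3
    · exact hoth l h (by rw [← hl])
  have hze : ∀ u : ℕ, ze m u ≠ 0 := fun u => Complex.exp_ne_zero _
  have hzz : ∀ n u : ℕ, (ze m 1 ^ n) ^ u = ze m u ^ n := by
    intro n u
    rw [ze_pow m u, ← pow_mul, ← pow_mul, mul_comm]
  have hzm : ∀ n : ℕ, (ze m 1 ^ n) ^ m = 1 := by
    intro n
    rw [← pow_mul, mul_comm, pow_mul, ze_pow_m hm, one_pow]
  have hgood : ∀ p : Ix m b, Good s (SEJ.mu m b (ch p)) (Polynomial.X ^ ex p) := fun p =>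
    (tN0 s b hc (ch p) p.1.1.2 p.2.1).2.2.2.2.2.2.2.2.2 hs (ex p) p.2.2
  have hlam : ∀ p : Ix m b, lam (SEJ.mu m b (ch p)) k = (ze m (ch p) ^ b k)⁻¹ := fun p =>
    (tN0 s b hc (ch p) p.1.1.2 p.2.1).2.1 k
  have hG := fun p : Ix m b => xN11 s _ _ (hgood p) k x₀ hj1 hj3
  choose G hG using hG
  have hGall := eventually_all.mpr hG
  have hoth' : ∀ᶠ x : ℂ in 𝓝 x₀, ∀ l, l ≠ k → x.im ≠ (s l).im := by
    rw [eventually_all]
    intro l
    by_cases h : l = k
    · exact Eventually.of_forall fun x h' => absurd h h'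
    · have h2 : ∀ᶠ x : ℂ in 𝓝 x₀, x.im ≠ (s l).im :=
        Complex.continuous_im.continuousAt.eventually (isOpen_ne.mem_nhds (hoth l h))
      filter_upwards [h2] with x hx _ using hx
  have hre : ∀ᶠ x : ℂ in 𝓝 x₀, x.re < (s k).re :=
    Complex.continuous_re.continuousAt.eventually (gt_mem_nhds hj3)
  obtain ⟨ρ, hρ, hball⟩ := Metric.eventually_nhds_iff_ball.1
    ((away s hx₀).and (hoth'.and (hre.and hGall)))
  have hcut : ∀ x ∈ Metric.ball x₀ ρ, x.im ≠ (s k).im → x ∈ cutp s := by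
    intro x hx hxj l hl
    by_cases h : l = k
    · rw [h] at hl
      exact absurd hl hxj
    · exact absurd hl ((hball x hx).2.1 l h)
  refine ⟨ρ, hρ, fun h h0 h1 => ?_⟩
  obtain ⟨xu, hxu⟩ : ∃ x : ℂ, x = x₀ + (h : ℂ) * Complex.I := ⟨_, rfl⟩
  obtain ⟨xd, hxd⟩ : ∃ x : ℂ, x = x₀ - (h : ℂ) * Complex.I := ⟨_, rfl⟩
  rw [← hxu, ← hxd]
  have hnorm : ∀ t : ℝ, |t| < ρ → x₀ + (t : ℂ) * Complex.I ∈ Metric.ball x₀ ρ := by
    intro t ht
    rw [mem_ball_iff_norm, add_sub_cancel_left, norm_mul, Complex.norm_I, mul_one,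
      Complex.norm_real, Real.norm_eq_abs]
    exact ht
  have hxuB : xu ∈ Metric.ball x₀ ρ := by
    rw [hxu]
    exact hnorm h (by rw [abs_of_pos h0]; exact h1)
  have hxdB : xd ∈ Metric.ball x₀ ρ := by
    have h2 := hnorm (-h) (by rw [abs_neg, abs_of_pos h0]; exact h1)
    rw [hxd]
    have h3 : x₀ - (h : ℂ) * Complex.I = x₀ + ((-h : ℝ) : ℂ) * Complex.I := by
      push_cast
      ring
    rw [h3]
    exact h2
  have hxui : xu.im = (s k).im + h := by
    rw [hxu, ← hj1]
    simp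
  have hxdi : xd.im = (s k).im - h := by
    rw [hxd, ← hj1]
    simp
  have hxuj : (s k).im ≤ xu.im := by
    rw [hxui]
    linarith
  have hxdj : ¬ (s k).im ≤ xd.im := by
    rw [hxdi]
    intro h
    linarith
  have hcu : xu ∈ cutp s := hcut xu hxuB (by
    rw [hxui]
    intro h
    linarith)
  have hcd : xd ∈ cutp s := hcut xd hxdB (by
    rw [hxdi]
    intro h
    linarith)
  refine ⟨hcu, hcd, fun f => ?_⟩
  -- the path
  obtain ⟨γ, hγ⟩ : ∃ γ : ℝ → ℂ, γ = fun u : ℝ => xu + (u : ℂ) * (xd - xu) := ⟨_, rfl⟩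
  have hγB : ∀ u ∈ Set.Icc (0 : ℝ) 1, γ u ∈ Metric.ball x₀ ρ := by
    intro u hu
    have h2 : γ u = x₀ + ((h * (1 - 2 * u) : ℝ) : ℂ) * Complex.I := by
      rw [hγ, hxu, hxd]
      push_cast
      ring
    rw [h2]
    refine hnorm _ ?_
    rw [abs_mul, abs_of_pos h0]
    have h3 : |1 - 2 * u| ≤ 1 := by
      rw [abs_le]
      constructor
      · linarith [hu.2]
      · linarith [hu.1]
    nlinarith [abs_nonneg (1 - 2 * u)]
  have hγc : Continuous γ := by
    rw [hγ]
    fun_prop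
  have hγ0 : γ 0 = xu := by
    rw [hγ]
    simp
  have hγ1 : γ 1 = xd := by
    rw [hγ]
    simp
  have hγd : ∀ u : ℝ, HasDerivAt γ (xd - xu) u := by
    intro u
    rw [hγ]
    have h2 : HasDerivAt (fun u : ℝ => (u : ℂ)) 1 u := by
      simpa using (hasDerivAt_id u).ofReal_comp
    simpa using (h2.mul_const (xd - xu)).const_add xu
  obtain ⟨Y, hY⟩ : ∃ Y : ℂ → ℂ, Y = fun x => if (s k).im ≤ x.im then ze m 1 ^ f * y0 m s b x
    else ze m 1 ^ f * ze m 1 ^ b k * y0 m s b x := ⟨_, rfl⟩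
  have hY1 : ∀ x : ℂ, (s k).im ≤ x.im → Y x = ze m 1 ^ f * y0 m s b x := by
    intro x hx
    rw [hY]
    exact if_pos hx
  have hY2 : ∀ x : ℂ, ¬ (s k).im ≤ x.im → Y x = ze m 1 ^ (f + b k) * y0 m s b x := by
    intro x hx
    rw [hY, pow_add]
    exact if_neg hx
  have hYm : ∀ x, Y x ^ m = ∏ l, (x - s l) ^ b l := by
    intro x
    by_cases hx : (s k).im ≤ x.im
    · rw [hY1 x hx, mul_pow, hzm, one_mul, y0_pow hm]
    · rw [hY2 x hx, mul_pow, hzm, one_mul, y0_pow hm]
  have hYc : ∀ x ∈ Metric.ball x₀ ρ, ContinuousAt Y x := by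
    intro x hx
    rw [hY]
    exact ycont hs k _ (fun _ => (hball x hx).2.2.1) (hball x hx).2.1
  have hyc : ContinuousOn (fun u => Y (γ u)) (Set.Icc (0 : ℝ) 1) := by
    intro u hu
    exact ((hYc _ (hγB u hu)).comp hγc.continuousAt).continuousWithinAt
  have hyi : ∀ u ∈ Set.Icc (0 : ℝ) 1, Set.IccExtend zero_le_one (Set.domRestrict (Set.Icc (0 : ℝ) 1) fun u => Y (γ u)) u =
      Y (γ u) := fun u hu => Set.IccExtend_of_mem _ _ hu
  have hmem : ∀ u ∈ Set.Icc (0 : ℝ) 1, γ u ∉ Set.range s := fun u hu => (hball _ (hγB u hu)).1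
  have hom : ∀ p : Ix m b, ∀ x ∈ Metric.ball x₀ ρ,
      HasDerivAt (fun x => ze m (ch p) ^ f * G p x) (om m b s (x, Y x) p) x := by
    intro p x hx
    obtain ⟨h2, h3, h4, h5⟩ := hball x hx
    have h9 := h5 p
    by_cases him : (s k).im ≤ x.im
    · rw [if_pos him] at h9
      have h8 : om m b s (x, Y x) p = ze m (ch p) ^ f *
          frm s (SEJ.mu m b (ch p)) (Polynomial.X ^ ex p) x := by
        have := form hm s b x h2 (ch p) (ex p) (ze m 1 ^ f)
        rw [hzz] at this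
        rw [hY1 x him]
        exact this
      rw [h8]
      exact h9.2.const_mul _
    · rw [if_neg him, hlam p, inv_inv] at h9
      have h8 : om m b s (x, Y x) p = ze m (ch p) ^ f * (ze m (ch p) ^ b k *
          frm s (SEJ.mu m b (ch p)) (Polynomial.X ^ ex p) x) := by
        have := form hm s b x h2 (ch p) (ex p) (ze m 1 ^ (f + b k))
        rw [hzz] at this
        rw [hY2 x him, ← mul_assoc, ← pow_add]
        exact this
      rw [h8]
      exact h9.2.const_mul _
  refine ⟨Set.IccExtend zero_le_one (Set.domRestrict (Set.Icc (0 : ℝ) 1) fun u => Y (γ u)), ?_, ?_, ?_, ?_, ?_⟩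
  · exact (continuousOn_iff_continuous_domRestrict.1 hyc).Icc_extend'
  · rw [hyi 0 ⟨le_rfl, zero_le_one⟩, hγ0, hY1 xu hxuj]
    rfl
  · rw [hyi 1 ⟨zero_le_one, le_rfl⟩, hγ1, hY2 xd hxdj]
    rfl
  · intro u hu
    rw [hyi u hu]
    have h2 : γ u = xu + (u : ℂ) * (xd - xu) := by rw [hγ]
    refine ⟨?_, ?_⟩
    · change xu + (u : ℂ) * (xd - xu) ∉ Set.range s
      rw [← h2]
      exact hmem u hu
    · change Y (γ u) ^ m = ∏ j, (xu + (u : ℂ) * (xd - xu) - s j) ^ b j
      rw [← h2]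
      exact hYm _
  · intro p
    have hcong : (∫ u in (0 : ℝ)..1, ((pf m b s (f + b k) xd).1 - (pf m b s f xu).1) *
        om m b s ((pf m b s f xu).1 + u * ((pf m b s (f + b k) xd).1 - (pf m b s f xu).1),
          Set.IccExtend zero_le_one (Set.domRestrict (Set.Icc (0 : ℝ) 1) fun u => Y (γ u)) u) p) =
        ∫ u in (0 : ℝ)..1, om m b s (γ u, Y (γ u)) p * (xd - xu) := by
      refine intervalIntegral.integral_congr fun u hu => ?_
      rw [Set.uIcc_of_le zero_le_one] at hu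
      have h2 : γ u = xu + (u : ℂ) * (xd - xu) := by rw [hγ]
      change (xd - xu) * om m b s (xu + (u : ℂ) * (xd - xu), Set.IccExtend zero_le_one
        (Set.domRestrict (Set.Icc (0 : ℝ) 1) fun u => Y (γ u)) u) p = _
      rw [hyi u hu, ← h2, mul_comm]
    rw [hcong]
    have hder : ∀ u ∈ Set.uIcc (0 : ℝ) 1, HasDerivAt (fun u : ℝ => ze m (ch p) ^ f * G p (γ u))
        (om m b s (γ u, Y (γ u)) p * (xd - xu)) u := by
      intro u hu
      rw [Set.uIcc_of_le zero_le_one] at hu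
      exact (hom p (γ u) (hγB u hu)).comp u (hγd u)
    have hcont : ContinuousOn (fun u : ℝ => om m b s (γ u, Y (γ u)) p * (xd - xu))
        (Set.uIcc (0 : ℝ) 1) := by
      rw [Set.uIcc_of_le zero_le_one]
      refine ContinuousOn.mul ?_ continuousOn_const
      unfold om
      refine ContinuousOn.div ?_ ?_ ?_
      · exact (hγc.continuousOn.pow _).mul (hyc.pow _)
      · refine continuousOn_finsetProd _ fun j _ => ?_
        exact (hγc.continuousOn.sub continuousOn_const).pow _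
      · intro u hu
        rw [Finset.prod_ne_zero_iff]
        intro j _ h2
        exact hmem u hu ⟨j, (sub_eq_zero.1 (eq_zero_of_pow_eq_zero h2)).symm⟩
    rw [intervalIntegral.integral_eq_sub_of_hasDerivAt hder hcont.intervalIntegrable]
    rw [hγ0, hγ1]
    have b2 := (hball xu hxuB).2.2.2 p
    have b3 := (hball xd hxdB).2.2.2 p
    rw [if_pos hxuj] at b2
    rw [if_neg hxdj, hlam p] at b3
    have hz : ze m (ch p) ^ b k ≠ 0 := pow_ne_zero _ (hze _)
    have b4 : G p xd = ze m (ch p) ^ b k * prm (frm s (SEJ.mu m b (ch p)) (Polynomial.X ^ ex p)) xd +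
        (1 - ze m (ch p) ^ b k) * Pp s (frm s (SEJ.mu m b (ch p)) (Polynomial.X ^ ex p)) k := by
      have b5 := b3.1
      field_simp at b5
      linear_combination b5
    rw [b4, b2.1]
    change ze m (ch p) ^ f * (ze m (ch p) ^ b k * Fm m b s xd p + (Pm m b s k p - ze m (ch p) ^ b k * Pm m b s k p) - Fm m b s xu p) = _
    change _ = ze m (ch p) ^ f * (ze m (ch p) ^ b k * Fm m b s xd p + (1 - ze m (ch p) ^ b k) * Pm m b s k p) - ze m (ch p) ^ f * Fm m b s xu p
    ring

end TATE.FA
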