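import Pool.Agent.Lib.TATE.FA.Spec2

/-!
# PROJECT TATE, package FA: reduction modulo the cyclotomic polynomial (proof of `S_Cyc`)
-/

set_option autoImplicit false

open Topology Metric MeasureTheory

noncomputable section

namespace TATE.FA

open SEJ TATE

/-- `ze m u` is a primitive root of unity for `u` prime to `m`. -/
theorem Cyc_prim (m u : ℕ) (hm : m ≠ 0) (hu : u.Coprime m) : IsPrimitiveRoot (ze m u) m := by
  have h := Complex.isPrimitiveRoot_exp_of_coprime u m hm hu
  have e : ze m u = Complex.exp (2 * Real.pi * Complex.I * (u / m)) := by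
    unfold ze
    congr 1
    ring
  rw [e]
  exact h

/-- The values of `K` at the primitive roots of unity. -/
theorem Cyc_red (m : ℕ) (hm : m ≠ 0) (K : Polynomial ℚ) : ∃ κ : Fin m.totient → ℚ,
    ∀ z : ℂ, IsPrimitiveRoot z m → Polynomial.aeval z K = ∑ a, ((κ a : ℝ) : ℂ) * z ^ (a : ℕ) := by
  have hpos : 0 < m := Nat.pos_of_ne_zero hm
  have hmon : (Polynomial.cyclotomic m ℚ).Monic := Polynomial.cyclotomic.monic m ℚ
  have hdeg : (Polynomial.cyclotomic m ℚ).natDegree = m.totient :=
    Polynomial.natDegree_cyclotomic m ℚ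
  have hne : Polynomial.cyclotomic m ℚ ≠ 1 := by
    intro h
    rw [h, Polynomial.natDegree_one] at hdeg
    exact absurd (Nat.totient_pos.2 hpos) (by omega)
  have hlt : (K %ₘ Polynomial.cyclotomic m ℚ).natDegree < m.totient := by
    rw [← hdeg]
    exact Polynomial.natDegree_modByMonic_lt K hmon hne
  refine ⟨fun a => (K %ₘ Polynomial.cyclotomic m ℚ).coeff a, ?_⟩
  intro z hz
  have h0 : Polynomial.aeval z (Polynomial.cyclotomic m ℚ) = 0 := by
    have h1 := hz.isRoot_cyclotomic hpos
    rw [Polynomial.aeval_def, ← Polynomial.eval_map, Polynomial.map_cyclotomic]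
    exact h1
  have h2 : Polynomial.aeval z K = Polynomial.aeval z (K %ₘ Polynomial.cyclotomic m ℚ) := by
    conv_lhs => rw [← Polynomial.modByMonic_add_div K (Polynomial.cyclotomic m ℚ)]
    rw [map_add, map_mul, h0, zero_mul, add_zero]
  rw [h2, Polynomial.aeval_eq_sum_range' hlt, Finset.sum_range]
  refine Finset.sum_congr rfl fun a _ => ?_
  rw [Algebra.smul_def]
  congr 1

/-- **Cyc**. -/
theorem tCyc : S_Cyc := by
  intro m r b hm K
  obtain ⟨κ, hκ⟩ := Cyc_red m (by omega) K
  refine ⟨κ, fun v => ?_⟩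
  funext p
  have hp : IsPrimitiveRoot (ze m (ch p)) m := Cyc_prim m (ch p) (by omega) p.2.1
  rw [hκ _ hp, Finset.sum_mul, Finset.sum_apply]
  refine Finset.sum_congr rfl fun a _ => ?_
  show ((κ a : ℝ) : ℂ) * ze m (ch p) ^ (a : ℕ) * v p =
    ((κ a : ℝ) : ℂ) * (ze m (ch p) ^ (a : ℕ) * v p)
  rw [mul_assoc]

end TATE.FA
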