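import Pool.Agent.Lib.TATE.FA.Spec
import Pool.Agent.Lib.SE.CR.Al
import Pool.Agent.Lib.SE.CR.Crd

/-!
# PROJECT TATE, package FA, module Drv: the derivative of the integral in the end point
-/

set_option autoImplicit false

open Topology Metric MeasureTheory Filter

noncomputable section

namespace TATE.FA

open SEJ TATE
open HC (AV)
open HC.SE (New IsCov)

/-- A function with values in a lattice which is continuous at a point is constant near the point. -/
private theorem Drv_const (T : AV) (h : ℂ → T.V) (x₀ : ℂ) (hc : ContinuousAt h x₀)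
    (hL : ∀ᶠ x in 𝓝 x₀, h x ∈ T.L) : ∀ᶠ x in 𝓝 x₀, h x = h x₀ := by
  have h0 : h x₀ ∈ T.L := hL.self_of_nhds
  have hd : IsOpen ({0} : Set T.L) := isOpen_discrete _
  obtain ⟨U, hU, hU'⟩ := isOpen_induced_iff.1 hd
  have hmem : (0 : T.V) ∈ U := by
    have : (0 : T.L) ∈ (Subtype.val ⁻¹' U : Set T.L) := by
      rw [hU']
      rfl
    exact this
  have hc' : Tendsto (fun x => h x - h x₀) (𝓝 x₀) (𝓝 0) := by
    have := hc.tendsto.sub_const (h x₀)
    rwa [sub_self] at this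
  filter_upwards [hc' (hU.mem_nhds hmem), hL] with x hx hxL
  have h1 : (⟨h x - h x₀, T.L.sub_mem hxL h0⟩ : T.L) ∈ (Subtype.val ⁻¹' U : Set T.L) := hx
  rw [hU'] at h1
  have h2 := congrArg Subtype.val (Set.mem_singleton_iff.1 h1)
  exact sub_eq_zero.1 h2

theorem tDrv : S_Alg → S_Lft → S_Drv := by
  intro _ hLft m r b hb t ht P hP x₀ η v ε hε hη hv hI
  have hc : IsCov m t b := ⟨hb.1, ht, hb.2.1, hb.2.2.1, hb.2.2.2⟩
  have hm : 3 ≤ m := hb.1
  obtain ⟨T, N, _, _⟩ := tNewEx t b hc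
  obtain ⟨c⟩ := SECR.tCrd hc N
  have hom : ∀ x ∉ N.γ.S, ∀ y, N.γ.P (x, y) = 0 → c.e (N.γ.ω x y) = om m b t (x, y) := by
    intro x hx y hy
    funext p
    exact c.om x hx y hy p
  have hx₀ : x₀ ∈ ball x₀ ε := mem_ball_self hε
  have hb0 : ball x₀ ε ∈ 𝓝 x₀ := ball_mem_nhds x₀ hε
  have hS : ∀ x ∈ ball x₀ ε, x ∉ N.γ.S := by
    intro x hx
    rw [N.S]
    exact (hI x hx).1.1
  have hP0 : ∀ x ∈ ball x₀ ε, N.γ.P (x, η x) = 0 := by
    intro x hx
    rw [N.P, (hI x hx).1.2, sub_self]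
  obtain ⟨η', g, hη1, hη2, hev⟩ := N.γ.map x₀ (hS x₀ hx₀) (η x₀) (hP0 x₀ hx₀)
  have hne : η x₀ ≠ 0 := by
    intro h0
    have h4 := (hI x₀ hx₀).1.2
    change η x₀ ^ m = _ at h4
    rw [h0, zero_pow (by omega)] at h4
    refine Finset.prod_ne_zero_iff.2 (fun j _ => ?_) h4.symm
    exact pow_ne_zero _ (sub_ne_zero.2 fun h5 => (hI x₀ hx₀).1.1 ⟨j, h5.symm⟩)
  have heq : ∀ᶠ x in 𝓝 x₀, η' x = η x := by
    refine SECR.Al.roots (m := m) (by omega) hη2 (hη.continuousAt hb0) hη1 hne ?_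
    filter_upwards [hev, hb0] with x hx hxb
    have h := hx.1
    rw [N.P, sub_eq_zero] at h
    rw [h]
    exact (hI x hxb).1.2.symm
  -- the difference is in the lattice
  set h : ℂ → T.V := fun x => g x - c.e.symm (v x) - N.γ.α P.1 P.2 with hh
  have hg : HasDerivAt g (N.γ.ω x₀ (η x₀)) x₀ := by
    have h1 := hev.self_of_nhds.2.2
    rwa [hη1] at h1
  have hec : Continuous c.e.symm :=
    LinearMap.continuous_of_finiteDimensional (c.e.symm : (Ix m b → ℂ) →ₗ[ℂ] T.V)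
  have hcon : ContinuousAt h x₀ := by
    refine (hg.continuousAt.sub ?_).sub continuousAt_const
    exact ContinuousAt.comp (g := c.e.symm) hec.continuousAt (hv.continuousAt hb0)
  have hL : ∀ᶠ x in 𝓝 x₀, h x ∈ T.L := by
    filter_upwards [hev, heq, hb0] with x hx hxη hxb
    have h1 := hx.2.1
    rw [hxη] at h1
    obtain ⟨l, hl, h2⟩ := hLft T m r t b N c.e (by omega) hom P (x, η x) (v x) (hI x hxb).2
    have h3 : v x = c.e (N.γ.α x (η x) - N.γ.α P.1 P.2 - l) := by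
      rw [map_sub c.e (N.γ.α x (η x) - N.γ.α P.1 P.2) l, ← h2]
      abel
    have h4 : h x = l - (N.γ.α x (η x) - g x) := by
      simp only [hh]
      rw [h3, LinearEquiv.symm_apply_apply]
      abel
    rw [h4]
    exact T.L.sub_mem hl h1
  have hcst := Drv_const T h x₀ hcon hL
  have hve : v =ᶠ[𝓝 x₀] fun x => c.e (g x) - c.e (N.γ.α P.1 P.2 + h x₀) := by
    filter_upwards [hcst] with x hx
    rw [← map_sub c.e, ← hx]
    have h5 : g x - (N.γ.α P.1 P.2 + h x) = c.e.symm (v x) := by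
      simp only [hh]
      abel
    rw [h5, LinearEquiv.apply_symm_apply]
  have hd : HasDerivAt (fun x => c.e (g x) - c.e (N.γ.α P.1 P.2 + h x₀))
      (c.e (N.γ.ω x₀ (η x₀))) x₀ := by
    have h6 := (LinearMap.toContinuousLinearMap
      (c.e : T.V →ₗ[ℂ] (Ix m b → ℂ))).hasFDerivAt.comp_hasDerivAt x₀ hg
    exact h6.sub_const _
  rw [← hom x₀ (hS x₀ hx₀) (η x₀) (hP0 x₀ hx₀)]
  exact hd.congr_of_eventuallyEq hve

end TATE.FA
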