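import Pool.Agent.Lib.TATE.Iface
import Pool.Agent.Lib.SE.J.Main

/-!
# PROJECT TATE, package FA, statement FA4: the new part exists for all branch points
-/

set_option autoImplicit false

open Topology Metric

noncomputable section

namespace TATE

open HC HC.SE HC.CC SEJ

theorem isCy_of_new {T : AV} {m r : ℕ} {s : Fin (r + 1) → ℂ} {b : Fin (r + 1) → ℕ}
    (N : New T m s b) : IsCy T m (fun v => N.Z v) := by
  refine ⟨⟨N.Z.map_add, N.Z.map_smul⟩, N.lat, fun v => ?_⟩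
  have h := N.cyc
  rw [Polynomial.aeval_eq_sum_range' (n := m + 1)] at h
  · have h2 := congrArg (fun f : Module.End ℂ T.V => f v) h
    simp only [LinearMap.coe_sum, Finset.sum_apply, LinearMap.zero_apply] at h2
    refine Eq.trans (Finset.sum_congr rfl fun k _ => ?_) h2
    change ((((Polynomial.cyclotomic m ℤ).coeff k : ℤ)) : ℂ) • (fun v => N.Z v)^[k] v =
      (((Polynomial.cyclotomic m ℤ).coeff k) • N.Z ^ k) v
    rw [LinearMap.smul_apply, Int.cast_smul_eq_zsmul]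
    congr 1
    rw [Module.End.pow_apply]
  · rw [Polynomial.natDegree_cyclotomic]
    exact Nat.lt_succ_of_le (Nat.totient_le m)

/-- **FA4**. -/
theorem tFA4 : StmtFA4 := by
  intro m r b t hb hr ht
  obtain ⟨T, N, E, hE⟩ := SEJ.tNewEx t b ⟨hb.1, ht, hb.2.1, hb.2.2.1, hb.2.2.2⟩
  refine ⟨T, fun v => N.Z v, isCy_of_new N, N.dim, ⟨N.γ.P, N.γ.S, N.γ.α, N.γ.ω, N.γ.poly,
    N.γ.fin, N.γ.et, N.γ.map, N.γ.area⟩, N.P, N.S, N.equ, fun u hu hum i hi => ?_⟩
  obtain ⟨B, hB⟩ := N.dif u hu hum i hi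
  exact ⟨fun v => B v, ⟨B.map_add, B.map_smul⟩, hB⟩

end TATE
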