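import Pool.Agent.Lib.TATE.FA.Spec2

/-!
# PROJECT TATE, package FA: the local system of the new parts
-/

set_option autoImplicit false

open Topology Metric

noncomputable section

namespace TATE.FA

open SEJ TATE
open HC.SE (IsCov)

theorem Fa1_cov {m r : ℕ} {b : Fin (r + 1) → ℕ} {t : Fin (r + 1) → ℂ} (h : Cvb m b)
    (ht : Function.Injective t) : IsCov m t b := ⟨h.1, ht, h.2.1, h.2.2.1, h.2.2.2⟩

theorem Fa1_cvb {m r : ℕ} {b : Fin (r + 1) → ℕ} (π : Equiv.Perm (Fin (r + 1))) (h : Cvb m b) :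
    Cvb m (b ∘ π) := by
  obtain ⟨h1, h2, h3, h4⟩ := h
  refine ⟨h1, fun j => h2 (π j), ?_, fun d hd hj => h4 d hd fun j => ?_⟩
  · have e : ∑ j, (b ∘ π) j = ∑ j, b j := Equiv.sum_comp π b
    rw [e]
    exact h3
  · have := hj (π.symm j)
    rw [Function.comp_apply, Equiv.apply_symm_apply] at this
    exact this

/-- A real basis with given vectors. -/
theorem Fa1_bas {m r : ℕ} {b : Fin (r + 1) → ℕ} {t : Fin (r + 1) → ℂ} (h : Cvb m b)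
    (ht : Function.Injective t) (W : Fin m.totient × Fin r → (Ix m b → ℂ))
    (hW : LinearIndependent ℝ W) :
    ∃ B : Module.Basis (Fin m.totient × Fin r) ℝ (Ix m b → ℂ), ∀ q, B q = W q := by
  have hc : 2 * Fintype.card (Ix m b) = r * m.totient := tN1b tN1 t b (Fa1_cov h ht)
  refine ⟨Module.Basis.mk hW (hW.span_eq_top_of_card_eq_finrank' (N14_fr hc)).ge, fun q => ?_⟩
  rw [Module.Basis.coe_mk]

/-- The transport in a chart. -/
def Fa1_T (m : ℕ) {r : ℕ} (b : Fin (r + 1) → ℕ) (π : Equiv.Perm (Fin (r + 1))) (ρ c : ℂ)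
    (t t' : Fin (r + 1) → ℂ) : (Ix m b → ℂ) ≃ₗ[ℝ] (Ix m b → ℂ) := by
  classical
  exact if h : ∃ φ : (Ix m b → ℂ) ≃ₗ[ℝ] (Ix m b → ℂ),
    ∀ q, φ (frc m b π ρ c t q) = frc m b π ρ c t' q then h.choose
    else LinearEquiv.refl ℝ (Ix m b → ℂ)

theorem Fa1_T_sp (hChf : S_Chf) {m r : ℕ} {b : Fin (r + 1) → ℕ} {π : Equiv.Perm (Fin (r + 1))}
    {ρ c : ℂ} (hb : Cvb m b) (hρ : ‖ρ‖ = 1) (hc : c ^ m = ρ ^ (∑ j, b j))
    {t t' : Fin (r + 1) → ℂ} (h : Up (rt π ρ t)) (h' : Up (rt π ρ t')) (q) :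
    Fa1_T m b π ρ c t t' (frc m b π ρ c t q) = frc m b π ρ c t' q := by
  have hex : ∃ φ : (Ix m b → ℂ) ≃ₗ[ℝ] (Ix m b → ℂ),
      ∀ q, φ (frc m b π ρ c t q) = frc m b π ρ c t' q := by
    obtain ⟨hF, -⟩ := hChf m r b π ρ c hb hρ hc
    obtain ⟨i1, l1, -⟩ := hF t h
    obtain ⟨i2, l2, -⟩ := hF t' h'
    obtain ⟨B, hB⟩ := Fa1_bas hb i1 _ l1
    obtain ⟨B', hB'⟩ := Fa1_bas hb i2 _ l2
    refine ⟨B.equiv B' (Equiv.refl _), fun q => ?_⟩
    rw [← hB q, ← hB' q, Module.Basis.equiv_apply, Equiv.refl_apply]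
  rw [Fa1_T, dif_pos hex]
  exact hex.choose_spec q

/-- The Gram matrix in a chart is constant and rational. -/
theorem Fa1_gram (hGcs : S_Gcs) (hGrt : S_Grt) (hRot : S_Rot) {m r : ℕ} {b : Fin (r + 1) → ℕ}
    {π : Equiv.Perm (Fin (r + 1))} {ρ c : ℂ} (hb : Cvb m b) (hρ : ‖ρ‖ = 1)
    (hc : c ^ m = ρ ^ (∑ j, b j)) :
    ∃ x : Fin m.totient × Fin r → Fin m.totient × Fin r → ℚ, ∀ t, Up (rt π ρ t) → ∀ q q',
      Ef m b t (frc m b π ρ c t q) (frc m b π ρ c t q') = x q q' := by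
  have hm : 1 ≤ m := le_trans (by norm_num) hb.1
  obtain ⟨x, hx⟩ := hGcs m r (b ∘ π) (Fa1_cvb π hb)
  refine ⟨x, fun t ht q q' => ?_⟩
  obtain ⟨-, h2, -⟩ := hRot m r b t π ρ c hm hρ hc
  rw [← hGrt m r b t π ρ c hm hρ hc]
  show Ef m (b ∘ π) (rt π ρ t) (Dr m b π ρ c (Ds m b π ρ c _)) (Dr m b π ρ c (Ds m b π ρ c _)) = _
  rw [h2, h2]
  exact hx _ ht q q'

/-- **Fa1**: THE LOCAL SYSTEM of the new parts. -/
theorem tFa1 : S_Lq → S_Con → S_Cht → S_Chf → S_Gpr → S_Gcs → S_Grt → S_Rot → S_Chz → S_Fa1 := by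
  intro hLq hCon hCht hChf hGpr hGcs hGrt hRot hChz m r b hb
  classical
  have hm : 1 ≤ m := le_trans (by norm_num) hb.1
  choose π ρ c ε hρ hc hε hup using
    fun t : {t : Fin (r + 1) → ℂ // Function.Injective t} => hCht m r b t.1 hm t.2
  choose E0 hE1 hE2 hE3 hE4 hE5 using
    fun t : {t : Fin (r + 1) → ℂ // Function.Injective t} => hGpr m r b t.1 hb t.2
  have hus : ∀ t, Up (rt (π t) (ρ t) t.1) := fun t => hup t t.1 (mem_ball_self (hε t))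
  have hfr := fun t => (hChf m r b (π t) (ρ t) (c t) hb (hρ t) (hc t)).1
  have hqs : ∀ t : {t : Fin (r + 1) → ℂ // Function.Injective t},
      LQ m b t.1 = Qsp m b (frc m b (π t) (ρ t) (c t) t.1) := fun t => (hfr t t.1 (hus t)).2.2
  have hbs : ∀ t : {t : Fin (r + 1) → ℂ // Function.Injective t},
      ∃ B : Module.Basis (Fin m.totient × Fin r) ℝ (Ix m b → ℂ),
        ∀ q, B q = frc m b (π t) (ρ t) (c t) t.1 q := fun t =>
    Fa1_bas hb t.2 _ (hfr t t.1 (hus t)).2.1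
  have hT : ∀ (t : {t : Fin (r + 1) → ℂ // Function.Injective t}), ∀ t' ∈ ball t.1 (ε t), ∀ q,
      Fa1_T m b (π t) (ρ t) (c t) t.1 t' (frc m b (π t) (ρ t) (c t) t.1 q) =
        frc m b (π t) (ρ t) (c t) t' q := fun t t' ht' q =>
    Fa1_T_sp hChf hb (hρ t) (hc t) (hus t) (hup t t' ht') q
  have hinj : ∀ (t : {t : Fin (r + 1) → ℂ // Function.Injective t}), ∀ t' ∈ ball t.1 (ε t),
      Function.Injective t' := fun t t' ht' => (hfr t t' (hup t t' ht')).1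
  refine ⟨{
    ρ := fun t => if h : Function.Injective t then ε ⟨t, h⟩ else 1
    τ := fun t t' => if h : Function.Injective t then
      Fa1_T m b (π ⟨t, h⟩) (ρ ⟨t, h⟩) (c ⟨t, h⟩) t t' else LinearEquiv.refl ℝ (Ix m b → ℂ)
    E := fun t => if h : Function.Injective t then E0 ⟨t, h⟩ else 0
    cnt := ?_
    spn := ?_
    add := ?_
    rat := ?_
    alt := ?_
    cpx := ?_
    pos := ?_
    inv := ?_
    rpos := ?_
    dom := ?_
    one := ?_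
    latZ := ?_
    iso := ?_
    com := ?_
    hol := ?_ }⟩
  · intro t ht
    rw [hqs ⟨t, ht⟩]
    have e : Qsp m b (frc m b (π ⟨t, ht⟩) (ρ ⟨t, ht⟩) (c ⟨t, ht⟩) t) =
        Set.range fun x : Fin m.totient × Fin r → ℚ =>
          ∑ q, ((x q : ℝ) : ℂ) • frc m b (π ⟨t, ht⟩) (ρ ⟨t, ht⟩) (c ⟨t, ht⟩) t q := by
      ext v
      constructor
      · rintro ⟨x, hx⟩
        exact ⟨x, hx.symm⟩
      · rintro ⟨x, hx⟩
        exact ⟨x, hx.symm⟩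
    rw [e]
    exact Set.countable_range _
  · intro t ht
    obtain ⟨B, hB⟩ := hbs ⟨t, ht⟩
    rw [eq_top_iff, ← B.span_eq]
    apply Submodule.span_mono
    rintro _ ⟨q, rfl⟩
    rw [hqs ⟨t, ht⟩, hB q]
    refine ⟨Pi.single q 1, ?_⟩
    rw [Finset.sum_eq_single q]
    · simp
    · intro q' _ hq'
      simp [Pi.single_eq_of_ne hq']
    · intro h
      exact absurd (Finset.mem_univ q) h
  · intro t ht
    exact (hLq m r b t hm (hCon m r b t hb ht)).2.1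
  · intro t ht u hu v hv
    rw [dif_pos ht]
    obtain ⟨g, hg⟩ := Fa1_gram hGcs hGrt hRot (π := π ⟨t, ht⟩) (ρ := ρ ⟨t, ht⟩) (c := c ⟨t, ht⟩)
      hb (hρ _) (hc _)
    rw [hqs ⟨t, ht⟩] at hu hv
    obtain ⟨x, hx⟩ := hu
    obtain ⟨y, hy⟩ := hv
    have hco : ∀ (a : ℚ) (w : Ix m b → ℂ), ((a : ℝ) : ℂ) • w = (a : ℝ) • w := fun a w => by
      funext p
      simp [Complex.real_smul]
    refine ⟨∑ q, ∑ q', x q * y q' * g q q', ?_⟩
    simp only [hco] at hx hy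
    rw [hx, map_sum, LinearMap.sum_apply]
    push_cast
    refine Finset.sum_congr rfl fun q _ => ?_
    rw [hy, map_sum]
    refine Finset.sum_congr rfl fun q' _ => ?_
    rw [map_smul, map_smul, LinearMap.smul_apply, hE1]
    have h1 := hg t (hus ⟨t, ht⟩) q q'
    rw [h1, smul_eq_mul, smul_eq_mul]
    ring
  · intro t ht
    rw [dif_pos ht]
    exact hE2 _
  · intro t ht
    rw [dif_pos ht]
    exact hE3 _
  · intro t ht
    rw [dif_pos ht]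
    exact hE4 _
  · intro t ht
    rw [dif_pos ht]
    exact hE5 _
  · intro t ht
    rw [dif_pos ht]
    exact hε _
  · intro t ht t' ht'
    rw [dif_pos ht] at ht'
    exact hinj ⟨t, ht⟩ t' ht'
  · intro t ht v
    rw [dif_pos ht]
    obtain ⟨B, hB⟩ := hbs ⟨t, ht⟩
    have h1 : (Fa1_T m b (π ⟨t, ht⟩) (ρ ⟨t, ht⟩) (c ⟨t, ht⟩) t t : (Ix m b → ℂ) →ₗ[ℝ] _) =
        LinearMap.id := by
      refine B.ext fun q => ?_
      rw [hB q]
      exact hT ⟨t, ht⟩ t (mem_ball_self (hε _)) q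
    exact LinearMap.congr_fun h1 v
  · intro t ht t' ht'
    rw [dif_pos ht] at ht' ⊢
    exact (hChz m r b (π ⟨t, ht⟩) (ρ ⟨t, ht⟩) (c ⟨t, ht⟩) hb (hρ _) (hc _) t t' (hus ⟨t, ht⟩)
      (hup ⟨t, ht⟩ t' ht') _ (hT ⟨t, ht⟩ t' ht')).1
  · intro t ht t' ht' u v
    rw [dif_pos ht] at ht' ⊢
    have ht2 : Function.Injective t' := hinj ⟨t, ht⟩ t' ht'
    rw [dif_pos ht2, dif_pos ht]
    obtain ⟨B, hB⟩ := hbs ⟨t, ht⟩
    obtain ⟨g, hg⟩ := Fa1_gram hGcs hGrt hRot (π := π ⟨t, ht⟩) (ρ := ρ ⟨t, ht⟩) (c := c ⟨t, ht⟩)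
      hb (hρ _) (hc _)
    have h1 : (E0 ⟨t', ht2⟩).compl₁₂
        (Fa1_T m b (π ⟨t, ht⟩) (ρ ⟨t, ht⟩) (c ⟨t, ht⟩) t t' : (Ix m b → ℂ) →ₗ[ℝ] (Ix m b → ℂ))
        (Fa1_T m b (π ⟨t, ht⟩) (ρ ⟨t, ht⟩) (c ⟨t, ht⟩) t t' : (Ix m b → ℂ) →ₗ[ℝ] (Ix m b → ℂ)) =
        E0 ⟨t, ht⟩ := by
      refine B.ext fun q => B.ext fun q' => ?_
      rw [LinearMap.compl₁₂_apply, hB q, hB q', LinearEquiv.coe_coe]
      have e1 := hT ⟨t, ht⟩ t' ht' q
      have e2 := hT ⟨t, ht⟩ t' ht' q'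
      simp only at e1 e2
      rw [e1, e2, hE1, hE1]
      have e3 := hg t' (hup ⟨t, ht⟩ t' ht') q q'
      have e4 := hg t (hus ⟨t, ht⟩) q q'
      simp only at e3 e4 ⊢
      rw [e3, e4]
    exact LinearMap.congr_fun (LinearMap.congr_fun h1 u) v
  · intro t ht t' ht'
    rw [dif_pos ht] at ht' ⊢
    exact (hChz m r b (π ⟨t, ht⟩) (ρ ⟨t, ht⟩) (c ⟨t, ht⟩) hb (hρ _) (hc _) t t' (hus ⟨t, ht⟩)
      (hup ⟨t, ht⟩ t' ht') _ (hT ⟨t, ht⟩ t' ht')).2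
  · intro t ht v
    rw [dif_pos ht]
    obtain ⟨B, hB⟩ := hbs ⟨t, ht⟩
    have h1 : DifferentiableOn ℂ (fun t' => ∑ q, (B.repr v q) •
        frc m b (π ⟨t, ht⟩) (ρ ⟨t, ht⟩) (c ⟨t, ht⟩) t' q) (ball t (ε ⟨t, ht⟩)) := by
      refine DifferentiableOn.fun_sum fun q _ => DifferentiableOn.fun_const_smul ?_ _
      exact ((hChf m r b (π ⟨t, ht⟩) (ρ ⟨t, ht⟩) (c ⟨t, ht⟩) hb (hρ _) (hc _)).2 q).mono
        fun t' ht' => hup ⟨t, ht⟩ t' ht'
    refine h1.congr fun t' ht' => ?_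
    simp only [dif_pos ht]
    conv_lhs => rw [← B.sum_repr v]
    rw [map_sum]
    refine Finset.sum_congr rfl fun q _ => ?_
    rw [map_smul, hB q]
    exact congrArg _ (hT ⟨t, ht⟩ t' ht' q)

end TATE.FA
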