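import Pool.Agent.Lib.TATE.FA.Spec

/-!
# PROJECT TATE, package FA, statement Fa2

The interface statement `StmtFA2` from `S_Alg`, `S_Lq`, `S_Con`, `S_Pri`, `S_Drv`.
-/

set_option autoImplicit false

open Topology Metric MeasureTheory

noncomputable section

namespace TATE.FA

/-- **Fa2**. -/
theorem tFa2 : S_Alg → S_Lq → S_Con → S_Pri → S_Drv → S_Fa2 := by
  intro hA _ hC hP hD m r b hb
  have hm : 1 ≤ m := le_trans (by norm_num) hb.1
  refine ⟨fun t ht => hC m r b t hb ht, fun t _ => (hA m r b t hm).2.2.1,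
    fun t _ => (hA m r b t hm).2.1, ?_, ?_, fun t ht => hD m r b hb t ht⟩
  · intro t _ P Q v h w h'
    refine ⟨P, ?_⟩
    rw [sub_eq_add_neg]
    exact (hA m r b t hm).2.2.1 P Q P v (-w) h ((hA m r b t hm).2.1 P Q w h').2.2
  · intro e U ξ₀ t P Q v₀ hU hξ ht hP' hQ' hPQ h
    exact hP m r b hm e U ξ₀ t P Q v₀ hU hξ ht hP' hQ' (fun ξ hξ' => (hPQ ξ hξ').2) h

end TATE.FA
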