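import Pool.Agent.Lib.TATE.FA.Spec
import Pool.Agent.Lib.SE.CC.Cy
import Pool.Agent.Lib.SE.CR.Crd

/-!
# PROJECT TATE, package FA: the link with `IsNew`
-/

set_option autoImplicit false

open Topology Metric MeasureTheory

noncomputable section

namespace TATE.FA

open SEJ TATE
open HC (AV)
open HC.SE (New IsCov Crv)

/-- The bundled data. -/
theorem Fa3_new (T : AV) (m r : ℕ) (Z : T.V → T.V) (t : Fin (r + 1) → ℂ) (b : Fin (r + 1) → ℕ)
    (γ : HC.CC.Cur T) (hcy : HC.CC.IsCy T m Z) (hdim : 2 * Module.finrank ℂ T.V = r * m.totient)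
    (hmp : IsMp T m Z t b γ) :
    ∃ N : New T m t b, (∀ v, N.Z v = Z v) ∧ N.γ.P = γ.P ∧ N.γ.S = γ.S ∧ N.γ.α = γ.α ∧
      N.γ.ω = γ.ω := by
  obtain ⟨Z', hZ, hlat, haev⟩ := HC.CC.tCy T m Z hcy
  refine ⟨⟨Z', ⟨γ.P, γ.S, γ.α, γ.ω, γ.poly, γ.fin, γ.et, γ.map, γ.area⟩, hlat, haev, hdim,
    hmp.P, hmp.S, ?_, ?_⟩, hZ, rfl, rfl, rfl, rfl⟩
  · intro x hx y hxy
    rw [hZ]
    exact hmp.equ x hx y hxy
  · intro u hu hum i hi
    obtain ⟨B, hB, hB'⟩ := hmp.dif u hu hum i hi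
    exact ⟨hB.mk' B, fun x hx y hxy => hB' x hx y hxy⟩

/-- Every vector of the frame is a rational combination. -/
theorem Fa3_mem (m : ℕ) {r : ℕ} (b : Fin (r + 1) → ℕ) (W : Fin m.totient × Fin r → (Ix m b → ℂ))
    (q : Fin m.totient × Fin r) : W q ∈ Qsp m b W := by
  refine ⟨fun q' => if q' = q then 1 else 0, ?_⟩
  rw [Finset.sum_eq_single q]
  · simp
  · intro q' _ hq'
    simp [hq']
  · intro hq
    exact absurd (Finset.mem_univ q) hq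

/-- **Fa3**. -/
theorem tFa3 : S_Alg → S_Lq → S_Con → S_Lft → S_Rnk → S_Cht → S_Chf → S_Fa3 := by
  intro _ _ _ hLft hRnk hCht hChf T m r Z t b γ hb ht hcy hdim hmp
  have hm : 1 ≤ m := le_trans (by norm_num) hb.1
  have hcov : IsCov m t b := ⟨hb.1, ht, hb.2.1, hb.2.2.1, hb.2.2.2⟩
  obtain ⟨N, hNZ, hNP, hNS, hNα, hNω⟩ := Fa3_new T m r Z t b γ hcy hdim hmp
  obtain ⟨c⟩ := SECR.tCrd hcov N
  have hom : ∀ x ∉ N.γ.S, ∀ y, N.γ.P (x, y) = 0 → c.e (N.γ.ω x y) = om m b t (x, y) := by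
    intro x hx y hxy
    funext p
    exact c.om x hx y hxy p
  obtain ⟨π, ρ, c', ε, hρ, hc', hε, hUp⟩ := hCht m r b t hm ht
  obtain ⟨h1, -⟩ := hChf m r b π ρ c' hb hρ hc'
  obtain ⟨-, hli, hLQ⟩ := h1 t (hUp t (Metric.mem_ball_self hε))
  have hR := hRnk T m r t b N c.e hb ht hom (frc m b π ρ c' t) hli
    (fun q => by rw [hLQ]; exact Fa3_mem m b _ q)
  refine ⟨c.e, ?_, ?_, hR.2, ?_⟩
  · intro v
    funext p
    rw [← hNZ]
    exact c.Z v p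
  · intro x hx y hxy
    rw [← hNS] at hx
    rw [← hNP] at hxy
    rw [← hNω]
    exact hom x hx y hxy
  · intro P Q v hI
    obtain ⟨l, hl, hl'⟩ := hLft T m r t b N c.e hm hom P Q v hI
    refine ⟨l, hl, ?_⟩
    rw [← hNα]
    exact hl'

end TATE.FA
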