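import Pool.Agent.Lib.TATE.FA.Spec

/-! # TATE/FA/Gch: the Gram matrix in a chart -/

set_option autoImplicit false

open Topology Metric MeasureTheory Filter
open scoped Matrix

noncomputable section

namespace TATE.FA

open SEJ TATE
open HC.SE (IsCov)

private theorem Gch_ae {k : ℕ} (s : Fin k → ℂ) : ∀ᵐ a : ℝ, ∀ j, a ≠ (s j).re := by
  rw [ae_all_iff]
  intro j
  have : ({(s j).re} : Set ℝ)ᶜ ∈ ae (volume : Measure ℝ) :=
    compl_mem_ae_iff.2 (measure_singleton _)
  filter_upwards [this] with a ha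
  exact ha

private theorem Gch_line {k : ℕ} (s : Fin k → ℂ) (μ : Fin k → ℝ) (P : Polynomial ℂ)
    (hP : Good s μ P) (b : ℝ) : Integrable (fun a : ℝ => frm s μ P (pt a b)) := by
  by_cases h0 : P = 0
  · have : (fun a : ℝ => frm s μ P (pt a b)) = fun _ => 0 := by
      funext a
      simp [frm, h0]
    rw [this]
    exact integrable_zero _ _ _
  · obtain ⟨C, d, hd0, hd1, hC, hb, -⟩ := tC2 s μ P hP h0
    obtain ⟨F, hF, hF2⟩ := tA2 s μ d hP.im hd0 (fun j => (hP.pos j).le) hP.lt hd1
    refine (hF.const_mul C).mono' ?_ ?_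
    · exact ((N4_meas s μ P).comp (by unfold pt; fun_prop)).aestronglyMeasurable
    · filter_upwards [Gch_ae s] with a ha
      exact (hb _).trans (mul_le_mul_of_nonneg_left (hF2 a b ha) hC)

private theorem Gch_xi {k : ℕ} (s : Fin k → ℂ) (μ : Fin k → ℝ) (x : ℂ) :
    xi s μ x * (starRingEnd ℂ) (xi s μ x) = ((∏ j, ‖x - s j‖ ^ (-(2 * μ j)) : ℝ) : ℂ) := by
  rw [Complex.mul_conj, Complex.normSq_eq_norm_sq]
  congr 1
  unfold xi
  rw [norm_prod, ← Finset.prod_pow]
  refine Finset.prod_congr rfl fun j _ => ?_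
  have h1 : ‖(x - s j) ^ (-(μ j : ℂ))‖ = ‖x - s j‖ ^ (-(μ j)) := by
    have h2 := Complex.norm_cpow_real (x - s j) (-(μ j))
    rw [Complex.ofReal_neg] at h2
    exact h2
  rw [h1, ← Real.rpow_natCast, ← Real.rpow_mul (norm_nonneg _)]
  congr 1
  push_cast
  ring

private theorem Gch_frm {k : ℕ} (s : Fin k → ℂ) (μ : Fin k → ℝ) {ι : Type} [Fintype ι]
    (a : ι → ℂ) (Q : ι → Polynomial ℂ) (x : ℂ) :
    frm s μ (∑ i, Polynomial.C (a i) * Q i) x = ∑ i, a i * frm s μ (Q i) x := by
  unfold frm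
  rw [Polynomial.eval_finsetSum, Finset.sum_mul]
  refine Finset.sum_congr rfl fun i _ => ?_
  rw [Polynomial.eval_mul, Polynomial.eval_C]
  ring

private theorem Gch_ext {m r : ℕ} {b : Fin (r + 1) → ℕ} {p q : Ix m b} (h1 : ch p = ch q)
    (h2 : ex p = ex q) : p = q :=
  Subtype.ext (Prod.ext (Fin.ext h1) (Fin.ext h2))

/-- the integrals of the products -/
private theorem Gch_gram {m r : ℕ} {b : Fin (r + 1) → ℕ} {s : Fin (r + 1) → ℂ} (o : ONB m s b)
    (c : Ix m b → Ix m b → ℂ) (hc0 : ∀ p q, ch q ≠ ch p → c p q = 0)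
    (hc1 : ∀ p, Polynomial.X ^ ex p = ∑ q : Ix m b, Polynomial.C (c p q) * o.Q q)
    (p q : Ix m b) (h : ch p = ch q) :
    ∫ x : ℂ, x ^ ex p * (starRingEnd ℂ) (x ^ ex q) *
      ((∏ j, ‖x - s j‖ ^ (-(2 * SEJ.mu m b (ch p) j)) : ℝ) : ℂ) =
    ∑ k, c p k * (starRingEnd ℂ) (c q k) := by
  obtain ⟨μ, hμ⟩ : ∃ μ : Fin (r + 1) → ℝ, μ = SEJ.mu m b (ch p) := ⟨_, rfl⟩
  rw [← hμ]
  have hgood : ∀ k : Ix m b, ch k = ch p → Good s μ (o.Q k) := by
    intro k hk
    have := o.good k
    rw [hk, ← hμ] at this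
    exact this
  have horth : ∀ k l : Ix m b, ch k = ch p → ch l = ch p → ∫ x : ℂ, frm s μ (o.Q k) x *
      (starRingEnd ℂ) (frm s μ (o.Q l) x) = if k = l then 1 else 0 := by
    intro k l hk hl
    have := o.orth k l (hk.trans hl.symm)
    rw [hk, ← hμ] at this
    exact this
  have h1 : ∀ x : ℂ, x ^ ex p * (starRingEnd ℂ) (x ^ ex q) *
      ((∏ j, ‖x - s j‖ ^ (-(2 * μ j)) : ℝ) : ℂ) = ∑ k, ∑ l, c p k * (starRingEnd ℂ) (c q l) *
        (frm s μ (o.Q k) x * (starRingEnd ℂ) (frm s μ (o.Q l) x)) := by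
    intro x
    have h2 : frm s μ (Polynomial.X ^ ex p) x = x ^ ex p * xi s μ x := by
      unfold frm
      rw [Polynomial.eval_pow, Polynomial.eval_X]
    have h3 : frm s μ (Polynomial.X ^ ex q) x = x ^ ex q * xi s μ x := by
      unfold frm
      rw [Polynomial.eval_pow, Polynomial.eval_X]
    rw [← Gch_xi]
    calc x ^ ex p * (starRingEnd ℂ) (x ^ ex q) * (xi s μ x * (starRingEnd ℂ) (xi s μ x))
        = frm s μ (Polynomial.X ^ ex p) x * (starRingEnd ℂ) (frm s μ (Polynomial.X ^ ex q) x) := by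
          rw [h2, h3, map_mul]
          ring
      _ = _ := by
          rw [hc1 p, hc1 q, Gch_frm, Gch_frm, map_sum, Finset.sum_mul_sum]
          refine Finset.sum_congr rfl fun k _ => Finset.sum_congr rfl fun l _ => ?_
          rw [map_mul]
          ring
  have hI : ∀ k l : Ix m b, Integrable (fun x : ℂ => c p k * (starRingEnd ℂ) (c q l) *
      (frm s μ (o.Q k) x * (starRingEnd ℂ) (frm s μ (o.Q l) x))) ∧
      ∫ x : ℂ, c p k * (starRingEnd ℂ) (c q l) *
        (frm s μ (o.Q k) x * (starRingEnd ℂ) (frm s μ (o.Q l) x)) =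
        c p k * (starRingEnd ℂ) (c q l) * if k = l then 1 else 0 := by
    intro k l
    by_cases hk : ch k = ch p
    · by_cases hl : ch l = ch p
      · refine ⟨(N4_int s μ _ _ (xE5 s μ _ (hgood k hk)).1 (xE5 s μ _ (hgood l hl)).1).const_mul _,
          ?_⟩
        rw [integral_const_mul, horth k l hk hl]
      · have : c q l = 0 := hc0 q l fun hh => hl (hh.trans h.symm)
        simp only [this, map_zero, mul_zero, zero_mul, integral_zero, and_true]
        exact integrable_zero _ _ _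
    · have : c p k = 0 := hc0 p k hk
      simp only [this, zero_mul, integral_zero, and_true]
      exact integrable_zero _ _ _
  simp_rw [h1]
  rw [integral_finsetSum _ fun k _ => integrable_finsetSum _ fun l _ => (hI k l).1]
  refine Finset.sum_congr rfl fun k _ => ?_
  rw [integral_finsetSum _ fun l _ => (hI k l).1]
  simp_rw [(hI k _).2]
  rw [Finset.sum_eq_single k]
  · rw [if_pos rfl, mul_one]
  · intro l _ hl
    rw [if_neg (Ne.symm hl), mul_zero]
  · intro hh
    exact absurd (Finset.mem_univ k) hh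

/-- the periods -/
private theorem Gch_A {m r : ℕ} {b : Fin (r + 1) → ℕ} {s : Fin (r + 1) → ℂ} (o : ONB m s b)
    (c : Ix m b → Ix m b → ℂ) (hc0 : ∀ p q, ch q ≠ ch p → c p q = 0)
    (hc1 : ∀ p, Polynomial.X ^ ex p = ∑ q : Ix m b, Polynomial.C (c p q) * o.Q q)
    (k : Fin (r + 1)) (p : Ix m b) : Am m b s k p = ∑ q, c p q * o.A k q := by
  have hI : ∀ q : Ix m b, Integrable (fun a : ℝ => c p q *
      frm s (SEJ.mu m b (ch p)) (o.Q q) (pt a (s k).im)) (volume.restrict (Set.Iic (s k).re)) ∧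
      ∫ a in Set.Iic (s k).re, c p q * frm s (SEJ.mu m b (ch p)) (o.Q q) (pt a (s k).im) =
        c p q * o.A k q := by
    intro q
    by_cases hq : ch q = ch p
    · have hg := o.good q
      rw [hq] at hg
      refine ⟨((Gch_line s _ _ hg _).const_mul _).integrableOn, ?_⟩
      rw [integral_const_mul]
      unfold ONB.A Tp
      rw [hq]
    · simp only [hc0 p q hq, zero_mul, integral_zero, and_true]
      exact integrable_zero _ _ _
  unfold Am Tp
  rw [hc1 p]
  simp_rw [Gch_frm]
  rw [integral_finsetSum _ fun q _ => (hI q).1]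
  exact Finset.sum_congr rfl fun q _ => (hI q).2

/-- **Gch**: THE GRAM MATRIX IN A CHART. -/
theorem tGch : S_Gch := by
  intro m r b s hcov hs o
  choose c hc using o.span
  have hc0 : ∀ p q : Ix m b, ch q ≠ ch p → c p q = 0 := fun p q h => (hc p).1 q h
  have hc1 : ∀ p : Ix m b, Polynomial.X ^ ex p = ∑ q : Ix m b, Polynomial.C (c p q) * o.Q q :=
    fun p => (hc p).2
  obtain ⟨M, hM⟩ : ∃ M : Matrix (Ix m b) (Ix m b) ℂ, ∀ p q, M p q = c p q :=
    ⟨Matrix.of c, fun _ _ => rfl⟩
  obtain ⟨D, hD⟩ : ∃ D : Matrix (Ix m b) (Ix m b) ℂ, ∀ q p, D q p =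
      if ch q = ch p then (o.Q q).coeff (ex p) else 0 :=
    ⟨Matrix.of fun q p => if ch q = ch p then (o.Q q).coeff (ex p) else 0, fun _ _ => rfl⟩
  have hMD : M * D = 1 := by
    ext p p'
    rw [Matrix.mul_apply, Matrix.one_apply]
    by_cases h : ch p = ch p'
    · have h1 : ∀ q, M p q * D q p' = c p q * (o.Q q).coeff (ex p') := by
        intro q
        rw [hM, hD]
        by_cases hq : ch q = ch p
        · rw [if_pos (hq.trans h)]
        · rw [hc0 p q hq, zero_mul, zero_mul]
      have h2 := congrArg (fun P : Polynomial ℂ => P.coeff (ex p')) (hc1 p)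
      simp only [Polynomial.coeff_X_pow, Polynomial.finsetSum_coeff, Polynomial.coeff_C_mul] at h2
      simp_rw [h1]
      rw [← h2]
      by_cases he : ex p' = ex p
      · rw [if_pos he, if_pos (Gch_ext h he.symm)]
      · rw [if_neg he, if_neg]
        intro hh
        exact he (by rw [hh])
    · have h1 : ∀ q, M p q * D q p' = 0 := by
        intro q
        rw [hM, hD]
        by_cases hq : ch q = ch p
        · rw [if_neg (fun hh => h (hq.symm.trans hh)), mul_zero]
        · rw [hc0 p q hq, zero_mul]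
      simp_rw [h1]
      rw [Finset.sum_const_zero, if_neg]
      intro hh
      exact h (by rw [hh])
  have hDM : D * M = 1 := mul_eq_one_comm.1 hMD
  have hG : Gm m b s = M * Mᴴ := by
    ext p q
    rw [Matrix.mul_apply]
    simp_rw [Matrix.conjTranspose_apply, hM]
    unfold Gm
    by_cases h : ch p = ch q
    · rw [if_pos h]
      exact Gch_gram o c hc0 hc1 p q h
    · rw [if_neg h]
      symm
      refine Finset.sum_eq_zero fun k _ => ?_
      by_cases hk : ch k = ch p
      · rw [hc0 q k (fun hh => h (hk.symm.trans hh)), star_zero, mul_zero]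
      · rw [hc0 p k hk, zero_mul]
  refine ⟨{ toFun := fun v => M.mulVec v
            map_add' := fun v w => Matrix.mulVec_add M v w
            map_smul' := fun a v => Matrix.mulVec_smul M a v
            invFun := fun v => D.mulVec v
            left_inv := fun v => by
              show D.mulVec (M.mulVec v) = v
              rw [Matrix.mulVec_mulVec, hDM, Matrix.one_mulVec]
            right_inv := fun v => by
              show M.mulVec (D.mulVec v) = v
              rw [Matrix.mulVec_mulVec, hMD, Matrix.one_mulVec] }, ?_, ?_, ?_⟩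
  · intro k
    funext p
    show Am m b s k p = ∑ q, M p q * o.A k q
    rw [Gch_A o c hc0 hc1]
    simp_rw [hM]
  · intro n v
    funext p
    show ∑ q, M p q * (ze m (ch q) ^ n * v q) = ze m (ch p) ^ n * ∑ q, M p q * v q
    rw [Finset.mul_sum]
    refine Finset.sum_congr rfl fun q _ => ?_
    rw [hM]
    by_cases hq : ch q = ch p
    · rw [hq]
      ring
    · rw [hc0 p q hq, zero_mul, zero_mul, mul_zero]
  · intro v w
    show Ef m b s (M.mulVec v) (M.mulVec w) = ∑ p, (v p * (starRingEnd ℂ) (w p)).im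
    unfold Ef
    have hinv : (M * Mᴴ)⁻¹ = Dᴴ * D := by
      refine Matrix.inv_eq_right_inv ?_
      calc M * Mᴴ * (Dᴴ * D) = M * (Mᴴ * Dᴴ) * D := by simp only [Matrix.mul_assoc]
        _ = 1 := by
          rw [← Matrix.conjTranspose_mul, hDM, Matrix.conjTranspose_one, mul_one, hMD]
    rw [hG, hinv, Matrix.mulVec_mulVec, Matrix.mul_assoc, hDM, Matrix.mul_one, Matrix.star_mulVec,
      Matrix.dotProduct_mulVec, Matrix.vecMul_vecMul, ← Matrix.conjTranspose_mul, hDM,
      Matrix.conjTranspose_one, Matrix.vecMul_one]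
    unfold dotProduct
    rw [Complex.im_sum]
    refine Finset.sum_congr rfl fun p _ => ?_
    rw [mul_comm]
    rfl

end TATE.FA
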