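import Pool.Agent.Lib.TATE.FA.Spec

/-!
# PROJECT TATE, FA: the constant Gram matrix
-/

set_option autoImplicit false

open Topology Metric MeasureTheory

noncomputable section

namespace TATE.FA

open SEJ TATE
open SECR (cutp)
open HC (AV)
open HC.SE (New IsCov)

private theorem Gcs_im (z : ℂ) :
    ((z.im : ℝ) : ℂ) = (2 * Complex.I)⁻¹ * (z - (starRingEnd ℂ) z) := by
  rw [Complex.sub_conj]
  push_cast
  field_simp

theorem Gcs_cov {m r : ℕ} {s : Fin (r + 1) → ℂ} {b : Fin (r + 1) → ℕ} (hb : Cvb m b)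
    (hs : Up s) : IsCov m s b := by
  have hinj : Function.Injective s := by
    intro i j hij
    apply hs.injective
    show (s i).im = (s j).im
    rw [hij]
  exact ⟨hb.1, hinj, hb.2.1, hb.2.2.1, hb.2.2.2⟩

theorem Gcs_key {m r : ℕ} {s : Fin (r + 1) → ℂ} {b : Fin (r + 1) → ℕ} (hcov : IsCov m s b)
    (o : ONB m s b) (a c : ℕ) (l j : Fin r) :
    ((∑ p : Ix m b, ((ze m (ch p) ^ a * o.A l.castSucc p) *
      (starRingEnd ℂ) (ze m (ch p) ^ c * o.A j.castSucc p)).im : ℝ) : ℂ) =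
      ∑ u ∈ (Finset.range m).filter (fun u => u.Coprime m),
        ze m u ^ a * (starRingEnd ℂ) (ze m u ^ c) * o.Mm u j l := by
  have hN0 : S_N0 := tN0
  have hm : 3 ≤ m := hcov.1
  rw [Complex.ofReal_sum]
  have e1 : ∀ p : Ix m b, ((((ze m (ch p) ^ a * o.A l.castSucc p) *
      (starRingEnd ℂ) (ze m (ch p) ^ c * o.A j.castSucc p)).im : ℝ) : ℂ) =
      (2 * Complex.I)⁻¹ * (ze m (ch p) ^ a * (starRingEnd ℂ) (ze m (ch p) ^ c) *
        (o.A l.castSucc p * (starRingEnd ℂ) (o.A j.castSucc p)) -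
        (starRingEnd ℂ) (ze m (ch p)) ^ a *
          (starRingEnd ℂ) ((starRingEnd ℂ) (ze m (ch p)) ^ c) *
        ((starRingEnd ℂ) (o.A l.castSucc p) * o.A j.castSucc p)) := by
    intro p
    rw [Gcs_im]
    simp only [map_mul, map_pow, Complex.conj_conj]
    ring
  rw [Finset.sum_congr rfl fun p _ => e1 p]
  have e2 : ∀ u : ℕ, ze m u ^ a * (starRingEnd ℂ) (ze m u ^ c) * o.Mm u j l =
      (2 * Complex.I)⁻¹ * ((∑ p : Ix m b, if ch p = u then
        ze m (ch p) ^ a * (starRingEnd ℂ) (ze m (ch p) ^ c) *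
        (o.A l.castSucc p * (starRingEnd ℂ) (o.A j.castSucc p)) else 0) -
        ∑ p : Ix m b, if ch p + u = m then ze m u ^ a *
          (starRingEnd ℂ) (ze m u ^ c) *
        ((starRingEnd ℂ) (o.A l.castSucc p) * o.A j.castSucc p) else 0) := by
    intro u
    unfold ONB.Mm
    rw [mul_left_comm, mul_sub, Finset.mul_sum, Finset.mul_sum]
    congr 2
    · refine Finset.sum_congr rfl fun p _ => ?_
      split_ifs with hp
      · rw [← hp]
      · rw [mul_zero]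
    · refine Finset.sum_congr rfl fun p _ => ?_
      split_ifs with hp
      · rfl
      · rw [mul_zero]
  rw [Finset.sum_congr rfl fun u _ => e2 u, ← Finset.mul_sum, ← Finset.mul_sum,
    Finset.sum_sub_distrib, Finset.sum_sub_distrib]
  congr 2
  · rw [Finset.sum_comm]
    refine Finset.sum_congr rfl fun p _ => ?_
    have hp : ch p ∈ (Finset.range m).filter (fun u => u.Coprime m) :=
      Finset.mem_filter.2 ⟨Finset.mem_range.2 p.1.1.2, p.2.1⟩
    rw [Finset.sum_ite_eq, if_pos hp]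
  · rw [Finset.sum_comm]
    refine Finset.sum_congr rfl fun p _ => ?_
    obtain ⟨-, -, -, h4, h5, -, h7, -⟩ := hN0 s b hcov (ch p) p.1.1.2 p.2.1
    have hlt : ch p < m := p.1.1.2
    have hp : m - ch p ∈ (Finset.range m).filter (fun u => u.Coprime m) :=
      Finset.mem_filter.2 ⟨Finset.mem_range.2 h5, h4⟩
    rw [Finset.sum_eq_single_of_mem _ hp, if_pos (by lia), h7]
    intro u _ hu
    rw [if_neg]
    intro h9
    exact hu (by lia)

theorem tGcs : S_Gch → S_Gcs := by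
  intro hG m r b hb
  -- a base point
  have hs0 : Up (fun j : Fin (r + 1) => ((j : ℕ) : ℂ) * Complex.I) := by
    intro i j hij
    have h1 : ∀ k : Fin (r + 1), (((k : ℕ) : ℂ) * Complex.I).im = ((k : ℕ) : ℝ) := by
      intro k
      simp
    show (((i : ℕ) : ℂ) * Complex.I).im < (((j : ℕ) : ℂ) * Complex.I).im
    rw [h1, h1]
    exact_mod_cast hij
  have hc0 := Gcs_cov hb hs0
  obtain ⟨o₀⟩ := onb_ex _ b hc0 hs0
  have hinv : ∀ (s : Fin (r + 1) → ℂ) (hs : Up s) (o : ONB m s b), ∀ u < m, u.Coprime m →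
      o.Mm u = (Nm (lam (mu m b u)))⁻¹ := fun s hs o u hu hu' =>
    (Matrix.inv_eq_right_inv (onb_inv s b (Gcs_cov hb hs) hs o u hu hu')).symm
  obtain ⟨D, hD, hn⟩ := tN5 tN0 _ b hc0 (fun u => (Nm (lam (mu m b u)))⁻¹) (by
    intro u hu hu'
    rw [← hinv _ hs0 o₀ u hu hu']
    exact onb_inv _ b hc0 hs0 o₀ u hu hu')
  choose n hn using hn
  refine ⟨fun q q' => (n q.1 q'.1 q'.2 q.2 : ℚ) / D, fun s hs q q' => ?_⟩
  have hc := Gcs_cov hb hs
  obtain ⟨o⟩ := onb_ex s b hc hs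
  obtain ⟨C, hC1, hC2, hC3⟩ := hG m r b s hc hs o
  have h1 : ∀ q : Fin m.totient × Fin r,
      fr m b s q = C (fun p => ze m (ch p) ^ (q.1 : ℕ) * o.A q.2.castSucc p) := by
    intro q
    unfold fr
    rw [hC1, ← hC2]
    rfl
  rw [h1, h1, hC3]
  have h2 := Gcs_key hc o q.1 q'.1 q.2 q'.2
  have h3 := hn q.1 q'.1 q'.2 q.2
  have h4 : ∑ u ∈ (Finset.range m).filter (fun u => u.Coprime m),
      ze m u ^ (q.1 : ℕ) * (starRingEnd ℂ) (ze m u ^ (q'.1 : ℕ)) * o.Mm u q'.2 q.2 =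
      ∑ u ∈ (Finset.range m).filter (fun u => u.Coprime m),
      ze m u ^ (q.1 : ℕ) * (starRingEnd ℂ) (ze m u ^ (q'.1 : ℕ)) *
        (Nm (lam (mu m b u)))⁻¹ q'.2 q.2 := by
    refine Finset.sum_congr rfl fun u hu => ?_
    rw [hinv s hs o u (Finset.mem_range.1 (Finset.mem_filter.1 hu).1) (Finset.mem_filter.1 hu).2]
  rw [h4] at h2
  rw [← h2] at h3
  have hD' : (D : ℝ) ≠ 0 := by exact_mod_cast hD
  have h5 : (D : ℝ) * (∑ p : Ix m b, ((ze m (ch p) ^ (q.1 : ℕ) * o.A q.2.castSucc p) *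
      (starRingEnd ℂ) (ze m (ch p) ^ (q'.1 : ℕ) * o.A q'.2.castSucc p)).im) =
      n q.1 q'.1 q'.2 q.2 := by
    have h6 := h3
    rw [← Complex.ofReal_natCast, ← Complex.ofReal_mul, ← Complex.ofReal_intCast] at h6
    exact Complex.ofReal_injective h6
  push_cast
  rw [eq_div_iff hD', mul_comm]
  exact h5

end TATE.FA
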