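import Pool.Agent.Lib.TATE.FA.Spec

/-!
# PROJECT TATE, package FA: properties of the Riemann form
-/

set_option autoImplicit false

open Topology Metric MeasureTheory

noncomputable section

namespace TATE.FA

open SEJ TATE
open SECR (cutp)
open HC (AV)
open HC.SE (New IsCov)

theorem Gpr_norm_ze (m u : ℕ) : ‖ze m u‖ = 1 := by
  have h : ze m u = Complex.exp (((2 * Real.pi * u / m : ℝ) : ℂ) * Complex.I) := by
    unfold ze
    congr 1
    push_cast
    ring
  rw [h, Complex.norm_exp_ofReal_mul_I]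

theorem Gpr_ze (m u : ℕ) : ze m u * (starRingEnd ℂ) (ze m u) = 1 := by
  rw [Complex.mul_conj, Complex.normSq_eq_norm_sq, Gpr_norm_ze]
  norm_num

/-- The conditions for the permuted exponents. -/
theorem Gpr_cov {m r : ℕ} (b : Fin (r + 1) → ℕ) (h : Cvb m b)
    (π : Equiv.Perm (Fin (r + 1))) (s : Fin (r + 1) → ℂ) (hs : Up s) : IsCov m s (b ∘ π) := by
  obtain ⟨h1, h2, h3, h4⟩ := h
  refine ⟨h1, ?_, fun j => h2 (π j), ?_, ?_⟩
  · intro i j hij
    exact hs.injective (congrArg Complex.im hij)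
  · have h5 : ∑ j, (b ∘ π) j = ∑ j, b j := Equiv.sum_comp π b
    rw [h5]
    exact h3
  · intro d hd hdj
    refine h4 d hd fun j => ?_
    have h6 := hdj (π.symm j)
    simpa using h6

theorem Gpr_Dr_add {m r : ℕ} (b : Fin (r + 1) → ℕ) (π : Equiv.Perm (Fin (r + 1))) (ρ c : ℂ)
    (u v : Ix m b → ℂ) : Dr m b π ρ c (u + v) = Dr m b π ρ c u + Dr m b π ρ c v := by
  funext p
  exact mul_add _ _ _

theorem Gpr_Dr_smul {m r : ℕ} (b : Fin (r + 1) → ℕ) (π : Equiv.Perm (Fin (r + 1))) (ρ c : ℂ)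
    (a : ℂ) (v : Ix m b → ℂ) : Dr m b π ρ c (a • v) = a • Dr m b π ρ c v := by
  funext p
  exact mul_left_comm _ _ _

/-- Abstract form: everything follows from coordinates in which the form is standard. -/
theorem Gpr_abs {m r : ℕ} (b : Fin (r + 1) → ℕ) {ι : Type} [Fintype ι]
    (Φ : (Ix m b → ℂ) → (ι → ℂ)) (e : ι → ℕ) (F : (Ix m b → ℂ) → (Ix m b → ℂ) → ℝ)
    (hadd : ∀ u v, Φ (u + v) = Φ u + Φ v) (hsmul : ∀ (a : ℂ) v, Φ (a • v) = a • Φ v)
    (hinj : ∀ v, Φ v = 0 → v = 0)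
    (hZ : ∀ v p, Φ (Zd m b v) p = ze m (e p) * Φ v p)
    (hF : ∀ v w, F v w = ∑ p, (Φ v p * (starRingEnd ℂ) (Φ w p)).im) :
    ∃ E : (Ix m b → ℂ) →ₗ[ℝ] (Ix m b → ℂ) →ₗ[ℝ] ℝ, (∀ v w, E v w = F v w) ∧
      (∀ u v, E u v = -E v u) ∧ (∀ u v, E (Complex.I • u) (Complex.I • v) = E u v) ∧
      (∀ v, v ≠ 0 → 0 < E (Complex.I • v) v) ∧ ∀ u v, E (Zd m b u) (Zd m b v) = E u v := by
  have hreal : ∀ (a : ℝ) (v : Ix m b → ℂ), Φ (a • v) = (a : ℂ) • Φ v := by
    intro a v
    have h : a • v = (a : ℂ) • v := by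
      funext p
      simp
    rw [h, hsmul]
  refine ⟨LinearMap.mk₂ ℝ F ?_ ?_ ?_ ?_, ?_, ?_, ?_, ?_, ?_⟩
  · intro u v w
    rw [hF, hF, hF, hadd, ← Finset.sum_add_distrib]
    refine Finset.sum_congr rfl fun p _ => ?_
    rw [Pi.add_apply, add_mul, Complex.add_im]
  · intro a v w
    rw [hF, hF, hreal, smul_eq_mul, Finset.mul_sum]
    refine Finset.sum_congr rfl fun p _ => ?_
    rw [Pi.smul_apply, smul_eq_mul, mul_assoc, Complex.im_ofReal_mul]
  · intro u v w
    rw [hF, hF, hF, hadd, ← Finset.sum_add_distrib]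
    refine Finset.sum_congr rfl fun p _ => ?_
    rw [Pi.add_apply, map_add, mul_add, Complex.add_im]
  · intro a v w
    rw [hF, hF, hreal, smul_eq_mul, Finset.mul_sum]
    refine Finset.sum_congr rfl fun p _ => ?_
    rw [Pi.smul_apply, smul_eq_mul, map_mul, Complex.conj_ofReal, mul_left_comm,
      Complex.im_ofReal_mul]
  · intro v w
    rfl
  · intro u v
    change F u v = -F v u
    rw [hF, hF, ← Finset.sum_neg_distrib]
    refine Finset.sum_congr rfl fun p _ => ?_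
    simp only [Complex.mul_im, Complex.conj_re, Complex.conj_im]
    ring
  · intro u v
    change F _ _ = F _ _
    rw [hF, hF, hsmul, hsmul]
    refine Finset.sum_congr rfl fun p _ => ?_
    simp only [Pi.smul_apply, smul_eq_mul, map_mul, Complex.mul_im, Complex.mul_re,
      Complex.conj_re, Complex.conj_im, Complex.I_re, Complex.I_im]
    ring
  · intro v hv
    change 0 < F _ _
    rw [hF, hsmul]
    have hne : Φ v ≠ 0 := fun h => hv (hinj v h)
    obtain ⟨p₀, hp₀⟩ := Function.ne_iff.1 hne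
    have hterm : ∀ p, ((Complex.I • Φ v) p * (starRingEnd ℂ) (Φ v p)).im =
        Complex.normSq (Φ v p) := by
      intro p
      simp only [Pi.smul_apply, smul_eq_mul, Complex.mul_im, Complex.mul_re,
        Complex.conj_re, Complex.conj_im, Complex.I_re, Complex.I_im, Complex.normSq_apply]
      ring
    rw [Finset.sum_congr rfl fun p _ => hterm p]
    refine Finset.sum_pos' (fun p _ => Complex.normSq_nonneg _) ⟨p₀, Finset.mem_univ _, ?_⟩
    exact Complex.normSq_pos.2 hp₀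
  · intro u v
    change F _ _ = F _ _
    rw [hF, hF]
    refine Finset.sum_congr rfl fun p _ => ?_
    rw [hZ, hZ, map_mul]
    congr 1
    calc ze m (e p) * Φ u p * ((starRingEnd ℂ) (ze m (e p)) * (starRingEnd ℂ) (Φ v p)) =
        ze m (e p) * (starRingEnd ℂ) (ze m (e p)) * (Φ u p * (starRingEnd ℂ) (Φ v p)) := by ring
      _ = Φ u p * (starRingEnd ℂ) (Φ v p) := by rw [Gpr_ze, one_mul]

theorem tGpr : S_Rot → S_Cht → S_Gch → S_Grt → S_Gpr := by
  intro hRot hCht hGch hGrt m r b t hb ht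
  have hm : 1 ≤ m := le_trans (by norm_num) hb.1
  obtain ⟨π, ρ, c, ε, hρ, hc, hε, hup⟩ := hCht m r b t hm ht
  have hUp : Up (rt π ρ t) := hup t (mem_ball_self hε)
  have hcov : IsCov m (rt π ρ t) (b ∘ π) := Gpr_cov b hb π _ hUp
  obtain ⟨o⟩ := onb_ex (rt π ρ t) (b ∘ π) hcov hUp
  obtain ⟨C, -, hCZ, hCE⟩ := hGch m r (b ∘ π) (rt π ρ t) hcov hUp o
  obtain ⟨hDs, -, hDZ, -, -, -⟩ := hRot m r b t π ρ c hm hρ hc
  have hG := hGrt m r b t π ρ c hm hρ hc
  refine Gpr_abs b (fun v => C.symm (Dr m b π ρ c v)) (fun p : Ix m (b ∘ π) => ch p)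
    (Ef m b t) ?_ ?_ ?_ ?_ ?_
  · intro u v
    change C.symm (Dr m b π ρ c (u + v)) = _
    rw [Gpr_Dr_add, map_add]
  · intro a v
    change C.symm (Dr m b π ρ c (a • v)) = _
    rw [Gpr_Dr_smul, map_smul]
  · intro v hv
    have hv' : C.symm (Dr m b π ρ c v) = 0 := hv
    have h1 : Dr m b π ρ c v = 0 := by
      have h2 := congrArg C hv'
      rwa [LinearEquiv.apply_symm_apply, map_zero] at h2
    rw [← hDs v, h1]
    funext p
    exact mul_zero _
  · intro v p
    change C.symm (Dr m b π ρ c (Zd m b v)) p = ze m (ch p) * C.symm (Dr m b π ρ c v) p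
    have h1 : Zd m (b ∘ π) (Dr m b π ρ c v) = Zn m (b ∘ π) 1 (Dr m b π ρ c v) := by
      funext q
      change ze m (ch q) * _ = ze m (ch q) ^ 1 * _
      rw [pow_one]
    have h2 : C.symm (Zn m (b ∘ π) 1 (Dr m b π ρ c v)) =
        Zn m (b ∘ π) 1 (C.symm (Dr m b π ρ c v)) := by
      rw [LinearEquiv.symm_apply_eq, hCZ, LinearEquiv.apply_symm_apply]
    rw [hDZ, h1, h2]
    change ze m (ch p) ^ 1 * _ = _
    rw [pow_one]
  · intro v w
    change Ef m b t v w = ∑ p, (C.symm (Dr m b π ρ c v) p *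
      (starRingEnd ℂ) (C.symm (Dr m b π ρ c w) p)).im
    rw [← hG v w, ← hCE, LinearEquiv.apply_symm_apply, LinearEquiv.apply_symm_apply]

end TATE.FA
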