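import Pool.Agent.Lib.TATE.FA.Spec

/-!
# TATE/FA/Grt: rotation invariance of the Riemann form

The substitution `x = ρ x'` gives `G(s) = Δ G(t) Δ^*`.
-/

set_option autoImplicit false

open MeasureTheory SEJ TATE

noncomputable section

namespace TATE.FA

private theorem Grt_rot (ρ : ℂ) (hρ : ‖ρ‖ = 1) (f : ℂ → ℂ) : ∫ x : ℂ, f x = ∫ x : ℂ, f (ρ * x) := by
  have hm : ρ ∈ Submonoid.unitSphere ℂ := mem_sphere_zero_iff_norm.2 hρ
  let a : Circle := ⟨ρ, hm⟩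
  have h1 : MeasurePreserving (rotation a) (volume : Measure ℂ) volume :=
    (rotation a).measurePreserving
  have h2 : MeasurableEmbedding (rotation a) :=
    (rotation a).toHomeomorph.measurableEmbedding
  have h3 := h1.integral_comp h2 f
  rw [← h3]
  rfl

private theorem Grt_c {m N : ℕ} {ρ c : ℂ} (hm : 1 ≤ m) (hρ : ‖ρ‖ = 1) (hc : c ^ m = ρ ^ N) :
    ‖c‖ = 1 := by
  have h : ‖c‖ ^ m = 1 := by
    rw [← norm_pow, hc, norm_pow, hρ, one_pow]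
  exact (pow_eq_one_iff_of_nonneg (norm_nonneg c) (by omega)).1 h

private theorem Grt_cj {z : ℂ} (hz : ‖z‖ = 1) : z * (starRingEnd ℂ) z = 1 := by
  rw [Complex.mul_conj, Complex.normSq_eq_norm_sq, hz]
  norm_num

/-- `δ conj δ' = ρ^i conj ρ^i'` -/
private theorem Grt_dl {m r : ℕ} (b : Fin (r + 1) → ℕ) {ρ c : ℂ} (hρ : ‖ρ‖ = 1) (hc : ‖c‖ = 1)
    (u i i' : ℕ) : dl m b ρ c u i * (starRingEnd ℂ) (dl m b ρ c u i') =
      ρ ^ i * (starRingEnd ℂ) (ρ ^ i') := by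
  have h0 : ∀ i, dl m b ρ c u i = (ρ * c ^ u / ρ ^ (∑ j, (1 + u * b j / m))) * ρ ^ i := by
    intro i
    simp only [dl]
    ring
  have hk : ‖ρ * c ^ u / ρ ^ (∑ j, (1 + u * b j / m))‖ = 1 := by
    rw [norm_div, norm_mul, norm_pow, norm_pow, hρ, hc]
    simp
  have h1 := Grt_cj hk
  rw [h0, h0, map_mul]
  calc _ = (ρ * c ^ u / ρ ^ (∑ j, (1 + u * b j / m)) *
        (starRingEnd ℂ) (ρ * c ^ u / ρ ^ (∑ j, (1 + u * b j / m)))) *
        (ρ ^ i * (starRingEnd ℂ) (ρ ^ i')) := by ring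
    _ = _ := by rw [h1, one_mul]

private theorem Grt_dl0 {m r : ℕ} (b : Fin (r + 1) → ℕ) {ρ c : ℂ} (hρ : ‖ρ‖ = 1) (hc : ‖c‖ = 1)
    (u i : ℕ) : dl m b ρ c u i ≠ 0 := by
  have hr : ρ ≠ 0 := by
    intro h
    rw [h, norm_zero] at hρ
    exact zero_ne_one hρ
  have hc' : c ≠ 0 := by
    intro h
    rw [h, norm_zero] at hc
    exact zero_ne_one hc
  simp only [dl]
  exact div_ne_zero (mul_ne_zero (mul_ne_zero hr (pow_ne_zero _ hr)) (pow_ne_zero _ hc'))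
    (pow_ne_zero _ hr)

private theorem Grt_G {m r : ℕ} (b : Fin (r + 1) → ℕ) (t : Fin (r + 1) → ℂ)
    (π : Equiv.Perm (Fin (r + 1))) {ρ c : ℂ} (hρ : ‖ρ‖ = 1) (hc : ‖c‖ = 1)
    (p q : Ix m (b ∘ π)) :
    Gm m (b ∘ π) (rt π ρ t) p q = dl m b ρ c (SEJ.ch p) (SEJ.ex p) *
      Gm m b t ((ixe m b π).symm p) ((ixe m b π).symm q) *
        (starRingEnd ℂ) (dl m b ρ c (SEJ.ch q) (SEJ.ex q)) := by
  have hch : ∀ p : Ix m (b ∘ π), SEJ.ch ((ixe m b π).symm p) = SEJ.ch p := fun p => rfl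
  have hex : ∀ p : Ix m (b ∘ π), SEJ.ex ((ixe m b π).symm p) = SEJ.ex p := fun p => rfl
  simp only [Gm, hch, hex]
  by_cases h : SEJ.ch p = SEJ.ch q
  · rw [if_pos h, if_pos h, Grt_rot ρ hρ, ← h]
    have h1 : ∀ x : ℂ, (ρ * x) ^ SEJ.ex p * (starRingEnd ℂ) ((ρ * x) ^ SEJ.ex q) *
        ((∏ j, ‖ρ * x - rt π ρ t j‖ ^ (-(2 * SEJ.mu m (b ∘ π) (SEJ.ch p) j)) : ℝ) : ℂ) =
        (ρ ^ SEJ.ex p * (starRingEnd ℂ) (ρ ^ SEJ.ex q)) *
        (x ^ SEJ.ex p * (starRingEnd ℂ) (x ^ SEJ.ex q) *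
        ((∏ j, ‖x - t j‖ ^ (-(2 * SEJ.mu m b (SEJ.ch p) j)) : ℝ) : ℂ)) := by
      intro x
      have h2 : (∏ j, ‖ρ * x - rt π ρ t j‖ ^ (-(2 * SEJ.mu m (b ∘ π) (SEJ.ch p) j)) : ℝ) =
          ∏ j, ‖x - t j‖ ^ (-(2 * SEJ.mu m b (SEJ.ch p) j)) := by
        rw [← Equiv.prod_comp π fun j => ‖x - t j‖ ^ (-(2 * SEJ.mu m b (SEJ.ch p) j))]
        refine Finset.prod_congr rfl fun j _ => ?_
        have h3 : ‖ρ * x - rt π ρ t j‖ = ‖x - t (π j)‖ := by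
          simp only [rt]
          rw [← mul_sub, norm_mul, hρ, one_mul]
        rw [h3]
        rfl
      rw [h2, mul_pow, mul_pow, map_mul]
      ring
    rw [integral_congr_ae (Filter.Eventually.of_forall h1), integral_const_mul,
      ← Grt_dl b hρ hc (SEJ.ch p) (SEJ.ex p) (SEJ.ex q)]
    ring
  · rw [if_neg h, if_neg h]
    simp

theorem tGrt : S_Grt := by
  intro m r b t π ρ c hm hρ hcm v w
  have hc : ‖c‖ = 1 := Grt_c hm hρ hcm
  set e := (ixe m b π).symm with he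
  set δ : Ix m (b ∘ π) → ℂ := fun p => dl m b ρ c (SEJ.ch p) (SEJ.ex p) with hδ
  set D : Matrix (Ix m (b ∘ π)) (Ix m (b ∘ π)) ℂ := Matrix.diagonal δ with hD
  set E : Matrix (Ix m (b ∘ π)) (Ix m (b ∘ π)) ℂ :=
    Matrix.diagonal (fun p => (starRingEnd ℂ) (δ p)) with hE
  have hδ0 : ∀ p, δ p ≠ 0 := fun p => Grt_dl0 b hρ hc _ _
  have hG : Gm m (b ∘ π) (rt π ρ t) = D * (Gm m b t).submatrix e e * E := by
    ext p q
    rw [hE, Matrix.mul_diagonal, hD, Matrix.diagonal_mul, Matrix.submatrix_apply]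
    exact Grt_G b t π hρ hc p q
  have hDd : IsUnit D.det := by
    rw [hD, Matrix.det_diagonal]
    exact isUnit_iff_ne_zero.2 (Finset.prod_ne_zero_iff.2 fun p _ => hδ0 p)
  have hEd : IsUnit E.det := by
    rw [hE, Matrix.det_diagonal]
    exact isUnit_iff_ne_zero.2 (Finset.prod_ne_zero_iff.2 fun p _ =>
      (map_ne_zero (starRingEnd ℂ)).2 (hδ0 p))
  have hI : (Gm m (b ∘ π) (rt π ρ t))⁻¹ = E⁻¹ * (((Gm m b t)⁻¹).submatrix e e * D⁻¹) := by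
    rw [hG, Matrix.mul_inv_rev, Matrix.mul_inv_rev, Matrix.inv_submatrix_equiv]
  have hDr : ∀ v : Ix m b → ℂ, Dr m b π ρ c v = Matrix.mulVec D (v ∘ e) := by
    intro v
    funext p
    rw [hD, Matrix.mulVec_diagonal]
    rfl
  have hst : star (Matrix.mulVec D (w ∘ e)) = Matrix.vecMul (star (w ∘ e)) E := by
    funext p
    rw [hE, Matrix.vecMul_diagonal, Pi.star_apply, hD, Matrix.mulVec_diagonal, star_mul']
    rw [mul_comm]
    rfl
  simp only [Ef]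
  rw [hI, hDr v, hDr w, hst, ← Matrix.dotProduct_mulVec, Matrix.mulVec_mulVec,
    Matrix.mulVec_mulVec, Matrix.mul_assoc, Matrix.mul_assoc, Matrix.mul_assoc, Matrix.nonsing_inv_mul D hDd,
    Matrix.mul_one, ← Matrix.mul_assoc, Matrix.mul_nonsing_inv E hEd, Matrix.one_mul]
  congr 1
  simp only [dotProduct, Matrix.mulVec, Matrix.submatrix_apply, Function.comp, Pi.star_apply]
  have h1 : ∀ p : Ix m (b ∘ π), ∑ q, (Gm m b t)⁻¹ (e p) (e q) * v (e q) =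
      ∑ q, (Gm m b t)⁻¹ (e p) q * v q := fun p =>
    Equiv.sum_comp e fun q => (Gm m b t)⁻¹ (e p) q * v q
  simp only [h1]
  exact Equiv.sum_comp e fun p => star (w p) * ∑ q, (Gm m b t)⁻¹ p q * v q

end TATE.FA
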