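import Pool.Agent.Lib.TATE.FA.Spec
import Pool.Agent.Lib.SE.CR.Al
import Pool.Agent.Lib.SE.CR.Crs

/-!
# PROJECT TATE, package FA, Itc: segments in the cut plane (helper2)
-/

set_option autoImplicit false

open Topology Metric MeasureTheory

noncomputable section

namespace TATE.FA

open SEJ TATE
open SECR (cutp)
open HC.SE (IsCov)

theorem Itc_fd {k : ℕ} (s : Fin k → ℂ) (μ : Fin k → ℝ) (P : Polynomial ℂ) {x : ℂ}
    (hx : x ∈ cutp s) : ContinuousAt (frm s μ P) x := by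
  refine (tC1 s μ P x fun j => SECR.Al.slit fun h => ?_).continuousAt
  rw [Complex.sub_im] at h
  have h2 := hx j (by linarith)
  rw [Complex.sub_re]
  linarith

theorem Itc_zz (m n u : ℕ) : (ze m 1 ^ n) ^ u = ze m u ^ n := by
  rw [SECR.Crs.ze_pow m u, ← pow_mul, ← pow_mul, mul_comm]

/-- The form at a point of the cut plane. -/
theorem Itc_om {m r : ℕ} {b : Fin (r + 1) → ℕ} {s : Fin (r + 1) → ℂ} (hm : m ≠ 0) (f : ℕ) {x : ℂ}
    (hx : x ∈ cutp s) (p : Ix m b) :
    om m b s (x, ze m 1 ^ f * y0 m s b x) p =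
      ze m (ch p) ^ f * frm s (SEJ.mu m b (ch p)) (Polynomial.X ^ ex p) x := by
  have h1 := SECR.Al.frmeq (s := s) (b := b) hm (SECR.Al.notin hx) (ch p) (ex p)
  rw [← h1]
  show x ^ ex p * (ze m 1 ^ f * y0 m s b x) ^ ch p / ∏ j, (x - s j) ^ (1 + ch p * b j / m) = _
  rw [mul_pow, Itc_zz]
  ring

theorem tItc : S_Itc := by
  intro m r b s hc hs f x x' H
  have hm : m ≠ 0 := by
    have := hc.1
    omega
  let g : Set.Icc (0 : ℝ) 1 → ℂ := fun u => ze m 1 ^ f * y0 m s b (x + ((u : ℝ) : ℂ) * (x' - x))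
  have hg : Continuous g := by
    refine continuous_iff_continuousAt.2 fun u => ?_
    refine ContinuousAt.mul continuousAt_const ?_
    have h1 : ContinuousAt (fun u : Set.Icc (0 : ℝ) 1 => x + ((u : ℝ) : ℂ) * (x' - x)) u := by
      fun_prop
    exact ContinuousAt.comp (f := fun u : Set.Icc (0 : ℝ) 1 => x + ((u : ℝ) : ℂ) * (x' - x))
      (SECR.Al.y0c (m := m) (b := b) (H u u.2)) h1
  have hval : ∀ u (hu : u ∈ Set.Icc (0 : ℝ) 1), Set.IccExtend zero_le_one g u =
      ze m 1 ^ f * y0 m s b (x + (u : ℂ) * (x' - x)) := by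
    intro u hu
    rw [Set.IccExtend_of_mem _ _ hu]
  refine ⟨Set.IccExtend zero_le_one g, hg.Icc_extend', ?_, ?_, ?_, ?_⟩
  · rw [hval 0 ⟨le_rfl, zero_le_one⟩]
    show _ = ze m 1 ^ f * y0 m s b x
    rw [Complex.ofReal_zero, zero_mul, add_zero]
  · rw [hval 1 ⟨zero_le_one, le_rfl⟩]
    show _ = ze m 1 ^ f * y0 m s b x'
    rw [Complex.ofReal_one, one_mul, add_sub_cancel]
  · intro u hu
    show (x + (u : ℂ) * (x' - x), Set.IccExtend zero_le_one g u) ∈ Pts m b s
    rw [hval u hu]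
    refine ⟨SECR.Al.notin (H u hu), ?_⟩
    show (ze m 1 ^ f * y0 m s b (x + (u : ℂ) * (x' - x))) ^ m =
      ∏ j, (x + (u : ℂ) * (x' - x) - s j) ^ b j
    rw [mul_pow, ← pow_mul, mul_comm f m, pow_mul, SECR.Al.zepow hm, one_pow, one_mul,
      SECR.Al.y0pow hm]
  · intro p
    set F : ℂ → ℂ := frm s (SEJ.mu m b (ch p)) (Polynomial.X ^ ex p) with hF
    have h1 : ∀ u ∈ Set.Icc (0 : ℝ) 1, HasDerivAt
        (fun u : ℝ => prm F (x + (u : ℂ) * (x' - x))) (F (x + (u : ℂ) * (x' - x)) * (x' - x)) u := by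
      intro u hu
      have h2 : HasDerivAt (prm F) (F (x + (u : ℂ) * (x' - x))) (x + (u : ℂ) * (x' - x)) :=
        xD1 s _ _ ((tN0 s b hc (ch p) p.1.1.2 p.2.1).2.2.2.2.2.2.2.2.2 hs (ex p) p.2.2) _ (H u hu)
      have h3 : HasDerivAt (fun u : ℝ => x + (u : ℂ) * (x' - x)) (x' - x) u := by
        have h4 : HasDerivAt (fun u : ℝ => (u : ℂ)) 1 u := Complex.ofRealCLM.hasDerivAt
        have h5 := (h4.mul_const (x' - x)).const_add x
        rwa [one_mul] at h5
      exact HasDerivAt.comp (h := fun u : ℝ => x + (u : ℂ) * (x' - x)) u h2 h3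
    have hcont : ContinuousOn (fun u : ℝ => F (x + (u : ℂ) * (x' - x)) * (x' - x))
        (Set.uIcc (0 : ℝ) 1) := by
      rw [Set.uIcc_of_le (zero_le_one : (0 : ℝ) ≤ 1)]
      intro u hu
      refine ContinuousAt.continuousWithinAt ?_
      refine ContinuousAt.mul ?_ continuousAt_const
      have h6 : ContinuousAt (fun u : ℝ => x + (u : ℂ) * (x' - x)) u := by fun_prop
      exact ContinuousAt.comp (f := fun u : ℝ => x + (u : ℂ) * (x' - x))
        (Itc_fd s _ _ (H u hu)) h6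
    have h7 : ∫ u in (0 : ℝ)..1, F (x + (u : ℂ) * (x' - x)) * (x' - x) = prm F x' - prm F x := by
      rw [intervalIntegral.integral_eq_sub_of_hasDerivAt
        (f := fun u : ℝ => prm F (x + (u : ℂ) * (x' - x))) (fun u hu => h1 u ?_)
        hcont.intervalIntegrable]
      · simp only [Complex.ofReal_one, Complex.ofReal_zero, one_mul, zero_mul, add_zero,
          add_sub_cancel]
      · rwa [Set.uIcc_of_le (zero_le_one : (0 : ℝ) ≤ 1)] at hu
    show ze m (ch p) ^ f * (prm F x' - prm F x) = ∫ u in (0 : ℝ)..1,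
      (x' - x) * om m b s (x + (u : ℂ) * (x' - x), Set.IccExtend zero_le_one g u) p
    rw [← h7, ← intervalIntegral.integral_const_mul]
    refine intervalIntegral.integral_congr fun u hu => ?_
    rw [Set.uIcc_of_le (zero_le_one : (0 : ℝ) ≤ 1)] at hu
    show ze m (ch p) ^ f * (F (x + (u : ℂ) * (x' - x)) * (x' - x)) =
      (x' - x) * om m b s (x + (u : ℂ) * (x' - x), Set.IccExtend zero_le_one g u) p
    rw [hval u hu, Itc_om hm f (H u hu) p, ← hF]
    ring

end TATE.FA
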