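import Pool.Agent.Lib.TATE.FA.Spec2

/-!
# PROJECT TATE, FA: lifting along polygons modulo a subgroup
-/

set_option autoImplicit false

open Topology Metric MeasureTheory Filter

noncomputable section

namespace TATE.FA

open SEJ TATE
open SECR (cutp)
open HC (AV)
open HC.SE (New IsCov)

/-- A continuous root of unity is constant near a point. -/
private theorem Lfg_root {m : ℕ} (hm : 1 ≤ m) {q : ℝ → ℂ} {t₀ : ℝ} {S : Set ℝ}
    (hq : ContinuousWithinAt q S t₀) (h1 : q t₀ = 1) (hr : ∀ᶠ t in 𝓝[S] t₀, q t ^ m = 1) :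
    ∀ᶠ t in 𝓝[S] t₀, q t = 1 := by
  have hfin : {z : ℂ | z ^ m = 1}.Finite := by
    have h2 : {z : ℂ | z ^ m = 1} ⊆ ((Polynomial.nthRoots m (1 : ℂ)).toFinset : Set ℂ) := by
      intro z hz
      rw [Finset.mem_coe, Multiset.mem_toFinset, Polynomial.mem_nthRoots (by omega)]
      exact hz
    exact (Finset.finite_toSet _).subset h2
  have hcl : IsClosed ({z : ℂ | z ^ m = 1} \ {1}) := (hfin.subset Set.sdiff_subset).isClosed
  have hmem : ({z : ℂ | z ^ m = 1} \ {1})ᶜ ∈ 𝓝 (q t₀) := by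
    refine hcl.isOpen_compl.mem_nhds ?_
    rw [h1]
    simp
  filter_upwards [hq hmem, hr] with t ht htS
  by_contra hne
  exact ht ⟨htS, hne⟩

section

variable {m r : ℕ} {b : Fin (r + 1) → ℕ} {t : Fin (r + 1) → ℂ}

private theorem Lfg_ne (hm : 1 ≤ m) {P : ℂ × ℂ} (hP : P ∈ Pts m b t) :
    P.2 ≠ 0 ∧ ∀ j, P.1 - t j ≠ 0 := by
  have h1 : ∀ j, P.1 - t j ≠ 0 := fun j => sub_ne_zero.2 fun h5 => hP.1 ⟨j, h5.symm⟩
  refine ⟨fun h0 => ?_, h1⟩
  have h4 := hP.2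
  rw [h0, zero_pow (by omega)] at h4
  exact Finset.prod_ne_zero_iff.2 (fun j _ => pow_ne_zero _ (h1 j)) h4.symm

/-- One segment. -/
theorem Lfg_seg (hm : 1 ≤ m) (Λ : AddSubgroup (Ix m b → ℂ)) (a : ℂ × ℂ → (Ix m b → ℂ))
    (h : ∀ P ∈ Pts m b t, ∃ (η : ℂ → ℂ) (g : ℂ → (Ix m b → ℂ)), η P.1 = P.2 ∧
      ContinuousAt η P.1 ∧ ∀ᶠ x in 𝓝 P.1, (x, η x) ∈ Pts m b t ∧ a (x, η x) - g x ∈ Λ ∧
        HasDerivAt g (om m b t (x, η x)) x)
    {P Q : ℂ × ℂ} {v : Ix m b → ℂ} (hS : Seg m b t P Q v) : a Q - a P - v ∈ Λ := by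
  obtain ⟨y, hy, hy0, hy1, hyP, hv⟩ := hS
  set p₀ : ℂ := P.1 with hp₀
  set p₁ : ℂ := Q.1 with hp₁
  set p : ℝ → ℂ := fun u => p₀ + u * (p₁ - p₀) with hp
  have hpc : Continuous p := by
    rw [hp]
    fun_prop
  have hpd : ∀ u, HasDerivAt p (p₁ - p₀) u := by
    intro u
    have h1 : HasDerivAt (fun u : ℝ => (u : ℂ)) 1 u := Complex.ofRealCLM.hasDerivAt
    have h2 := (h1.mul_const (p₁ - p₀)).const_add p₀
    rw [one_mul] at h2
    exact h2
  have hmem : ∀ u ∈ Set.Icc (0 : ℝ) 1, (p u, y u) ∈ Pts m b t := hyP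
  have hcont : ∀ q, ContinuousOn (fun u : ℝ => om m b t (p u, y u) q) (Set.Icc 0 1) := by
    intro q
    unfold om
    refine ContinuousOn.div ?_ ?_ ?_
    · exact ((hpc.pow _).mul (hy.pow _)).continuousOn
    · refine Continuous.continuousOn ?_
      exact continuous_finsetProd _ fun j _ => (hpc.sub continuous_const).pow _
    · intro u hu
      exact Finset.prod_ne_zero_iff.2 fun j _ => pow_ne_zero _ ((Lfg_ne hm (hmem u hu)).2 j)
  have hint : ∀ q, ∀ c ∈ Set.Icc (0 : ℝ) 1, ∀ d ∈ Set.Icc (0 : ℝ) 1, IntervalIntegrable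
      (fun u : ℝ => (p₁ - p₀) * om m b t (p u, y u) q) volume c d := by
    intro q c hc d hd
    refine ((continuousOn_const (c := p₁ - p₀)).mul (hcont q)).mono ?_ |>.intervalIntegrable
    exact Set.uIcc_subset_Icc hc hd
  -- the local structure
  have loc : ∀ t₀ ∈ Set.Icc (0 : ℝ) 1, ∃ g : ℂ → (Ix m b → ℂ), ∀ᶠ u in 𝓝[Set.Icc 0 1] t₀,
      HasDerivAt g (om m b t (p u, y u)) (p u) ∧ a (p u, y u) - g (p u) ∈ Λ := by
    intro t₀ ht₀
    obtain ⟨η, g, h1, h2, h3⟩ := h (p t₀, y t₀) (hmem t₀ ht₀)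
    have hpt : Tendsto p (𝓝[Set.Icc 0 1] t₀) (𝓝 (p t₀)) :=
      hpc.continuousAt.continuousWithinAt
    have hη : ∀ᶠ u in 𝓝[Set.Icc 0 1] t₀, η (p u) = y u := by
      have h5 : ContinuousWithinAt (fun u => η (p u)) (Set.Icc 0 1) t₀ :=
        ContinuousAt.comp_continuousWithinAt (f := p) h2 hpt
      have h6 : ContinuousWithinAt (fun u => η (p u) / y u) (Set.Icc 0 1) t₀ :=
        h5.div hy.continuousAt.continuousWithinAt (Lfg_ne hm (hmem t₀ ht₀)).1
      have h7 : ∀ᶠ u in 𝓝[Set.Icc 0 1] t₀, (η (p u) / y u) ^ m = 1 := by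
        filter_upwards [hpt.eventually h3, self_mem_nhdsWithin] with u hu huI
        have h8 : η (p u) ^ m = ∏ j, (p u - t j) ^ b j := hu.1.2
        have h9 : y u ^ m = ∏ j, (p u - t j) ^ b j := (hmem u huI).2
        rw [div_pow, h8, ← h9, div_self (pow_ne_zero _ (Lfg_ne hm (hmem u huI)).1)]
      have h11 := Lfg_root hm h6 (by rw [h1]; exact div_self (Lfg_ne hm (hmem t₀ ht₀)).1) h7
      filter_upwards [h11, self_mem_nhdsWithin] with u hu huI
      exact (div_eq_one_iff_eq (Lfg_ne hm (hmem u huI)).1).1 hu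
    refine ⟨g, ?_⟩
    filter_upwards [hpt.eventually h3, hη] with u hu hηu
    rw [hηu] at hu
    exact ⟨hu.2.2, hu.2.1⟩
  -- the function modulo the subgroup
  set F : ℝ → (Ix m b → ℂ) := fun u => a (p u, y u) -
    fun q => ∫ τ in (0 : ℝ)..u, (p₁ - p₀) * om m b t (p τ, y τ) q with hF
  have hloc : ∀ t₀ ∈ Set.Icc (0 : ℝ) 1, ∀ᶠ u in 𝓝[Set.Icc 0 1] t₀, F u - F t₀ ∈ Λ := by
    intro t₀ ht₀
    obtain ⟨g, h2⟩ := loc t₀ ht₀
    obtain ⟨δ, hδ, hball⟩ := Metric.mem_nhdsWithin_iff.1 h2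
    filter_upwards [inter_mem_nhdsWithin _ (Metric.ball_mem_nhds t₀ hδ)] with u hu
    have h0I : (0 : ℝ) ∈ Set.Icc (0 : ℝ) 1 := by simp
    have hsub : ∀ τ ∈ Set.uIcc t₀ u, τ ∈ Metric.ball t₀ δ ∩ Set.Icc 0 1 := by
      intro τ hτ
      refine ⟨?_, Set.uIcc_subset_Icc ht₀ hu.1 hτ⟩
      rw [Metric.mem_ball, Real.dist_eq]
      have h3 := hu.2
      rw [Metric.mem_ball, Real.dist_eq] at h3
      exact lt_of_le_of_lt (Set.abs_sub_left_of_mem_uIcc hτ) h3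
    have h4 : ∀ q, ∫ τ in t₀..u, (p₁ - p₀) * om m b t (p τ, y τ) q = g (p u) q - g (p t₀) q := by
      intro q
      refine intervalIntegral.integral_eq_sub_of_hasDerivAt (f := fun τ => g (p τ) q) ?_
        (hint q t₀ ht₀ u hu.1)
      intro τ hτ
      have h5 := hball (hsub τ hτ)
      have h6 := HasDerivAt.scomp τ h5.1 (hpd τ)
      have h7 := (hasDerivAt_pi.1 h6) q
      exact h7
    have h6 : ∀ q, (∫ τ in (0 : ℝ)..u, (p₁ - p₀) * om m b t (p τ, y τ) q) -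
        ∫ τ in (0 : ℝ)..t₀, (p₁ - p₀) * om m b t (p τ, y τ) q =
        g (p u) q - g (p t₀) q := by
      intro q
      rw [← h4 q]
      exact intervalIntegral.integral_interval_sub_left (hint q 0 h0I u hu.1)
        (hint q 0 h0I t₀ ht₀)
    have h7 := (hball ⟨hu.2, hu.1⟩).2
    have h8 := (hball ⟨Metric.mem_ball_self hδ, ht₀⟩).2
    have h9 : F u - F t₀ = (a (p u, y u) - g (p u)) - (a (p t₀, y t₀) - g (p t₀)) := by
      funext q
      have h10 := h6 q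
      simp only [hF, Pi.sub_apply]
      linear_combination -h10
    rw [h9]
    exact Λ.sub_mem h7 h8
  have hlc : IsLocallyConstant (fun u : Set.Icc (0 : ℝ) 1 =>
      (QuotientAddGroup.mk (F u) : (Ix m b → ℂ) ⧸ Λ)) := by
    rw [IsLocallyConstant.iff_eventually_eq]
    intro t₀
    have h1 := hloc t₀ t₀.2
    have h2 : Tendsto (Subtype.val : Set.Icc (0 : ℝ) 1 → ℝ) (𝓝 t₀) (𝓝[Set.Icc 0 1] (t₀ : ℝ)) := by
      rw [tendsto_nhdsWithin_iff]
      exact ⟨continuousAt_subtype_val, Eventually.of_forall fun x => x.2⟩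
    filter_upwards [h2.eventually h1] with u hu
    rw [eq_comm, QuotientAddGroup.eq]
    rwa [neg_add_eq_sub]
  have h0 : (0 : ℝ) ∈ Set.Icc (0 : ℝ) 1 := by simp
  have h1 : (1 : ℝ) ∈ Set.Icc (0 : ℝ) 1 := by simp
  have hpre : PreconnectedSpace (Set.Icc (0 : ℝ) 1) :=
    Subtype.preconnectedSpace isPreconnected_Icc
  have h2 := hlc.apply_eq_of_preconnectedSpace ⟨0, h0⟩ ⟨1, h1⟩
  rw [QuotientAddGroup.eq, neg_add_eq_sub] at h2
  have h3 : p 1 = p₁ := by simp [hp]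
  have h4 : p 0 = p₀ := by simp [hp]
  have h5 : a Q - a P - v = F 1 - F 0 := by
    funext q
    have h6 := hv q
    simp only [hF, Pi.sub_apply, h3, h4, intervalIntegral.integral_same, sub_zero, hy0, hy1]
    rw [h6]
    ring
  rw [h5]
  exact h2

end

theorem tLfg : S_Lfg := by
  intro m r b t hm Λ a h P Q v hI
  induction hI with
  | refl hP =>
    rw [sub_self, sub_zero]
    exact Λ.zero_mem
  | step h1 h2 ih =>
    rename_i Q' R' v' w'
    have h3 := Lfg_seg hm Λ a h h2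
    have h4 : a R' - a P - (v' + w') = (a Q' - a P - v') + (a R' - a Q' - w') := by abel
    rw [h4]
    exact Λ.add_mem ih h3

end TATE.FA
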