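import Pool.Agent.Lib.TATE.FA.Spec
import Pool.Agent.Lib.SE.Big.Seg

/-!
# PROJECT TATE, package FA: integrals and the map of the curve (helper50)
-/

set_option autoImplicit false

open Topology Metric MeasureTheory

noncomputable section

namespace TATE.FA

open SEJ TATE
open HC (AV)
open HC.SE (New IsCov)

/-- One segment. -/
theorem Lft_seg (T : AV) (m r : ℕ) (t : Fin (r + 1) → ℂ) (b : Fin (r + 1) → ℕ) (N : New T m t b)
    (e : T.V ≃ₗ[ℂ] (Ix m b → ℂ)) (hm : 1 ≤ m)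
    (he : ∀ x ∉ N.γ.S, ∀ y, N.γ.P (x, y) = 0 → e (N.γ.ω x y) = om m b t (x, y))
    (P Q : ℂ × ℂ) (v : Ix m b → ℂ) (h : Seg m b t P Q v) :
    ∃ l ∈ T.L, e (N.γ.α Q.1 Q.2 - N.γ.α P.1 P.2) - v = e l := by
  obtain ⟨y, hyc, hy0, hy1, hyP, hv⟩ := h
  obtain ⟨hc, hL⟩ := SEB.tSeg T m r t b N hm P.1 Q.1 y hyc.continuousOn
    (fun u hu => ⟨(hyP u hu).1, (hyP u hu).2⟩)
  rw [hy0, hy1] at hL
  refine ⟨_, hL, ?_⟩
  rw [map_sub e (N.γ.α Q.1 Q.2 - N.γ.α P.1 P.2)]
  congr 1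
  funext p
  rw [hv p]
  set L : T.V →L[ℂ] ℂ := LinearMap.toContinuousLinearMap ((LinearMap.proj p).comp e.toLinearMap)
    with hLd
  have hLa : ∀ x, L x = e x p := fun x => rfl
  have hint : IntervalIntegrable
      (fun u : ℝ => (Q.1 - P.1) • N.γ.ω (P.1 + u * (Q.1 - P.1)) (y u)) volume 0 1 := by
    have h1 : ContinuousOn (fun u : ℝ => (Q.1 - P.1) • N.γ.ω (P.1 + u * (Q.1 - P.1)) (y u))
        (Set.uIcc 0 1) := by
      rw [Set.uIcc_of_le zero_le_one]
      exact continuousOn_const.smul hc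
    exact h1.intervalIntegrable
  rw [← hLa, ← ContinuousLinearMap.intervalIntegral_comp_comm L hint]
  refine intervalIntegral.integral_congr ?_
  intro u hu
  rw [Set.uIcc_of_le zero_le_one] at hu
  have h2 := hyP u hu
  have h3 := he (P.1 + u * (Q.1 - P.1)) (by rw [N.S]; exact h2.1) (y u)
    (by rw [N.P, sub_eq_zero]; exact h2.2)
  simp only
  rw [map_smul, hLa, h3, smul_eq_mul]

theorem tLft : S_Lft := by
  intro T m r t b N e hm he P Q v h
  induction h with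
  | refl hP => exact ⟨0, T.L.zero_mem, by simp⟩
  | step h h' ih =>
    obtain ⟨l, hl, h1⟩ := ih
    obtain ⟨l', hl', h2⟩ := Lft_seg T m r t b N e hm he _ _ _ h'
    refine ⟨l + l', T.L.add_mem hl hl', ?_⟩
    rw [map_add, ← h1, ← h2]
    simp only [map_sub]
    abel

end TATE.FA
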