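import Pool.Agent.Lib.TATE.FA.Spec

/-!
# PROJECT TATE, FA, module Li: the frame is a real basis
-/

set_option autoImplicit false

open Topology Metric MeasureTheory

noncomputable section

namespace TATE.FA

open SEJ TATE
open HC.SE (New IsCov)

private lemma Li_meas_frm {k : ℕ} (s : Fin k → ℂ) (μ : Fin k → ℝ) (P : Polynomial ℂ) :
    Measurable (frm s μ P) := by
  unfold frm
  refine P.continuous.measurable.mul ?_
  unfold xi
  exact Finset.measurable_fun_prod _ fun j _ => (measurable_id.sub_const _).pow_const _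

private lemma Li_int_line {k : ℕ} (s : Fin k → ℂ) (μ : Fin k → ℝ)
    (P : Polynomial ℂ) (hG : Good s μ P) (hP : P ≠ 0) (b : ℝ) :
    Integrable (fun a : ℝ => frm s μ P (pt a b)) := by
  obtain ⟨C, d, hd, hds, hC, hb, -⟩ := tC2 s μ P hG hP
  obtain ⟨F, hF, hFb⟩ := tA2 s μ d hG.im hd (fun j => (hG.pos j).le) hG.lt hds
  have hm : Measurable (fun a : ℝ => frm s μ P (pt a b)) := by
    refine (Li_meas_frm s μ P).comp ?_
    unfold pt
    exact (Complex.measurable_ofReal.add_const _)
  refine (hF.const_mul C).mono' hm.aestronglyMeasurable ?_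
  have h3 : ∀ᵐ a : ℝ, ∀ j, a ≠ (s j).re := by
    rw [ae_all_iff]
    intro j
    exact (measure_eq_zero_iff_ae_notMem.mp (measure_singleton (s j).re)).mono
      fun x hx => by simpa using hx
  filter_upwards [h3] with a ha
  exact (hb _).trans (mul_le_mul_of_nonneg_left (hFb a b ha) hC)

/-- the coefficient of a good form at a good index -/
private lemma Li_good {k : ℕ} {s : Fin k → ℂ} {μ : Fin k → ℝ} {P : Polynomial ℂ} (hG : Good s μ P)
    {i : ℕ} (hi : P.coeff i ≠ 0) : Good s μ (Polynomial.X ^ i) where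
  im := hG.im
  pos := hG.pos
  lt := hG.lt
  deg := by
    intro l hl
    rw [Polynomial.coeff_X_pow] at hl
    have : l = i := by
      by_contra h
      exact hl (if_neg h)
    rw [this]
    exact hG.deg i hi

/-- the integral over the ray in terms of monomials -/
private lemma Li_Tp {k : ℕ} (s : Fin k → ℂ) (μ : Fin k → ℝ) (P : Polynomial ℂ) (hG : Good s μ P)
    (j : Fin k) :
    Tp s (frm s μ P) j = ∑ i ∈ P.support, P.coeff i * Tp s (frm s μ (Polynomial.X ^ i)) j := by
  have h1 : ∀ x, frm s μ P x = ∑ i ∈ P.support, P.coeff i * frm s μ (Polynomial.X ^ i) x := by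
    intro x
    unfold frm
    rw [Polynomial.eval_eq_sum, Polynomial.sum, Finset.sum_mul]
    refine Finset.sum_congr rfl fun i _ => ?_
    rw [Polynomial.eval_pow, Polynomial.eval_X]
    ring
  unfold Tp
  simp only [h1]
  rw [integral_finsetSum _ fun i hi => ?_]
  · refine Finset.sum_congr rfl fun i _ => ?_
    rw [integral_const_mul]
  · have hi' := Polynomial.mem_support_iff.1 hi
    exact ((Li_int_line s μ _ (Li_good hG hi') (by simp) _).const_mul _).integrableOn

section main

variable {m r : ℕ} {b : Fin (r + 1) → ℕ} {s : Fin (r + 1) → ℂ}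

private lemma Li_lt (hm : 0 < m) (u i : ℕ) (h : (i : ℝ) + 1 < ∑ j, SEJ.mu m b u j) :
    m * i + ∑ j, (u * b j) % m < m * r := by
  have hmR : (0 : ℝ) < m := Nat.cast_pos.2 hm
  have h1 : ∑ j, SEJ.mu m b u j = ((r : ℝ) + 1) - ((∑ j, (u * b j) % m : ℕ) : ℝ) / m := by
    unfold SEJ.mu
    rw [Finset.sum_sub_distrib, ← Finset.sum_div]
    simp
  rw [h1] at h
  have h2 : ((∑ j, (u * b j) % m : ℕ) : ℝ) / m < (r : ℝ) - i := by linarith
  rw [div_lt_iff₀ hmR] at h2
  have h3 : ((m * i + ∑ j, (u * b j) % m : ℕ) : ℝ) < ((m * r : ℕ) : ℝ) := by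
    push_cast
    push_cast at h2
    linarith
  exact_mod_cast h3

/-- the change of basis -/
private def Li_C (o : ONB m s b) : (Ix m b → ℂ) →ₗ[ℝ] (Ix m b → ℂ) where
  toFun v p := ∑ q : Ix m b, if ch q = ch p then (o.Q p).coeff (ex q) * v q else 0
  map_add' u v := by
    funext p
    rw [Pi.add_apply, ← Finset.sum_add_distrib]
    refine Finset.sum_congr rfl fun q _ => ?_
    split_ifs
    · rw [Pi.add_apply, mul_add]
    · rw [add_zero]
  map_smul' c v := by
    funext p
    rw [Pi.smul_apply, Finset.smul_sum]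
    refine Finset.sum_congr rfl fun q _ => ?_
    rw [RingHom.id_apply]
    split_ifs
    · rw [Pi.smul_apply, mul_smul_comm]
    · rw [smul_zero]

private lemma Li_sum (hm : 0 < m) (o : ONB m s b) (p : Ix m b) (f : ℕ → ℂ) :
    ∑ q : Ix m b, (if ch q = ch p then (o.Q p).coeff (ex q) * f (ex q) else 0) =
      ∑ i ∈ (o.Q p).support, (o.Q p).coeff i * f i := by
  classical
  rw [← Finset.sum_filter]
  have hinj : Set.InjOn (fun q : Ix m b => ex q)
      ((Finset.univ.filter fun q : Ix m b => ch q = ch p : Finset (Ix m b)) : Set (Ix m b)) := by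
    intro q hq q' hq' h
    have h1 : ch q = ch p := (Finset.mem_filter.1 (Finset.mem_coe.1 hq)).2
    have h2 : ch q' = ch p := (Finset.mem_filter.1 (Finset.mem_coe.1 hq')).2
    apply Subtype.ext
    apply Prod.ext
    · exact Fin.ext (h1.trans h2.symm)
    · exact Fin.ext h
  rw [← Finset.sum_image (f := fun i => (o.Q p).coeff i * f i) hinj]
  symm
  apply Finset.sum_subset
  · intro i hi
    have hi' := Polynomial.mem_support_iff.1 hi
    have h1 := Li_lt (b := b) hm (ch p) i ((o.good p).deg i hi')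
    have h2 : i < r := by
      by_contra hcon
      have : m * r ≤ m * i := Nat.mul_le_mul_left m (by omega)
      omega
    rw [Finset.mem_image]
    refine ⟨⟨(p.1.1, ⟨i, h2⟩), p.2.1, h1⟩, ?_, rfl⟩
    rw [Finset.mem_filter]
    exact ⟨Finset.mem_univ _, rfl⟩
  · intro i _ hi
    rw [Polynomial.notMem_support_iff.1 hi, zero_mul]

private lemma Li_fr (hm : 0 < m) (o : ONB m s b) (q : Fin m.totient × Fin r) :
    Li_C o (fr m b s q) = o.w q := by
  funext p
  have h1 : Li_C o (fr m b s q) p = ∑ q' : Ix m b, if ch q' = ch p then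
      (o.Q p).coeff (ex q') * fr m b s q q' else 0 := rfl
  have h2 : ∀ q' : Ix m b, (if ch q' = ch p then (o.Q p).coeff (ex q') * fr m b s q q' else 0) =
      if ch q' = ch p then (o.Q p).coeff (ex q') * (ze m (ch p) ^ (q.1 : ℕ) *
        Tp s (frm s (SEJ.mu m b (ch p)) (Polynomial.X ^ ex q')) q.2.castSucc) else 0 := by
    intro q'
    split_ifs with h
    · unfold fr Zn Am
      rw [h]
    · rfl
  rw [h1, Finset.sum_congr rfl fun q' _ => h2 q',
    Li_sum hm o p fun i => ze m (ch p) ^ (q.1 : ℕ) *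
      Tp s (frm s (SEJ.mu m b (ch p)) (Polynomial.X ^ i)) q.2.castSucc]
  unfold ONB.w ONB.A
  rw [Li_Tp s _ _ (o.good p), Finset.mul_sum]
  refine Finset.sum_congr rfl fun i _ => ?_
  ring

end main

theorem tLi : S_Li := by
  intro m r b s hc hs
  have hm : 0 < m := by
    have := hc.1
    omega
  obtain ⟨o⟩ := onb_ex s b hc hs
  have h1 := onb_li s b hc hs o
  have h2 : o.w = Li_C o ∘ fr m b s := by
    funext q
    exact (Li_fr hm o q).symm
  rw [h2] at h1
  exact LinearIndependent.of_comp (Li_C o) h1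

end TATE.FA
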