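import Pool.Agent.Lib.TATE.FA.Spec

/-!
# PROJECT TATE, package FA: loops
-/

set_option autoImplicit false

open Topology Metric MeasureTheory

noncomputable section

namespace TATE.FA

open SEJ TATE
open SECR (cutp)
open HC (AV)
open HC.SE (New IsCov)

/-- Horizontal segments to the right stay in the cut plane. -/
theorem Lop_hor {r : ℕ} {s : Fin (r + 1) → ℂ} {x : ℂ} (hx : x ∈ cutp s) {z : ℂ}
    (him : z.im = x.im) (hre : x.re ≤ z.re) : z ∈ cutp s := fun j hj =>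
  (hx j (him ▸ hj)).trans_le hre

/-- Coordinates of a point of a segment. -/
theorem Lop_co (z w : ℂ) (u : ℝ) :
    (z + u * (w - z)).re = z.re + u * (w.re - z.re) ∧
      (z + u * (w - z)).im = z.im + u * (w.im - z.im) := by
  constructor
  · simp [Complex.add_re, Complex.mul_re, Complex.sub_re]
  · simp [Complex.add_im, Complex.mul_im, Complex.sub_im]

theorem Lop_big {r : ℕ} (s : Fin (r + 1) → ℂ) (a b : ℝ) :
    ∃ X : ℝ, a ≤ X ∧ b ≤ X ∧ ∀ j, (s j).re < X := by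
  obtain ⟨M, hM⟩ := (Set.finite_range fun j => (s j).re).bddAbove
  refine ⟨max (max a b) (M + 1), le_trans (le_max_left _ _) (le_max_left _ _),
    le_trans (le_max_right _ _) (le_max_left _ _), fun j => ?_⟩
  have h1 : (s j).re ≤ M := hM ⟨j, rfl⟩
  have h2 : M + 1 ≤ max (max a b) (M + 1) := le_max_right _ _
  linarith

theorem Lop_Zn_add (m : ℕ) {r : ℕ} (b : Fin (r + 1) → ℕ) (f : ℕ) (v w : Ix m b → ℂ) :
    Zn m b f v + Zn m b f w = Zn m b f (v + w) := by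
  funext p
  simp only [Zn, Pi.add_apply]
  ring

/-- Part one. -/
theorem Lop_one (hAlg : S_Alg) (hItc : S_Itc) (m r : ℕ) (b : Fin (r + 1) → ℕ)
    (s : Fin (r + 1) → ℂ) (hc : IsCov m s b) (hs : Up s) (f : ℕ) (x : ℂ) (hx : x ∈ cutp s) (x' : ℂ)
    (hx' : x' ∈ cutp s) :
    Itg m b s (pf m b s f x) (pf m b s f x') (Zn m b f (Fm m b s x' - Fm m b s x)) := by
  obtain ⟨hSeg, hRev, hTr, -⟩ := hAlg m r b s (le_trans (by norm_num) hc.1)
  obtain ⟨X, hX1, hX2, hXs⟩ := Lop_big s x.re x'.re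
  have e1 : Itg m b s (pf m b s f x) (pf m b s f ⟨X, x.im⟩)
      (Zn m b f (Fm m b s ⟨X, x.im⟩ - Fm m b s x)) := by
    refine (hSeg _ _ _ (hItc m r b s hc hs f x ⟨X, x.im⟩ fun u hu => ?_)).2.2.2
    obtain ⟨h1, h2⟩ := Lop_co x ⟨X, x.im⟩ u
    refine Lop_hor hx ?_ ?_
    · rw [h2]
      simp
    · rw [h1]
      have : 0 ≤ u * (X - x.re) := mul_nonneg hu.1 (by linarith)
      simpa using this
  have e2 : Itg m b s (pf m b s f ⟨X, x.im⟩) (pf m b s f ⟨X, x'.im⟩)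
      (Zn m b f (Fm m b s ⟨X, x'.im⟩ - Fm m b s ⟨X, x.im⟩)) := by
    refine (hSeg _ _ _ (hItc m r b s hc hs f ⟨X, x.im⟩ ⟨X, x'.im⟩ fun u hu j _ => ?_)).2.2.2
    obtain ⟨h1, h2⟩ := Lop_co ⟨X, x.im⟩ ⟨X, x'.im⟩ u
    rw [h1]
    simpa using hXs j
  have e3 : Itg m b s (pf m b s f ⟨X, x'.im⟩) (pf m b s f x')
      (Zn m b f (Fm m b s x' - Fm m b s ⟨X, x'.im⟩)) := by
    refine (hSeg _ _ _ (hItc m r b s hc hs f ⟨X, x'.im⟩ x' fun u hu => ?_)).2.2.2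
    obtain ⟨h1, h2⟩ := Lop_co ⟨X, x'.im⟩ x' u
    refine Lop_hor hx' ?_ ?_
    · rw [h2]
      simp
    · rw [h1]
      have : 0 ≤ (1 - u) * (X - x'.re) := mul_nonneg (by linarith [hu.2]) (by linarith)
      simp only
      nlinarith
  have e4 := hTr _ _ _ _ _ (hTr _ _ _ _ _ e1 e2) e3
  rw [Lop_Zn_add, Lop_Zn_add] at e4
  rwa [show Fm m b s ⟨X, x.im⟩ - Fm m b s x + (Fm m b s ⟨X, x'.im⟩ - Fm m b s ⟨X, x.im⟩) +
    (Fm m b s x' - Fm m b s ⟨X, x'.im⟩) = Fm m b s x' - Fm m b s x by abel] at e4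

theorem tLop (hAlg : S_Alg) (hItc : S_Itc) (hCrx : S_Crx) : S_Lop := by
  intro m r b s hc hs
  refine ⟨fun f x hx x' hx' => Lop_one hAlg hItc m r b s hc hs f x hx x' hx', ?_⟩
  intro f k x hx
  obtain ⟨hSeg, hRev, hTr, -⟩ := hAlg m r b s (le_trans (by norm_num) hc.1)
  obtain ⟨ε, hε, hh⟩ := hCrx m r b s hc hs k (s k - 1) (by simp) (by simp)
  obtain ⟨hp, hn, hS⟩ := hh (ε / 2) (by linarith) (by linarith)
  have e1 := Lop_one hAlg hItc m r b s hc hs f x hx _ hp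
  have e2 := (hSeg _ _ _ (hS f)).2.2.2
  have e3 := Lop_one hAlg hItc m r b s hc hs (f + b k) _ hn x hx
  have e4 := hTr _ _ _ _ _ (hTr _ _ _ _ _ e1 e2) e3
  have key : ∀ Fp Fn Fx P : Ix m b → ℂ,
      Zn m b f (Fp - Fx) + Zn m b f (Zn m b (b k) Fn + (P - Zn m b (b k) P) - Fp) +
        Zn m b (f + b k) (Fx - Fn) = Zn m b f ((P - Fx) - Zn m b (b k) (P - Fx)) := by
    intro Fp Fn Fx P
    funext p
    simp only [Zn, Pi.add_apply, Pi.sub_apply, pow_add]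
    ring
  rw [key] at e4
  exact e4

end TATE.FA
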