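import Pool.Agent.Lib.TATE.FA.Spec

/-!
# PROJECT TATE, FA/Lq: the rational lattice is a `ℚ[Z]`-module
-/

set_option autoImplicit false

open Topology Metric MeasureTheory

noncomputable section

namespace TATE.FA

open SEJ TATE

theorem Lq_sum (ω : ℂ) (M : ℕ) :
    ∑ j ∈ Finset.range M, (j : ℂ) * ω ^ j * (1 - ω) =
      (∑ j ∈ Finset.range M, ω ^ j) * ω - M * ω ^ M := by
  induction M with
  | zero => simp
  | succ M ih =>
    rw [Finset.sum_range_succ, Finset.sum_range_succ, ih]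
    push_cast
    ring

theorem Lq_sum' {ω : ℂ} {m : ℕ} (h1 : ω ^ m = 1) (h2 : ω ≠ 1) :
    ∑ j ∈ Finset.range m, (j : ℂ) * ω ^ j * (1 - ω) = -m := by
  have h3 : ∑ j ∈ Finset.range m, ω ^ j = 0 := by
    have h4 := mul_geom_sum ω m
    rw [h1, sub_self, mul_eq_zero] at h4
    rcases h4 with h4 | h4
    · exact absurd (sub_eq_zero.mp h4) h2
    · exact h4
  rw [Lq_sum, h3, h1]
  ring

theorem Lq_zepow (m u : ℕ) (hm : m ≠ 0) : ze m u ^ m = 1 := by
  unfold ze
  rw [← Complex.exp_nat_mul, Complex.exp_eq_one_iff]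
  refine ⟨u, ?_⟩
  have hm' : (m : ℂ) ≠ 0 := Nat.cast_ne_zero.mpr hm
  push_cast
  field_simp

theorem Lq_zene {m u n : ℕ} (hm : m ≠ 0) (hu : u.Coprime m) (hn : ¬ m ∣ n) : ze m u ^ n ≠ 1 := by
  intro h
  have hp : IsPrimitiveRoot (ze m u) m := by
    have h0 := Complex.isPrimitiveRoot_exp_of_coprime u m hm hu
    have h1 : ze m u = Complex.exp (2 * Real.pi * Complex.I * ((u : ℂ) / m)) := by
      unfold ze
      congr 1
      ring
    rw [h1]
    exact h0
  exact hn ((hp.pow_eq_one_iff_dvd n).mp h)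

section

variable {m r : ℕ} {b : Fin (r + 1) → ℕ} {t : Fin (r + 1) → ℂ}

theorem Lq_pt (hm : m ≠ 0) : ∃ P, P ∈ Pts m b t := by
  obtain ⟨x, hx⟩ := (Set.finite_range t).exists_notMem
  obtain ⟨y, hy⟩ := IsAlgClosed.exists_pow_nat_eq (∏ j, (x - t j) ^ b j) (Nat.pos_of_ne_zero hm)
  exact ⟨(x, y), hx, hy⟩

theorem Lq_mul (hA : ∀ P Q R v w, Itg m b t P Q v → Itg m b t Q R w → Itg m b t P R (v + w))
    {P : ℂ × ℂ} (hP : P ∈ Pts m b t) {v : Ix m b → ℂ} (hv : Itg m b t P P v) (n : ℕ) :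
    Itg m b t P P (n • v) := by
  induction n with
  | zero =>
    rw [zero_smul]
    exact Itg.refl P hP
  | succ n ih =>
    rw [succ_nsmul]
    exact hA _ _ _ _ _ ih hv

end

theorem tLq (hAlg : S_Alg) : S_Lq := by
  intro m r b t hm hcon
  obtain ⟨-, hrev, hcat, hsh⟩ := hAlg m r b t hm
  have hm0 : m ≠ 0 := by omega
  have hadd : ∀ u ∈ LQ m b t, ∀ v ∈ LQ m b t, u + v ∈ LQ m b t := by
    rintro u ⟨k, hk, P, hu⟩ v ⟨l, hl, Q, hv⟩
    have hP := (hrev P P _ hu).1
    have hQ := (hrev Q Q _ hv).1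
    obtain ⟨w, hw⟩ := hcon P hP Q hQ
    have hw' := (hrev P Q w hw).2.2
    have h1 : Itg m b t P P (l • v) := by
      have h2 := hcat _ _ _ _ _ (hcat _ _ _ _ _ hw hv) hw'
      have h3 : w + l • v + -w = l • v := by abel
      rwa [h3] at h2
    have h4 := hcat _ _ _ _ _ (Lq_mul hcat hP hu l) (Lq_mul hcat hP h1 k)
    refine ⟨k * l, mul_ne_zero hk hl, P, ?_⟩
    have h5 : l • k • u + k • l • v = (k * l) • (u + v) := by
      rw [smul_add, mul_smul, mul_smul, smul_comm l k u]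
    rwa [h5] at h4
  have hrat : ∀ (x : ℚ), ∀ v ∈ LQ m b t, ((x : ℝ) : ℂ) • v ∈ LQ m b t := by
    rintro x v ⟨k, hk, P, hv⟩
    have hP := (hrev P P _ hv).1
    refine ⟨k * x.den, mul_ne_zero hk x.den_nz, P, ?_⟩
    have h1 : (k * x.den) • (((x : ℝ) : ℂ) • v) = x.num • k • v := by
      have h2 : ((x.den : ℕ) : ℂ) * ((x : ℝ) : ℂ) = (x.num : ℂ) := by
        have h3 : (x.den : ℚ) * x = x.num := by
          rw [mul_comm]
          exact Rat.mul_den_eq_num x
        have h4 : ((x.den : ℚ) * x : ℂ) = ((x.num : ℚ) : ℂ) := by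
          rw [← h3]
          push_cast
          rfl
        push_cast at h4 ⊢
        exact h4
      funext p
      simp only [nsmul_eq_mul, zsmul_eq_mul, Pi.smul_apply, Pi.mul_apply, Pi.natCast_apply,
        smul_eq_mul]
      rw [← h2]
      push_cast
      ring
    rw [h1]
    rcases Int.eq_nat_or_neg x.num with ⟨n, hn | hn⟩
    · rw [hn, natCast_zsmul]
      exact Lq_mul hcat hP hv n
    · rw [hn, neg_smul, natCast_zsmul]
      exact (hrev _ _ _ (Lq_mul hcat hP hv n)).2.2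
  have hzn : ∀ n : ℕ, ∀ v ∈ LQ m b t, Zn m b n v ∈ LQ m b t := by
    rintro n v ⟨k, hk, P, hv⟩
    refine ⟨k, hk, (P.1, ze m 1 ^ n * P.2), ?_⟩
    have h1 := hsh P P (k • v) n hv
    have h2 : Zn m b n (k • v) = k • Zn m b n v := by
      funext p
      simp only [Zn, Pi.smul_apply, nsmul_eq_mul]
      ring
    rw [h2] at h1
    exact h1
  have h0 : (0 : Ix m b → ℂ) ∈ LQ m b t := by
    obtain ⟨P, hP⟩ := Lq_pt (b := b) (t := t) hm0
    refine ⟨1, one_ne_zero, P, ?_⟩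
    rw [smul_zero]
    exact Itg.refl P hP
  refine ⟨h0, hadd, hrat, hzn, ?_, ?_⟩
  · intro P Q v w hv hw
    refine ⟨1, one_ne_zero, P, ?_⟩
    rw [one_smul, sub_eq_add_neg]
    exact hcat _ _ _ _ _ hv (hrev _ _ _ hw).2.2
  · intro n hn v hw
    have hsum : ∀ (S : Finset ℕ) (f : ℕ → (Ix m b → ℂ)), (∀ j ∈ S, f j ∈ LQ m b t) →
        ∑ j ∈ S, f j ∈ LQ m b t := by
      intro S f hf
      classical
      induction S using Finset.induction_on with
      | empty =>
        rw [Finset.sum_empty]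
        exact h0
      | insert a S ha ih =>
        rw [Finset.sum_insert ha]
        exact hadd _ (hf a (Finset.mem_insert_self a S)) _
          (ih fun j hj => hf j (Finset.mem_insert_of_mem hj))
    have h1 : v = ∑ j ∈ Finset.range m, (((-(j / m : ℚ) : ℚ) : ℝ) : ℂ) •
        Zn m b (n * j) (v - Zn m b n v) := by
      funext p
      have hp1 : (ze m (ch p) ^ n) ^ m = 1 := by
        rw [← pow_mul, mul_comm, pow_mul, Lq_zepow m _ hm0, one_pow]
      have hp2 : ze m (ch p) ^ n ≠ 1 := Lq_zene hm0 p.2.1 hn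
      have h2 := Lq_sum' hp1 hp2
      have hmc : (m : ℂ) ≠ 0 := Nat.cast_ne_zero.mpr hm0
      rw [Finset.sum_apply]
      have h3 : ∀ j ∈ Finset.range m, ((((-(j / m : ℚ) : ℚ) : ℝ) : ℂ) •
          Zn m b (n * j) (v - Zn m b n v)) p =
          (-(v p / m)) * ((j : ℂ) * (ze m (ch p) ^ n) ^ j * (1 - ze m (ch p) ^ n)) := by
        intro j _
        simp only [Pi.smul_apply, Zn, Pi.sub_apply, smul_eq_mul, pow_mul]
        push_cast
        ring
      rw [Finset.sum_congr rfl h3, ← Finset.mul_sum, h2]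
      field_simp
    rw [h1]
    exact hsum _ _ fun j _ => hrat _ _ (hzn _ _ hw)

end TATE.FA
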