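import Pool.Agent.Lib.TATE.FA.Spec2

/-!
# PROJECT TATE, FA/Lzc: the periods in a chart are the closed words
-/

set_option autoImplicit false

open Topology Metric MeasureTheory

noncomputable section

namespace TATE.FA

open SEJ TATE
open SECR (cutp)

theorem Lzc_zepow (m u : ℕ) (hm : m ≠ 0) : ze m u ^ m = 1 := by
  unfold ze
  rw [← Complex.exp_nat_mul, Complex.exp_eq_one_iff]
  refine ⟨u, ?_⟩
  have hm' : (m : ℂ) ≠ 0 := Nat.cast_ne_zero.mpr hm
  push_cast
  field_simp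

theorem Lzc_zemod {m : ℕ} (u : ℕ) (hm : m ≠ 0) {f g : ℕ} (h : f ≡ g [MOD m]) :
    ze m u ^ f = ze m u ^ g := by
  have h1 : ∀ f : ℕ, ze m u ^ f = ze m u ^ (f % m) := by
    intro f
    conv_lhs => rw [← Nat.div_add_mod f m]
    rw [pow_add, pow_mul, Lzc_zepow m u hm, one_pow, one_mul]
  rw [h1 f, h1 g, h]

section

variable {m r : ℕ} {b : Fin (r + 1) → ℕ}

theorem Lzc_Zn (hm : m ≠ 0) {f g : ℕ} (h : f ≡ g [MOD m]) (v : Ix m b → ℂ) :
    Zn m b f v = Zn m b g v := by
  funext p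
  unfold Zn
  rw [Lzc_zemod _ hm h]

theorem Lzc_trans {t : Fin (r + 1) → ℂ} {P Q R : ℂ × ℂ} {v w : Ix m b → ℂ}
    (h : Itg m b t P Q v) (h' : Itg m b t Q R w) : Itg m b t P R (v + w) := by
  induction h' with
  | refl _ =>
    rw [add_zero]
    exact h
  | step _ h2 ih =>
    rw [← add_assoc]
    exact Itg.step ih h2

theorem Lzc_cut (s : Fin (r + 1) → ℂ) : ∃ x : ℂ, x ∈ cutp s := by
  obtain ⟨y, hy⟩ := (Set.finite_range fun j => (s j).im).exists_notMem
  refine ⟨⟨0, y⟩, fun j hj => ?_⟩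
  exact absurd ⟨j, hj.symm⟩ hy

/-- The words are integrals. -/
theorem Lzc_word {s : Fin (r + 1) → ℂ} (x : ℂ)
    (h0 : Itg m b s (pf m b s 0 x) (pf m b s 0 x) (Zn m b 0 (Fm m b s x - Fm m b s x)))
    (h1 : ∀ (f : ℕ) (k : Fin (r + 1)), Itg m b s (pf m b s f x) (pf m b s (f + b k) x)
        (Zn m b f ((Pm m b s k - Fm m b s x) - Zn m b (b k) (Pm m b s k - Fm m b s x))))
    {f : ℕ} {v : Ix m b → ℂ} (hw : Wr m b (Pm m b s) f v) :
    Itg m b s (pf m b s 0 x) (pf m b s f x) (v + (Zn m b f (Fm m b s x) - Fm m b s x)) := by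
  induction hw with
  | nil =>
    have h : (0 : Ix m b → ℂ) + (Zn m b 0 (Fm m b s x) - Fm m b s x) =
        Zn m b 0 (Fm m b s x - Fm m b s x) := by
      funext p
      simp [Zn]
    rw [h]
    exact h0
  | @up f v k _ ih =>
    have h := Lzc_trans ih (h1 f k)
    have h2 : v + (Zn m b f (Fm m b s x) - Fm m b s x) +
        Zn m b f ((Pm m b s k - Fm m b s x) - Zn m b (b k) (Pm m b s k - Fm m b s x)) =
        v + Zn m b f (Pm m b s k - Zn m b (b k) (Pm m b s k)) +
          (Zn m b (f + b k) (Fm m b s x) - Fm m b s x) := by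
      funext p
      simp only [Zn, Pi.add_apply, Pi.sub_apply, pow_add]
      ring
    rw [← h2]
    exact h

end

theorem tLzc : S_Lop → S_Wrd → S_Lfg → S_Alp → S_Lzc := by
  intro hLop hWrd hLfg hAlp m r b s hc hs
  have hm3 : 3 ≤ m := hc.1
  have hm1 : 1 ≤ m := by omega
  have hm0 : m ≠ 0 := by omega
  obtain ⟨-, -, hz0, hzadd, hzneg, hzsub, hgcd, -⟩ := hWrd m r b (Pm m b s) hm1
  apply Set.Subset.antisymm
  · -- every period is a closed word
    rintro v ⟨P, hP⟩
    let Λ : AddSubgroup (Ix m b → ℂ) :=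
      { carrier := Wz m b (Pm m b s)
        zero_mem' := hz0
        add_mem' := fun {u v} hu hv => hzadd u hu v hv
        neg_mem' := fun {u} hu => hzneg u hu }
    choose g C hg hC using hgcd hc.2.2.2.2
    have hL : ∀ f f' k, f' ≡ f + b k [MOD m] →
        C f' - C f - Zn m b f (Pm m b s k - Zn m b (b k) (Pm m b s k)) ∈ Λ := by
      intro f f' k h
      have h1 := Wr.up k (hC f)
      have h2 : g f' ≡ g f + b k [MOD m] :=
        (hg f').trans (h.trans ((hg f).symm.add_right (b k)))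
      have h3 := hzsub _ _ _ _ (hC f') h1 h2
      rw [Lzc_Zn hm0 (hg f), ← sub_sub] at h3
      exact h3
    obtain ⟨a, ha⟩ := hAlp m r b s hc hs Λ C hL
    have h := hLfg m r b s hm1 Λ a ha P P v hP
    rw [sub_self, zero_sub] at h
    have h' := Λ.neg_mem h
    rw [neg_neg] at h'
    exact h'
  · -- every closed word is a period
    rintro v ⟨f, hf, hv⟩
    obtain ⟨x, hx⟩ := Lzc_cut s
    obtain ⟨hL1, hL2⟩ := hLop m r b s hc hs
    have h := Lzc_word x (hL1 0 x hx x hx) (fun f k => hL2 f k x hx) hv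
    have hf0 : f ≡ 0 [MOD m] := (Nat.modEq_zero_iff_dvd).2 hf
    have h1 : pf m b s f x = pf m b s 0 x := by
      unfold pf
      rw [Lzc_zemod 1 hm0 hf0]
    have h2 : Zn m b f (Fm m b s x) - Fm m b s x = 0 := by
      rw [Lzc_Zn hm0 hf0]
      funext p
      simp [Zn]
    rw [h1, h2, add_zero] at h
    exact ⟨_, h⟩

end TATE.FA
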