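import Pool.Agent.Lib.TATE.FA.Spec2

/-!
# PROJECT TATE, package FA: the periods `LZ` form a group
-/

set_option autoImplicit false

open Topology Metric MeasureTheory

noncomputable section

namespace TATE.FA

open SEJ TATE

theorem Lzg_point (m r : ℕ) (b : Fin (r + 1) → ℕ) (t : Fin (r + 1) → ℂ) (hm : 1 ≤ m) :
    ∃ P, P ∈ Pts m b t := by
  have hf : (Set.range t).Finite := Set.finite_range t
  obtain ⟨x, hx⟩ := hf.infinite_compl.nonempty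
  obtain ⟨y, hy⟩ := IsAlgClosed.exists_pow_nat_eq (∏ j, (x - t j) ^ b j)
    (show 0 < m from lt_of_lt_of_le Nat.zero_lt_one hm)
  exact ⟨(x, y), hx, hy⟩

theorem tLzg : S_Alg → S_Lzg := by
  intro hAlg m r b t hm hcon
  obtain ⟨-, h2, h3, h4⟩ := hAlg m r b t hm
  refine ⟨?_, ?_, ?_, ?_, ?_⟩
  · obtain ⟨P, hP⟩ := Lzg_point m r b t hm
    exact ⟨P, Itg.refl P hP⟩
  · rintro u ⟨P, hP⟩ v ⟨Q, hQ⟩
    obtain ⟨v0, hv0⟩ := hcon P (h2 P P u hP).1 Q (h2 Q Q v hQ).1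
    have e1 := h3 P P Q u v0 hP hv0
    have e2 := h3 P Q Q (u + v0) v e1 hQ
    have e3 := h3 P Q P (u + v0 + v) (-v0) e2 (h2 P Q v0 hv0).2.2
    refine ⟨P, ?_⟩
    have e4 : u + v0 + v + -v0 = u + v := by abel
    rwa [e4] at e3
  · rintro v ⟨P, hP⟩
    exact ⟨P, (h2 P P v hP).2.2⟩
  · rintro n v ⟨P, hP⟩
    exact ⟨_, h4 P P v n hP⟩
  · intro P Q v w hv hw
    refine ⟨P, ?_⟩
    rw [sub_eq_add_neg]
    exact h3 P Q P v (-w) hv (h2 P Q w hw).2.2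

end TATE.FA
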