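import Pool.Agent.Lib.TATE.FA.Spec2
import Pool.Agent.Lib.SE.CR.Al
import Pool.Agent.Lib.TATE.FA.Cyc

/-!
# TATE, FA: `P_k` and `Z` in the frame have constant rational coordinates (helper48)
-/

set_option autoImplicit false

open Topology Metric MeasureTheory

noncomputable section

namespace TATE.FA

open SEJ TATE
open SECR (cutp)
open HC (AV)
open HC.SE (New IsCov)

section pk

variable {m r : ℕ} {b : Fin (r + 1) → ℕ} {s : Fin (r + 1) → ℂ}

private theorem Pk_pow (hm : m ≠ 0) (u : ℕ) : ze m u ^ m = 1 := by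
  unfold ze
  rw [← Complex.exp_nat_mul, Complex.exp_eq_one_iff]
  refine ⟨u, ?_⟩
  have : (m : ℂ) ≠ 0 := Nat.cast_ne_zero.mpr hm
  field_simp
  push_cast
  ring

private theorem Pk_inv (hm : m ≠ 0) (u n : ℕ) : ze m u ^ ((m - 1) * n) = (ze m u ^ n)⁻¹ := by
  refine eq_inv_of_mul_eq_one_left ?_
  rw [← pow_add]
  have h : (m - 1) * n + n = m * n := by
    obtain ⟨k, rfl⟩ := Nat.exists_eq_succ_of_ne_zero hm
    simp only [Nat.succ_eq_add_one, Nat.add_sub_cancel]
    ring
  rw [h, pow_mul, Pk_pow hm, one_pow]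

/-- `P_k` in terms of the `A_l`. -/
private theorem Pk_P (hc : IsCov m s b) (hs : Up s) (k : Fin (r + 1)) (p : Ix m b) :
    Pm m b s k p = Am m b s k p + ∑ l ∈ Finset.Ioi k,
      (1 - ze m (ch p) ^ ((m - 1) * b l)) * Am m b s l p := by
  have hm : m ≠ 0 := by
    have := hc.1
    omega
  obtain ⟨-, h2, -, -, -, -, -, -, -, h3⟩ := tN0 s b hc (ch p) p.1.1.2 p.2.1
  have h4 := xE2 s _ _ (h3 hs (ex p) p.2.2) k
  change Pp s (frm s (SEJ.mu m b (ch p)) (Polynomial.X ^ ex p)) k = _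
  rw [h4]
  change _ = Tp s (frm s (SEJ.mu m b (ch p)) (Polynomial.X ^ ex p)) k + _
  congr 1
  refine Finset.sum_congr rfl fun l _ => ?_
  rw [h2 l]
  change _ = (1 - ze m (ch p) ^ ((m - 1) * b l)) *
    Tp s (frm s (SEJ.mu m b (ch p)) (Polynomial.X ^ ex p)) l
  rw [Pk_inv hm]

/-- The relation between the `A_l`. -/
private theorem Pk_A (hc : IsCov m s b) (hs : Up s) (p : Ix m b) :
    ∑ l, (1 - ze m (ch p) ^ ((m - 1) * b l)) * Am m b s l p = 0 := by
  have hm : m ≠ 0 := by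
    have := hc.1
    omega
  obtain ⟨-, h2, -, -, -, -, -, -, -, h3⟩ := tN0 s b hc (ch p) p.1.1.2 p.2.1
  have h4 := xE1 s _ _ (h3 hs (ex p) p.2.2)
  rw [← h4]
  refine Finset.sum_congr rfl fun l _ => ?_
  rw [h2 l]
  change (1 - ze m (ch p) ^ ((m - 1) * b l)) *
    Tp s (frm s (SEJ.mu m b (ch p)) (Polynomial.X ^ ex p)) l = _
  rw [Pk_inv hm]

private theorem Pk_sum (w : ℂ) (n : ℕ) : (∑ j ∈ Finset.range n, (j : ℂ) * w ^ j) * (1 - w) =
    ∑ j ∈ Finset.range (n + 1), w ^ j - 1 - n * w ^ n := by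
  induction n with
  | zero => simp
  | succ n ih =>
    rw [Finset.sum_range_succ, add_mul, ih, Finset.sum_range_succ (fun j => w ^ j) (n + 1)]
    push_cast
    ring

private theorem Pk_one (hm : m ≠ 0) (w : ℂ) (hw : w ^ m = 1) (h1 : w ≠ 1) :
    (-(1 / (m : ℂ)) * ∑ j ∈ Finset.range m, (j : ℂ) * w ^ j) * (1 - w) = 1 := by
  have h2 : ∑ j ∈ Finset.range m, w ^ j = 0 := by
    have h3 := geom_sum_mul w m
    rw [hw, sub_self] at h3
    exact (mul_eq_zero.1 h3).resolve_right (sub_ne_zero.2 h1)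
  have h4 : (m : ℂ) ≠ 0 := Nat.cast_ne_zero.mpr hm
  rw [mul_assoc, Pk_sum, Finset.sum_range_succ, h2, hw]
  field_simp
  ring_nf

/-- The polynomial inverse of `1 - X ^ n`. -/
private def Pk_M (m n : ℕ) : Polynomial ℚ :=
  Polynomial.C (-(1 / (m : ℚ))) * ∑ j ∈ Finset.range m, Polynomial.C (j : ℚ) *
    (Polynomial.X ^ n) ^ j

private theorem Pk_Mz (m n : ℕ) (z : ℂ) : Polynomial.aeval z (Pk_M m n) =
    -(1 / (m : ℂ)) * ∑ j ∈ Finset.range m, (j : ℂ) * (z ^ n) ^ j := by
  unfold Pk_M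
  simp only [map_mul, map_sum, Polynomial.aeval_C, map_pow, Polynomial.aeval_X]
  congr 1
  simp

/-- The coefficients over all the `A_l`. -/
private def Pk_L (m : ℕ) {r : ℕ} (b : Fin (r + 1) → ℕ) (k l : Fin (r + 1)) : Polynomial ℚ :=
  if l = k then 1 else if k < l then 1 - Polynomial.X ^ ((m - 1) * b l) else 0

private theorem Pk_PL (hc : IsCov m s b) (hs : Up s) (k : Fin (r + 1)) (p : Ix m b) :
    Pm m b s k p = ∑ l, Polynomial.aeval (ze m (ch p)) (Pk_L m b k l) * Am m b s l p := by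
  have h1 : ∀ l, Polynomial.aeval (ze m (ch p)) (Pk_L m b k l) * Am m b s l p =
      (if l = k then Am m b s l p else 0) +
      if l ∈ Finset.Ioi k then (1 - ze m (ch p) ^ ((m - 1) * b l)) * Am m b s l p else 0 := by
    intro l
    unfold Pk_L
    rcases eq_or_ne l k with h | h
    · subst h
      simp
    · rw [if_neg h, if_neg h, zero_add]
      by_cases h' : k < l
      · rw [if_pos h', if_pos (Finset.mem_Ioi.2 h')]
        simp
      · rw [if_neg h', if_neg (fun h3 => h' (Finset.mem_Ioi.1 h3))]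
        simp
  rw [Pk_P hc hs k p, Finset.sum_congr rfl fun l _ => h1 l, Finset.sum_add_distrib,
    Finset.sum_ite_eq' Finset.univ k, if_pos (Finset.mem_univ k), Finset.sum_ite_mem,
    Finset.univ_inter]

/-- The last `A`. -/
private theorem Pk_last (hc : IsCov m s b) (hs : Up s) (p : Ix m b) :
    Am m b s (Fin.last r) p = ∑ l : Fin r,
      Polynomial.aeval (ze m (ch p)) (-(Pk_M m ((m - 1) * b (Fin.last r))) *
        (1 - Polynomial.X ^ ((m - 1) * b l.castSucc))) * Am m b s l.castSucc p := by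
  have hm : m ≠ 0 := by
    have := hc.1
    omega
  have h1 := Pk_A hc hs p
  rw [Fin.sum_univ_castSucc] at h1
  have hz : IsPrimitiveRoot (ze m (ch p)) m := Cyc_prim m (ch p) hm p.2.1
  have hw : (ze m (ch p) ^ ((m - 1) * b (Fin.last r))) ^ m = 1 := by
    rw [← pow_mul, mul_comm, pow_mul, Pk_pow hm, one_pow]
  have hw1 : ze m (ch p) ^ ((m - 1) * b (Fin.last r)) ≠ 1 := by
    rw [Pk_inv hm]
    intro h
    rw [inv_eq_one] at h
    exact hc.2.2.1 (Fin.last r) (hz.dvd_of_pow_eq_one _ h)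
  have h2 := Pk_one hm _ hw hw1
  rw [← Pk_Mz m ((m - 1) * b (Fin.last r)) (ze m (ch p))] at h2
  have h3 : ∀ l : Fin r, Polynomial.aeval (ze m (ch p)) (-(Pk_M m ((m - 1) * b (Fin.last r))) *
        (1 - Polynomial.X ^ ((m - 1) * b l.castSucc))) * Am m b s l.castSucc p =
      -Polynomial.aeval (ze m (ch p)) (Pk_M m ((m - 1) * b (Fin.last r))) *
        ((1 - ze m (ch p) ^ ((m - 1) * b l.castSucc)) * Am m b s l.castSucc p) := by
    intro l
    simp only [map_mul, map_neg, map_sub, map_one, map_pow, Polynomial.aeval_X]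
    ring
  rw [Finset.sum_congr rfl fun l _ => h3 l, ← Finset.mul_sum]
  have h4 := eq_neg_of_add_eq_zero_left h1
  rw [h4]
  linear_combination -(Am m b s (Fin.last r) p) * h2

/-- The coefficients over the `A_l`, `l < r`. -/
private def Pk_K (m : ℕ) {r : ℕ} (b : Fin (r + 1) → ℕ) (k : Fin (r + 1)) (l : Fin r) :
    Polynomial ℚ :=
  Pk_L m b k l.castSucc + Pk_L m b k (Fin.last r) * (-(Pk_M m ((m - 1) * b (Fin.last r))) *
    (1 - Polynomial.X ^ ((m - 1) * b l.castSucc)))

private theorem Pk_main (hc : IsCov m s b) (hs : Up s) (k : Fin (r + 1)) :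
    Pm m b s k = ∑ l : Fin r, (fun p => Polynomial.aeval (ze m (ch p)) (Pk_K m b k l) *
      Am m b s l.castSucc p) := by
  funext p
  rw [Pk_PL hc hs k p, Fin.sum_univ_castSucc, Finset.sum_apply, Pk_last hc hs p,
    Finset.mul_sum, ← Finset.sum_add_distrib]
  refine Finset.sum_congr rfl fun l _ => ?_
  unfold Pk_K
  rw [map_add, map_mul _ (Pk_L m b k (Fin.last r)), add_mul]
  ring

end pk

theorem tPk : S_Cyc → S_Pk := by
  intro hCyc m r b hb
  have hm1 : 1 ≤ m := by
    have := hb.1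
    omega
  constructor
  · have h1 : ∀ (k : Fin (r + 1)) (l : Fin r), ∃ κ : Fin m.totient → ℚ, ∀ v : Ix m b → ℂ,
        (fun p => (Polynomial.aeval (ze m (ch p)) (Pk_K m b k l)) * v p) =
          ∑ a, ((κ a : ℝ) : ℂ) • Zn m b a v := fun k l => hCyc m r b hm1 _
    choose κ hκ using h1
    refine ⟨fun k q => κ k q.2 q.1, ?_⟩
    intro s hs k
    have hinj : Function.Injective s := by
      intro i j hij
      exact hs.injective (congrArg Complex.im hij)
    have hc : IsCov m s b := ⟨hb.1, hinj, hb.2.1, hb.2.2.1, hb.2.2.2⟩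
    rw [Pk_main hc hs k, Fintype.sum_prod_type_right]
    refine Finset.sum_congr rfl fun l _ => ?_
    exact hκ k l _
  · have h1 : ∀ (a : Fin m.totient), ∃ κ : Fin m.totient → ℚ, ∀ v : Ix m b → ℂ,
        (fun p => (Polynomial.aeval (ze m (ch p)) ((Polynomial.X : Polynomial ℚ) ^ (a.1 + 1))) *
          v p) =
          ∑ a, ((κ a : ℝ) : ℂ) • Zn m b a v := fun a => hCyc m r b hm1 _
    choose κ hκ using h1
    refine ⟨fun q q' => if q'.2 = q.2 then κ q.1 q'.1 else 0, ?_⟩
    intro s q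
    have h2 : Zd m b (fr m b s q) = (fun p => (Polynomial.aeval (ze m (ch p))
        ((Polynomial.X : Polynomial ℚ) ^ (q.1.1 + 1))) * Am m b s q.2.castSucc p) := by
      funext p
      change ze m (ch p) * (ze m (ch p) ^ (q.1 : ℕ) * Am m b s q.2.castSucc p) =
        (Polynomial.aeval (ze m (ch p)) ((Polynomial.X : Polynomial ℚ) ^ (q.1.1 + 1))) *
          Am m b s q.2.castSucc p
      rw [map_pow, Polynomial.aeval_X, pow_succ]
      ring
    rw [h2, hκ q.1 (Am m b s q.2.castSucc), Fintype.sum_prod_type]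
    refine Finset.sum_congr rfl fun a _ => ?_
    rw [Finset.sum_eq_single q.2]
    · simp only [if_true]
      rfl
    · intro l _ hl
      simp only [if_neg hl]
      simp
    · intro h
      exact absurd (Finset.mem_univ _) h

end TATE.FA
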