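import Pool.Agent.Lib.TATE.FA.Spec

/-!
# TATE/FA/Pri: the integrals along polygons depend holomorphically on parameters

Induction on the polygon; the intermediate points are moved by local branches of `y`.
-/

set_option autoImplicit false

open Topology Metric MeasureTheory SEJ TATE

noncomputable section

namespace TATE.FA

private theorem Pri_refl {m r : ℕ} {b : Fin (r + 1) → ℕ} {t : Fin (r + 1) → ℂ} {P : ℂ × ℂ}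
    (h : P ∈ Pts m b t) : Seg m b t P P 0 := by
  refine ⟨fun _ => P.2, continuous_const, rfl, rfl, fun u _ => ?_, fun p => ?_⟩
  · rw [sub_self, mul_zero, add_zero]
    exact h
  · simp

theorem tPri : S_Alg → S_Prs → S_Rts → S_Pri := by
  intro hA hPrs hRts m r b hm e U₀ ξ₀ t P Q v₀ hU hξ ht hP hQ hPQ hI
  have key : ∀ (P₀ Q₀ : ℂ × ℂ) (v₀ : Ix m b → ℂ), Itg m b (t ξ₀) P₀ Q₀ v₀ →
      ∀ (U : Set (Fin e → ℂ)) (P Q : (Fin e → ℂ) → ℂ × ℂ), IsOpen U → ξ₀ ∈ U →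
      DifferentiableOn ℂ t U → DifferentiableOn ℂ P U → DifferentiableOn ℂ Q U →
      (∀ ξ ∈ U, P ξ ∈ Pts m b (t ξ) ∧ Q ξ ∈ Pts m b (t ξ)) → P ξ₀ = P₀ → Q ξ₀ = Q₀ →
      ∃ U' ⊆ U, IsOpen U' ∧ ξ₀ ∈ U' ∧ ∃ v : (Fin e → ℂ) → (Ix m b → ℂ),
        DifferentiableOn ℂ v U' ∧ v ξ₀ = v₀ ∧ ∀ ξ ∈ U', Itg m b (t ξ) (P ξ) (Q ξ) (v ξ) := by
    intro P₀ Q₀ v₀ h
    induction h with
    | refl h₁ =>
      intro U P Q hU hξ ht hP hQ hPQ hP0 hQ0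
      have hs : Seg m b (t ξ₀) (P ξ₀) (Q ξ₀) 0 := by
        rw [hP0, hQ0]
        exact Pri_refl h₁
      obtain ⟨U', hU', ho, hm', v, hv, hv0, hvs⟩ :=
        hPrs m r b hm e U ξ₀ t P Q 0 hU hξ ht hP hQ hPQ hs
      exact ⟨U', hU', ho, hm', v, hv, hv0, fun ξ hx =>
        ((hA m r b (t ξ) hm).1 _ _ _ (hvs ξ hx)).2.2.2⟩
    | @step Q₁ R₁ v₁ w₁ h₁ h₂ ih =>
      intro U P R hU hξ ht hP hR hPR hP0 hR0
      have hQ₁ : Q₁ ∈ Pts m b (t ξ₀) := ((hA m r b (t ξ₀) hm).1 _ _ _ h₂).1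
      obtain ⟨U₁, hU₁, ho₁, hm₁, η, hη, hη0, hηs⟩ := hRts m r b hm e U ξ₀ t Q₁ hU hξ ht hQ₁
      have hQd : DifferentiableOn ℂ (fun ξ => (Q₁.1, η ξ)) U₁ :=
        (differentiableOn_const _).prodMk hη
      obtain ⟨U₂, hU₂, ho₂, hm₂, v, hv, hv0, hvs⟩ := ih U₁ P (fun ξ => (Q₁.1, η ξ)) ho₁ hm₁
        (ht.mono hU₁) (hP.mono hU₁) hQd (fun ξ hx => ⟨(hPR ξ (hU₁ hx)).1, hηs ξ hx⟩) hP0
        (by rw [hη0])
      have hs : Seg m b (t ξ₀) ((fun ξ => (Q₁.1, η ξ)) ξ₀) (R ξ₀) w₁ := by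
        rw [hR0]
        show Seg m b (t ξ₀) (Q₁.1, η ξ₀) R₁ w₁
        rw [hη0]
        exact h₂
      obtain ⟨U₃, hU₃, ho₃, hm₃, w, hw, hw0, hws⟩ :=
        hPrs m r b hm e U₂ ξ₀ t (fun ξ => (Q₁.1, η ξ)) R w₁ ho₂ hm₂ (ht.mono (hU₂.trans hU₁))
        (hQd.mono hU₂) (hR.mono (hU₂.trans hU₁))
        (fun ξ hx => ⟨hηs ξ (hU₂ hx), (hPR ξ (hU₁ (hU₂ hx))).2⟩) hs
      refine ⟨U₃, (hU₃.trans hU₂).trans hU₁, ho₃, hm₃, fun ξ => v ξ + w ξ,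
        (hv.mono hU₃).add hw, ?_, fun ξ hx => Itg.step (hvs ξ (hU₃ hx)) (hws ξ hx)⟩
      show v ξ₀ + w ξ₀ = v₁ + w₁
      rw [hv0, hw0]
  exact key (P ξ₀) (Q ξ₀) v₀ hI U₀ P Q hU hξ ht hP hQ hPQ rfl rfl

end TATE.FA
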