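import Pool.Agent.Lib.TATE.FA.Spec
import Pool.Agent.Lib.SE.CR.Hol

/-!
# PROJECT TATE, package FA: parameters for one segment
-/

set_option autoImplicit false

open Topology Metric MeasureTheory Filter

noncomputable section

namespace TATE.FA

open SEJ TATE

namespace PrsAux

/-- Two continuous functions with the same `m`-th power and the same value are equal nearby. -/
theorem roots {X : Type} [TopologicalSpace X] {m : ℕ} (hm : m ≠ 0) {η Y : X → ℂ} {x₀ : X}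
    (h1 : ContinuousAt η x₀)
    (h2 : ContinuousAt Y x₀) (h0 : η x₀ = Y x₀) (hne : Y x₀ ≠ 0)
    (h : ∀ᶠ x in 𝓝 x₀, η x ^ m = Y x ^ m) : ∀ᶠ x in 𝓝 x₀, η x = Y x := by
  have hq : ContinuousAt (fun x => η x / Y x) x₀ := h1.div h2 hne
  have hfin : ({z : ℂ | z ^ m = 1} \ {1}).Finite := by
    refine Set.Finite.subset (Polynomial.nthRoots m (1 : ℂ)).toFinset.finite_toSet ?_
    intro z hz
    simp only [Finset.mem_coe, Multiset.mem_toFinset]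
    exact (Polynomial.mem_nthRoots (Nat.pos_of_ne_zero hm)).mpr hz.1
  have hopen : IsOpen ({z : ℂ | z ^ m = 1} \ {1})ᶜ := hfin.isClosed.isOpen_compl
  have hmem : ({z : ℂ | z ^ m = 1} \ {1})ᶜ ∈ 𝓝 (η x₀ / Y x₀) := by
    refine hopen.mem_nhds ?_
    rw [h0, div_self hne]
    simp
  filter_upwards [hq hmem, h, h2.eventually_ne hne] with x hx hx2 hx3
  by_contra hn
  refine hx ⟨?_, ?_⟩
  · change (η x / Y x) ^ m = 1
    rw [div_pow, hx2, div_self (pow_ne_zero _ hx3)]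
  · intro he
    rw [Set.mem_singleton_iff, div_eq_one_iff_eq hx3] at he
    exact hn he

/-- The parameters: the first coordinates of the end points and the branch points. -/
abbrev EE (r : ℕ) : Type := ℂ × ℂ × (Fin (r + 1) → ℂ)

variable {m r : ℕ} {b : Fin (r + 1) → ℕ}

/-- the point of the segment -/
def xx (z : EE r) (u : ℂ) : ℂ := z.1 + u * (z.2.1 - z.1)

/-- the difference to the branch point -/
def dd (z : EE r) (u : ℂ) (j : Fin (r + 1)) : ℂ := xx z u - z.2.2 j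

/-- the quotient -/
def qq (z₀ z : EE r) (u : ℂ) (j : Fin (r + 1)) : ℂ := dd z u j / dd z₀ u j

/-- the correction of the lift -/
def RR (m : ℕ) (b : Fin (r + 1) → ℕ) (z₀ z : EE r) (u : ℂ) : ℂ :=
  ∏ j, qq z₀ z u j ^ ((b j : ℂ) / m)

/-- the integrand without the power of the lift -/
def HH (m : ℕ) (b : Fin (r + 1) → ℕ) (z₀ : EE r) (p : Ix m b) (q : EE r × ℂ) : ℂ :=
  (q.1.2.1 - q.1.1) * (xx q.1 q.2 ^ ex p * RR m b z₀ q.1 q.2 ^ ch p /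
    ∏ j, dd q.1 q.2 j ^ (1 + ch p * b j / m))

theorem an1 (q : EE r × ℂ) : AnalyticAt ℂ (fun q : EE r × ℂ => q.1.1) q :=
  ((ContinuousLinearMap.fst ℂ ℂ (ℂ × (Fin (r + 1) → ℂ))).comp
    (ContinuousLinearMap.fst ℂ (EE r) ℂ)).analyticAt q

theorem an2 (q : EE r × ℂ) : AnalyticAt ℂ (fun q : EE r × ℂ => q.1.2.1) q :=
  ((ContinuousLinearMap.fst ℂ ℂ (Fin (r + 1) → ℂ)).comp
    ((ContinuousLinearMap.snd ℂ ℂ (ℂ × (Fin (r + 1) → ℂ))).comp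
      (ContinuousLinearMap.fst ℂ (EE r) ℂ))).analyticAt q

theorem an3 (j : Fin (r + 1)) (q : EE r × ℂ) : AnalyticAt ℂ (fun q : EE r × ℂ => q.1.2.2 j) q :=
  ((ContinuousLinearMap.proj (R := ℂ) (φ := fun _ : Fin (r + 1) => ℂ) j).comp
    ((ContinuousLinearMap.snd ℂ ℂ (Fin (r + 1) → ℂ)).comp
      ((ContinuousLinearMap.snd ℂ ℂ (ℂ × (Fin (r + 1) → ℂ))).comp
        (ContinuousLinearMap.fst ℂ (EE r) ℂ)))).analyticAt q

theorem an_xx (q : EE r × ℂ) : AnalyticAt ℂ (fun q : EE r × ℂ => xx q.1 q.2) q :=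
  (an1 q).add (analyticAt_snd.mul ((an2 q).sub (an1 q)))

theorem an_dd (j : Fin (r + 1)) (q : EE r × ℂ) :
    AnalyticAt ℂ (fun q : EE r × ℂ => dd q.1 q.2 j) q :=
  (an_xx q).sub (an3 j q)

theorem an_dd0 (z₀ : EE r) (j : Fin (r + 1)) (q : EE r × ℂ) :
    AnalyticAt ℂ (fun q : EE r × ℂ => dd z₀ q.2 j) q :=
  (analyticAt_const.add (analyticAt_snd.mul analyticAt_const)).sub analyticAt_const

theorem an_qq {z₀ : EE r} {j : Fin (r + 1)} {q : EE r × ℂ} (h : dd z₀ q.2 j ≠ 0) :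
    AnalyticAt ℂ (fun q : EE r × ℂ => qq z₀ q.1 q.2 j) q :=
  (an_dd j q).div (an_dd0 z₀ j q) h

theorem an_RR {z₀ : EE r} {q : EE r × ℂ} (h : ∀ j, dd z₀ q.2 j ≠ 0)
    (h' : ∀ j, qq z₀ q.1 q.2 j ∈ Complex.slitPlane) :
    AnalyticAt ℂ (fun q : EE r × ℂ => RR m b z₀ q.1 q.2) q := by
  unfold RR
  exact Finset.analyticAt_fun_prod _ fun j _ => (an_qq (h j)).cpow analyticAt_const (h' j)

theorem dd_ne {z₀ z : EE r} {u : ℂ} {j : Fin (r + 1)} (h : qq z₀ z u j ∈ Complex.slitPlane) :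
    dd z u j ≠ 0 := by
  intro h0
  refine Complex.slitPlane_ne_zero h ?_
  rw [qq, h0, zero_div]

theorem an_HH {z₀ : EE r} {q : EE r × ℂ} (p : Ix m b) (h : ∀ j, dd z₀ q.2 j ≠ 0)
    (h' : ∀ j, qq z₀ q.1 q.2 j ∈ Complex.slitPlane) : AnalyticAt ℂ (HH m b z₀ p) q := by
  unfold HH
  refine ((an2 q).sub (an1 q)).mul ((((an_xx q).pow _).mul ((an_RR h h').pow _)).div ?_ ?_)
  · exact Finset.analyticAt_fun_prod _ fun j _ => (an_dd j q).pow _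
  · exact Finset.prod_ne_zero_iff.2 fun j _ => pow_ne_zero _ (dd_ne (h' j))

theorem qq_self {z₀ : EE r} {u : ℂ} {j : Fin (r + 1)} (h : dd z₀ u j ≠ 0) : qq z₀ z₀ u j = 1 :=
  div_self h

theorem RR_self {z₀ : EE r} {u : ℂ} (h : ∀ j, dd z₀ u j ≠ 0) : RR m b z₀ z₀ u = 1 := by
  unfold RR
  exact Finset.prod_eq_one fun j _ => by rw [qq_self (h j), Complex.one_cpow]

/-- the quotients are near `1` -/
theorem W_nhds {z₀ : EE r} (h0 : ∀ u ∈ Set.Icc (0 : ℝ) 1, ∀ j, dd z₀ (u : ℂ) j ≠ 0) :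
    ∀ᶠ z in 𝓝 z₀, ∀ u ∈ Set.Icc (0 : ℝ) 1, ∀ j, qq z₀ z (u : ℂ) j ∈ Complex.slitPlane := by
  refine isCompact_Icc.eventually_forall_of_forall_eventually
    (P := fun z (u : ℝ) => ∀ j, qq z₀ z (u : ℂ) j ∈ Complex.slitPlane) fun u hu => ?_
  have hι : Continuous fun z : EE r × ℝ => ((z.1, (z.2 : ℂ)) : EE r × ℂ) :=
    continuous_fst.prodMk (Complex.continuous_ofReal.comp continuous_snd)
  rw [Filter.eventually_all]
  intro j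
  have h1 : ContinuousAt (fun q : EE r × ℂ => qq z₀ q.1 q.2 j) (z₀, (u : ℂ)) :=
    (an_qq (q := (z₀, (u : ℂ))) (h0 u hu j)).continuousAt
  have h2 : ∀ᶠ q : EE r × ℂ in 𝓝 (z₀, (u : ℂ)), qq z₀ q.1 q.2 j ∈ Complex.slitPlane := by
    refine h1.eventually (Complex.isOpen_slitPlane.mem_nhds ?_)
    dsimp only
    rw [qq_self (h0 u hu j)]
    exact Complex.one_mem_slitPlane
  exact (hι.tendsto (z₀, u)).eventually h2

theorem RR_pow (hm : m ≠ 0) {z₀ z : EE r} {u : ℂ} :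
    RR m b z₀ z u ^ m = ∏ j, qq z₀ z u j ^ b j := by
  unfold RR
  rw [← Finset.prod_pow]
  refine Finset.prod_congr rfl fun j _ => ?_
  rw [← Complex.cpow_nat_mul]
  have hm' : (m : ℂ) ≠ 0 := Nat.cast_ne_zero.mpr hm
  rw [mul_div_cancel₀ _ hm', Complex.cpow_natCast]

theorem lift_pow (hm : m ≠ 0) {z₀ z : EE r} {u y : ℂ} (h0 : ∀ j, dd z₀ u j ≠ 0)
    (hy : y ^ m = ∏ j, dd z₀ u j ^ b j) : (y * RR m b z₀ z u) ^ m = ∏ j, dd z u j ^ b j := by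
  rw [mul_pow, RR_pow hm, hy, ← Finset.prod_mul_distrib]
  refine Finset.prod_congr rfl fun j _ => ?_
  rw [← mul_pow, qq, mul_div_cancel₀ _ (h0 j)]

/-- the integrand -/
theorem om_eq {z₀ z : EE r} {u y : ℂ} (p : Ix m b) :
    (z.2.1 - z.1) * om m b z.2.2 (xx z u, y * RR m b z₀ z u) p =
      y ^ ch p * HH m b z₀ p (z, u) := by
  unfold om HH dd
  dsimp only
  rw [mul_pow]
  ring

/-- the clamp to the unit interval -/
def cl (u : ℝ) : ℝ := max 0 (min 1 u)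

theorem cl_mem (u : ℝ) : cl u ∈ Set.Icc (0 : ℝ) 1 :=
  ⟨le_max_left _ _, max_le zero_le_one (min_le_left _ _)⟩

theorem cl_of {u : ℝ} (h : u ∈ Set.Icc (0 : ℝ) 1) : cl u = u := by
  unfold cl
  rw [min_eq_right h.2, max_eq_right h.1]

theorem cl_cont : Continuous cl := continuous_const.max (continuous_const.min continuous_id)

theorem seg_of (hm : m ≠ 0) {z₀ z : EE r} {y₀ : ℝ → ℂ} (hy₀ : Continuous y₀)
    (h0 : ∀ u ∈ Set.Icc (0 : ℝ) 1, ∀ j, dd z₀ (u : ℂ) j ≠ 0)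
    (hl : ∀ u ∈ Set.Icc (0 : ℝ) 1, y₀ u ^ m = ∏ j, dd z₀ (u : ℂ) j ^ b j)
    (hz : ∀ u ∈ Set.Icc (0 : ℝ) 1, ∀ j, qq z₀ z (u : ℂ) j ∈ Complex.slitPlane)
    {P Q : ℂ × ℂ} (hP : P.1 = z.1) (hQ : Q.1 = z.2.1)
    (hP2 : P.2 = y₀ 0 * RR m b z₀ z ((0 : ℝ) : ℂ)) (hQ2 : Q.2 = y₀ 1 * RR m b z₀ z ((1 : ℝ) : ℂ)) :
    Seg m b z.2.2 P Q (fun p => ∫ u in (0 : ℝ)..1, y₀ u ^ ch p * HH m b z₀ p (z, (u : ℂ))) := by
  have m0 : (0 : ℝ) ∈ Set.Icc (0 : ℝ) 1 := ⟨le_rfl, zero_le_one⟩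
  have m1 : (1 : ℝ) ∈ Set.Icc (0 : ℝ) 1 := ⟨zero_le_one, le_rfl⟩
  refine ⟨fun u => y₀ (cl u) * RR m b z₀ z ((cl u : ℝ) : ℂ), ?_, ?_, ?_, ?_, ?_⟩
  · refine (hy₀.comp cl_cont).mul ?_
    rw [continuous_iff_continuousAt]
    intro u
    have h1 : ContinuousAt (fun q : EE r × ℂ => RR m b z₀ q.1 q.2) (z, ((cl u : ℝ) : ℂ)) :=
      (an_RR (q := (z, ((cl u : ℝ) : ℂ))) (h0 _ (cl_mem u)) (hz _ (cl_mem u))).continuousAt
    have h2 : Continuous fun u : ℝ => ((z, ((cl u : ℝ) : ℂ)) : EE r × ℂ) :=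
      continuous_const.prodMk (Complex.continuous_ofReal.comp cl_cont)
    exact ContinuousAt.comp (f := fun u : ℝ => ((z, ((cl u : ℝ) : ℂ)) : EE r × ℂ)) h1
      h2.continuousAt
  · dsimp only
    rw [cl_of m0, hP2]
  · dsimp only
    rw [cl_of m1, hQ2]
  · intro u hu
    have e1 : P.1 + (u : ℂ) * (Q.1 - P.1) = xx z u := by rw [hP, hQ]; rfl
    dsimp only
    rw [cl_of hu, e1]
    refine ⟨?_, lift_pow hm (h0 u hu) (hl u hu)⟩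
    rintro ⟨j, hj⟩
    exact dd_ne (hz u hu j) (sub_eq_zero.2 hj.symm)
  · intro p
    refine intervalIntegral.integral_congr fun u hu => ?_
    rw [Set.uIcc_of_le zero_le_one] at hu
    have e1 : P.1 + (u : ℂ) * (Q.1 - P.1) = xx z u := by rw [hP, hQ]; rfl
    dsimp only
    rw [cl_of hu, e1, hP, hQ, om_eq]

end PrsAux

open PrsAux in
theorem tPrs : S_Prs := by
  intro m r b hm e U ξ₀ t P Q v₀ hU hξ₀ ht hP hQ hPQ hseg
  have hm0 : m ≠ 0 := by omega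
  obtain ⟨y₀, hy₀, hy0, hy1, hy2, hv₀⟩ := hseg
  have m0 : (0 : ℝ) ∈ Set.Icc (0 : ℝ) 1 := ⟨le_rfl, zero_le_one⟩
  have m1 : (1 : ℝ) ∈ Set.Icc (0 : ℝ) 1 := ⟨zero_le_one, le_rfl⟩
  let Z : (Fin e → ℂ) → EE r := fun ξ => ((P ξ).1, (Q ξ).1, t ξ)
  have h0 : ∀ u ∈ Set.Icc (0 : ℝ) 1, ∀ j, dd (Z ξ₀) (u : ℂ) j ≠ 0 := fun u hu j h =>
    (hy2 u hu).1 ⟨j, (sub_eq_zero.1 h).symm⟩
  have hl : ∀ u ∈ Set.Icc (0 : ℝ) 1, y₀ u ^ m = ∏ j, dd (Z ξ₀) (u : ℂ) j ^ b j := fun u hu =>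
    (hy2 u hu).2
  have hPd : ∀ ξ ∈ U, DifferentiableAt ℂ P ξ := fun ξ hξ =>
    (hP ξ hξ).differentiableAt (hU.mem_nhds hξ)
  have hQd : ∀ ξ ∈ U, DifferentiableAt ℂ Q ξ := fun ξ hξ =>
    (hQ ξ hξ).differentiableAt (hU.mem_nhds hξ)
  have hZ : ∀ ξ ∈ U, DifferentiableAt ℂ Z ξ := fun ξ hξ =>
    (hPd ξ hξ).fst.prodMk ((hQd ξ hξ).fst.prodMk
      ((ht ξ hξ).differentiableAt (hU.mem_nhds hξ)))
  have e1 : ∀ᶠ ξ in 𝓝 ξ₀, ξ ∈ U := hU.mem_nhds hξ₀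
  have e2 : ∀ᶠ ξ in 𝓝 ξ₀, ∀ u ∈ Set.Icc (0 : ℝ) 1, ∀ j,
      qq (Z ξ₀) (Z ξ) (u : ℂ) j ∈ Complex.slitPlane :=
    (hZ ξ₀ hξ₀).continuousAt.eventually (W_nhds h0)
  have cR : ∀ u ∈ Set.Icc (0 : ℝ) 1, ContinuousAt (fun ξ => RR m b (Z ξ₀) (Z ξ) (u : ℂ)) ξ₀ := by
    intro u hu
    have h1 : ContinuousAt (fun q : EE r × ℂ => RR m b (Z ξ₀) q.1 q.2) (Z ξ₀, (u : ℂ)) :=
      (an_RR (q := (Z ξ₀, (u : ℂ))) (h0 _ hu) (e2.self_of_nhds u hu)).continuousAt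
    exact ContinuousAt.comp (f := fun ξ => ((Z ξ, (u : ℂ)) : EE r × ℂ)) h1
      ((hZ ξ₀ hξ₀).continuousAt.prodMk continuousAt_const)
  have hyne : ∀ u ∈ Set.Icc (0 : ℝ) 1, y₀ u ≠ 0 := by
    intro u hu h
    have h1 := hl u hu
    rw [h, zero_pow hm0] at h1
    exact (Finset.prod_ne_zero_iff.2 fun j _ => pow_ne_zero _ (h0 u hu j)) h1.symm
  have dd0 : ∀ ξ j, dd (Z ξ) ((0 : ℝ) : ℂ) j = (P ξ).1 - t ξ j := by
    intro ξ j
    simp [dd, xx, Z]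
  have dd1 : ∀ ξ j, dd (Z ξ) ((1 : ℝ) : ℂ) j = (Q ξ).1 - t ξ j := by
    intro ξ j
    simp [dd, xx, Z]
  have e3 : ∀ᶠ ξ in 𝓝 ξ₀, (P ξ).2 = y₀ 0 * RR m b (Z ξ₀) (Z ξ) ((0 : ℝ) : ℂ) := by
    refine roots hm0 (hPd ξ₀ hξ₀).snd.continuousAt (continuousAt_const.mul (cR 0 m0)) ?_ ?_ ?_
    · rw [RR_self (h0 0 m0), mul_one, hy0]
    · rw [RR_self (h0 0 m0), mul_one]
      exact hyne 0 m0
    · filter_upwards [e1] with ξ hξ
      rw [lift_pow hm0 (h0 0 m0) (hl 0 m0), (hPQ ξ hξ).1.2]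
      exact Finset.prod_congr rfl fun j _ => by rw [dd0]
  have e4 : ∀ᶠ ξ in 𝓝 ξ₀, (Q ξ).2 = y₀ 1 * RR m b (Z ξ₀) (Z ξ) ((1 : ℝ) : ℂ) := by
    refine roots hm0 (hQd ξ₀ hξ₀).snd.continuousAt (continuousAt_const.mul (cR 1 m1)) ?_ ?_ ?_
    · rw [RR_self (h0 1 m1), mul_one, hy1]
    · rw [RR_self (h0 1 m1), mul_one]
      exact hyne 1 m1
    · filter_upwards [e1] with ξ hξ
      rw [lift_pow hm0 (h0 1 m1) (hl 1 m1), (hPQ ξ hξ).2.2]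
      exact Finset.prod_congr rfl fun j _ => by rw [dd1]
  obtain ⟨U', hU', hop, hmem⟩ := _root_.mem_nhds_iff.1 (e1.and (e2.and (e3.and e4)))
  refine ⟨U', fun ξ h => (hU' h).1, hop, hmem, fun ξ p =>
    ∫ u in (0 : ℝ)..1, y₀ u ^ ch p * HH m b (Z ξ₀) p (Z ξ, (u : ℂ)), ?_, ?_, ?_⟩
  · rw [differentiableOn_pi]
    intro p ξ hξ
    obtain ⟨g1, g2, -, -⟩ := hU' hξ
    have h1 : DifferentiableAt ℂ (fun z : EE r => ∫ u in (0 : ℝ)..1,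
        y₀ u ^ ch p * HH m b (Z ξ₀) p (z, (u : ℂ))) (Z ξ) :=
      SECR.Hol.gen (HH m b (Z ξ₀) p) (fun u => y₀ u ^ ch p) (Z ξ)
        (fun u hu => an_HH p (h0 u hu) (g2 u hu)) ((hy₀.pow _).intervalIntegrable _ _)
    exact (DifferentiableAt.comp ξ h1 (hZ ξ g1)).differentiableWithinAt
  · funext p
    rw [hv₀ p]
    refine intervalIntegral.integral_congr fun u hu => ?_
    rw [Set.uIcc_of_le zero_le_one] at hu
    rw [← om_eq, RR_self (h0 u hu), mul_one]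
    rfl
  · intro ξ hξ
    obtain ⟨g1, g2, g3, g4⟩ := hU' hξ
    exact seg_of hm0 hy₀ h0 hl g2 rfl rfl g3 g4

end TATE.FA
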