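import Pool.Agent.Lib.TATE.FA.Spec

/-!
# PROJECT TATE, package FA: the rank of the rational period lattice
-/

set_option autoImplicit false

open Topology Metric MeasureTheory

noncomputable section

namespace TATE.FA

open SEJ TATE
open HC (AV)
open HC.SE (New IsCov)

theorem Rnk_lin (V : Type) [NormedAddCommGroup V] [NormedSpace ℂ V] [FiniteDimensional ℂ V]
    (L : Submodule ℤ V) [DiscreteTopology L] [IsZLattice ℝ L] (ι : Type) [Fintype ι] (w : ι → V)
    (hw : LinearIndependent ℝ w) (hc : 2 * Module.finrank ℂ V = Fintype.card ι)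
    (hL : ∀ q, ∃ k : ℕ, k ≠ 0 ∧ k • w q ∈ L) (v : V) (hv : ∃ k : ℕ, k ≠ 0 ∧ k • v ∈ L) :
    ∃ x : ι → ℚ, v = ∑ q, ((x q : ℝ) : ℂ) • w q := by
  let hM : Module ℚ V := Module.compHom V (algebraMap ℚ ℝ)
  have hsm : ∀ (a : ℚ) (u : V), a • u = (a : ℝ) • u := fun a u => rfl
  have hT : IsScalarTower ℚ ℝ V := by
    refine ⟨fun a b u => ?_⟩
    rw [hsm, smul_smul, Rat.smul_def]
  have : Module.Finite ℤ L := ZLattice.module_finite ℝ L
  have : Module.Free ℤ L := ZLattice.module_free ℝ L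
  have hrk : Module.finrank ℤ L = Fintype.card ι := by
    rw [ZLattice.rank ℝ L, finrank_real_of_complex, hc]
  let B := Module.Free.chooseBasis ℤ L
  obtain ⟨S, hS⟩ : ∃ S : Submodule ℚ V, S = Submodule.span ℚ (Set.range fun i => (B i : V)) :=
    ⟨_, rfl⟩
  have hSL : ∀ u ∈ L, u ∈ S := by
    intro u hu
    have h1 := B.sum_repr ⟨u, hu⟩
    have h2 : u = ∑ i, (B.repr ⟨u, hu⟩ i) • (B i : V) := by
      have h3 := congrArg (fun z : L => (z : V)) h1
      simp only [AddSubmonoidClass.coe_finsetSum, SetLike.val_smul] at h3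
      exact h3.symm
    rw [h2]
    refine Submodule.sum_mem _ fun i _ => ?_
    have h4 : (B i : V) ∈ S := by
      rw [hS]
      exact Submodule.subset_span ⟨i, rfl⟩
    have h5 : (B.repr ⟨u, hu⟩ i) • (B i : V) = ((B.repr ⟨u, hu⟩ i : ℤ) : ℚ) • (B i : V) := by
      rw [hsm]
      rw [Rat.cast_intCast, Int.cast_smul_eq_zsmul]
    rw [h5]
    exact S.smul_mem _ h4
  have hSk : ∀ u, (∃ k : ℕ, k ≠ 0 ∧ k • u ∈ L) → u ∈ S := by
    rintro u ⟨k, hk, hku⟩
    have h1 := S.smul_mem ((k : ℚ)⁻¹) (hSL _ hku)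
    have h2 : ((k : ℚ)⁻¹) • (k • u) = u := by
      rw [hsm, ← Nat.cast_smul_eq_nsmul ℝ, smul_smul]
      push_cast
      rw [inv_mul_cancel₀ (by exact_mod_cast hk), one_smul]
    rwa [h2] at h1
  have : FiniteDimensional ℚ S := by
    rw [hS]
    exact FiniteDimensional.span_of_finite ℚ (Set.finite_range _)
  have hSr : Module.finrank ℚ S ≤ Fintype.card ι := by
    have h1 : Fintype.card (Module.Free.ChooseBasisIndex ℤ L) = Fintype.card ι := by
      rw [← hrk, Module.finrank_eq_card_chooseBasisIndex ℤ L]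
    rw [hS, ← h1]
    exact finrank_range_le_card (R := ℚ) (fun i => (B i : V))
  have hwQ : LinearIndependent ℚ w := by
    refine hw.restrict_scalars ?_
    intro a b hab
    have h1 : (a : ℝ) = b := by simpa [Rat.smul_def] using hab
    exact_mod_cast h1
  have hle : Submodule.span ℚ (Set.range w) ≤ S := by
    rw [Submodule.span_le]
    rintro _ ⟨q, rfl⟩
    exact hSk _ (hL q)
  have heq : Submodule.span ℚ (Set.range w) = S := by
    refine Submodule.eq_of_le_of_finrank_le hle ?_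
    rw [finrank_span_eq_card hwQ]
    exact hSr
  have hvS : v ∈ Submodule.span ℚ (Set.range w) := by
    rw [heq]
    exact hSk v hv
  obtain ⟨x, hx⟩ := (Submodule.mem_span_range_iff_exists_fun ℚ).1 hvS
  refine ⟨x, ?_⟩
  rw [← hx]
  refine Finset.sum_congr rfl fun q _ => ?_
  rw [hsm, Complex.coe_smul]

theorem tRnk : S_Alg → S_Lq → S_Con → S_Lft → S_Rnk := by
  intro _ hLq hCon hLft T m r t b N e hb ht hω W hW hWL
  have hm : 1 ≤ m := le_trans (by norm_num) hb.1
  obtain ⟨h0, hadd, hq, -, -, -⟩ := hLq m r b t hm (hCon m r b t hb ht)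
  -- the periods are in `ℚ T.L`
  have s1 : ∀ v ∈ LQ m b t, ∃ k : ℕ, k ≠ 0 ∧ k • e.symm v ∈ T.L := by
    rintro v ⟨k, hk, P, hP⟩
    obtain ⟨l, hl, hle⟩ := hLft T m r t b N e hm hω P P _ hP
    refine ⟨k, hk, ?_⟩
    have h1 : k • e.symm v = -l := by
      apply e.injective
      rw [map_nsmul, e.apply_symm_apply, map_neg, ← hle]
      simp
    rw [h1]
    exact T.L.neg_mem hl
  have s2 : Qsp m b W ⊆ LQ m b t := by
    rintro _ ⟨x, rfl⟩
    exact Finset.sum_induction _ (fun u => u ∈ LQ m b t) (fun u v hu hv => hadd u hu v hv) h0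
      (fun q _ => hq (x q) (W q) (hWL q))
  have hw : LinearIndependent ℝ (fun q => e.symm (W q)) := by
    have h1 := hW.map' ((e.symm : (Ix m b → ℂ) →ₗ[ℂ] T.V).restrictScalars ℝ) (by
      rw [LinearMap.ker_eq_bot]
      exact e.symm.injective)
    exact h1
  have hc : 2 * Module.finrank ℂ T.V = Fintype.card (Fin m.totient × Fin r) := by
    rw [N.dim, Fintype.card_prod, Fintype.card_fin, Fintype.card_fin, mul_comm]
  have s3 : ∀ v, (∃ k : ℕ, k ≠ 0 ∧ k • v ∈ T.L) → e v ∈ Qsp m b W := by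
    intro v hv
    obtain ⟨x, hx⟩ := Rnk_lin T.V T.L (Fin m.totient × Fin r) (fun q => e.symm (W q)) hw hc
      (fun q => s1 (W q) (hWL q)) v hv
    refine ⟨x, ?_⟩
    rw [hx, map_sum]
    refine Finset.sum_congr rfl fun q _ => ?_
    rw [map_smul, e.apply_symm_apply]
  have s4 : LQ m b t ⊆ Qsp m b W := by
    intro v hv
    have h1 := s3 (e.symm v) (s1 v hv)
    rwa [e.apply_symm_apply] at h1
  refine ⟨Set.Subset.antisymm s4 s2, ?_⟩
  apply Set.Subset.antisymm
  · rintro _ ⟨v, hv, rfl⟩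
    exact s2 (s3 v hv)
  · intro v hv
    exact ⟨e.symm v, s1 v hv, e.apply_symm_apply v⟩

end TATE.FA
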