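import Pool.Agent.Lib.TATE.FA.Spec

/-!
# PROJECT TATE, package FA: rotation
-/

set_option autoImplicit false

open Topology Metric MeasureTheory

noncomputable section

namespace TATE.FA

open SEJ TATE

section aux

variable {m r : ℕ} {b : Fin (r + 1) → ℕ} {t : Fin (r + 1) → ℂ} {π : Equiv.Perm (Fin (r + 1))}
  {ρ c : ℂ}

private lemma Rot_ch (p : Ix m b) : ch (ixe m b π p) = ch p := rfl

private lemma Rot_ex (p : Ix m b) : ex (ixe m b π p) = ex p := rfl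

private lemma Rot_ch' (p : Ix m (b ∘ π)) : ch ((ixe m b π).symm p) = ch p := rfl

private lemma Rot_ex' (p : Ix m (b ∘ π)) : ex ((ixe m b π).symm p) = ex p := rfl

private lemma Rot_dl0 (hρ : ρ ≠ 0) (hc : c ≠ 0) (u i : ℕ) : dl m b ρ c u i ≠ 0 := by
  unfold dl
  exact div_ne_zero (mul_ne_zero (mul_ne_zero hρ (pow_ne_zero _ hρ)) (pow_ne_zero _ hc))
    (pow_ne_zero _ hρ)

private lemma Rot_DsDr (hρ : ρ ≠ 0) (hc : c ≠ 0) (v : Ix m b → ℂ) :
    Ds m b π ρ c (Dr m b π ρ c v) = v := by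
  funext p
  unfold Ds Dr
  rw [Rot_ch, Rot_ex, Equiv.symm_apply_apply, ← mul_assoc, inv_mul_cancel₀ (Rot_dl0 hρ hc _ _),
    one_mul]

private lemma Rot_DrDs (hρ : ρ ≠ 0) (hc : c ≠ 0) (v : Ix m (b ∘ π) → ℂ) :
    Dr m b π ρ c (Ds m b π ρ c v) = v := by
  funext p
  unfold Ds Dr
  simp only
  rw [Rot_ch', Rot_ex', Equiv.apply_symm_apply, ← mul_assoc, mul_inv_cancel₀ (Rot_dl0 hρ hc _ _),
    one_mul]

private lemma Rot_Drz : Dr m b π ρ c (0 : Ix m b → ℂ) = 0 := by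
  funext p
  simp [Dr]

private lemma Rot_Dsz : Ds m b π ρ c (0 : Ix m (b ∘ π) → ℂ) = 0 := by
  funext p
  simp [Ds]

private lemma Rot_Dra (v w : Ix m b → ℂ) :
    Dr m b π ρ c (v + w) = Dr m b π ρ c v + Dr m b π ρ c w := by
  funext p
  simp [Dr, mul_add]

private lemma Rot_Dsa (v w : Ix m (b ∘ π) → ℂ) :
    Ds m b π ρ c (v + w) = Ds m b π ρ c v + Ds m b π ρ c w := by
  funext p
  simp [Ds, mul_add]

private lemma Rot_Drn (k : ℕ) (v : Ix m b → ℂ) :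
    Dr m b π ρ c (k • v) = k • Dr m b π ρ c v := by
  funext p
  simp only [Dr, Pi.smul_apply, nsmul_eq_mul]
  ring

private lemma Rot_prod (x : ℂ) (e : Fin (r + 1) → ℕ) :
    ∏ j, (ρ * x - rt π ρ t j) ^ e (π j) = ρ ^ (∑ j, e j) * ∏ j, (x - t j) ^ e j := by
  have h1 : ∀ j, (ρ * x - rt π ρ t j) ^ e (π j) = ρ ^ e (π j) * (x - t (π j)) ^ e (π j) := by
    intro j
    rw [← mul_pow]
    unfold rt
    rw [mul_sub]
  rw [Finset.prod_congr rfl fun j _ => h1 j, Finset.prod_mul_distrib,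
    Equiv.prod_comp π fun j => ρ ^ e j, Equiv.prod_comp π fun j => (x - t j) ^ e j,
    Finset.prod_pow_eq_pow_sum]

private lemma Rot_pts (hρ : ρ ≠ 0) (hcm : c ^ m = ρ ^ (∑ j, b j)) (P : ℂ × ℂ) :
    P ∈ Pts m b t ↔ (ρ * P.1, c * P.2) ∈ Pts m (b ∘ π) (rt π ρ t) := by
  have h1 : P.1 ∈ Set.range t ↔ ρ * P.1 ∈ Set.range (rt π ρ t) := by
    constructor
    · rintro ⟨j, hj⟩
      refine ⟨π.symm j, ?_⟩
      unfold rt
      rw [Equiv.apply_symm_apply, hj]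
    · rintro ⟨j, hj⟩
      exact ⟨π j, mul_left_cancel₀ hρ hj⟩
  have h2 : ∏ j, (ρ * P.1 - rt π ρ t j) ^ (b ∘ π) j =
      ρ ^ (∑ j, b j) * ∏ j, (P.1 - t j) ^ b j := Rot_prod P.1 b
  have h3 : ρ ^ (∑ j, b j) ≠ 0 := pow_ne_zero _ hρ
  unfold Pts
  simp only [Set.mem_ofPred_eq]
  rw [h2, mul_pow, hcm, h1, mul_right_inj' h3]

private lemma Rot_om (x y : ℂ) (p : Ix m (b ∘ π)) :
    ρ * om m (b ∘ π) (rt π ρ t) (ρ * x, c * y) p =
      dl m b ρ c (ch p) (ex p) * om m b t (x, y) ((ixe m b π).symm p) := by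
  unfold om dl
  rw [Rot_ch', Rot_ex']
  have h2 : ∏ j, (ρ * x - rt π ρ t j) ^ (1 + ch p * (b ∘ π) j / m) =
      ρ ^ (∑ j, (1 + ch p * b j / m)) * ∏ j, (x - t j) ^ (1 + ch p * b j / m) :=
    Rot_prod x fun j => 1 + ch p * b j / m
  simp only
  rw [h2, mul_pow, mul_pow, div_mul_div_comm, mul_div_assoc']
  congr 1
  ring

private lemma Rot_seg (hρ : ρ ≠ 0) (hc : c ≠ 0) (hcm : c ^ m = ρ ^ (∑ j, b j)) (P Q : ℂ × ℂ)
    (v : Ix m b → ℂ) : Seg m b t P Q v ↔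
      Seg m (b ∘ π) (rt π ρ t) (ρ * P.1, c * P.2) (ρ * Q.1, c * Q.2) (Dr m b π ρ c v) := by
  have key : ∀ (y : ℝ → ℂ) (p : Ix m (b ∘ π)),
      ∫ u in (0 : ℝ)..1, (ρ * Q.1 - ρ * P.1) *
        om m (b ∘ π) (rt π ρ t) (ρ * P.1 + u * (ρ * Q.1 - ρ * P.1), c * y u) p =
      dl m b ρ c (ch p) (ex p) * ∫ u in (0 : ℝ)..1, (Q.1 - P.1) *
        om m b t (P.1 + u * (Q.1 - P.1), y u) ((ixe m b π).symm p) := by
    intro y p
    rw [← intervalIntegral.integral_const_mul]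
    refine intervalIntegral.integral_congr fun u _ => ?_
    have e1 : ρ * P.1 + (u : ℂ) * (ρ * Q.1 - ρ * P.1) = ρ * (P.1 + u * (Q.1 - P.1)) := by ring
    have e2 := Rot_om (t := t) (c := c) (ρ := ρ) (P.1 + (u : ℂ) * (Q.1 - P.1)) (y u) p
    simp only [e1]
    calc (ρ * Q.1 - ρ * P.1) *
          om m (b ∘ π) (rt π ρ t) (ρ * (P.1 + u * (Q.1 - P.1)), c * y u) p =
        (Q.1 - P.1) * (ρ * om m (b ∘ π) (rt π ρ t) (ρ * (P.1 + u * (Q.1 - P.1)), c * y u) p) := by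
          ring
      _ = (Q.1 - P.1) * (dl m b ρ c (ch p) (ex p) *
          om m b t (P.1 + u * (Q.1 - P.1), y u) ((ixe m b π).symm p)) := by rw [e2]
      _ = _ := by ring
  have keyp : ∀ (y : ℝ → ℂ) (u : ℝ), (P.1 + (u : ℂ) * (Q.1 - P.1), y u) ∈ Pts m b t ↔
      (ρ * P.1 + (u : ℂ) * (ρ * Q.1 - ρ * P.1), c * y u) ∈ Pts m (b ∘ π) (rt π ρ t) := by
    intro y u
    have e1 : ρ * P.1 + (u : ℂ) * (ρ * Q.1 - ρ * P.1) = ρ * (P.1 + u * (Q.1 - P.1)) := by ring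
    rw [e1]
    exact Rot_pts hρ hcm (P.1 + (u : ℂ) * (Q.1 - P.1), y u)
  constructor
  · rintro ⟨y, hy, hy0, hy1, hmem, hint⟩
    refine ⟨fun u => c * y u, continuous_const.mul hy, ?_, ?_, ?_, ?_⟩
    · simp only
      rw [hy0]
    · simp only
      rw [hy1]
    · intro u hu
      exact (keyp y u).1 (hmem u hu)
    · intro p
      exact (congrArg (fun z => dl m b ρ c (ch p) (ex p) * z) (hint ((ixe m b π).symm p))).trans
        (key y p).symm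
  · rintro ⟨y', hy, hy0, hy1, hmem, hint⟩
    obtain ⟨y, hyy⟩ : ∃ y : ℝ → ℂ, y = fun u => c⁻¹ * y' u := ⟨_, rfl⟩
    have hyc : ∀ u, y' u = c * y u := by
      intro u
      rw [hyy]
      simp only
      rw [← mul_assoc, mul_inv_cancel₀ hc, one_mul]
    refine ⟨y, ?_, ?_, ?_, ?_, ?_⟩
    · rw [hyy]
      exact continuous_const.mul hy
    · have h1 := hyc 0
      rw [hy0] at h1
      exact (mul_left_cancel₀ hc h1).symm
    · have h1 := hyc 1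
      rw [hy1] at h1
      exact (mul_left_cancel₀ hc h1).symm
    · intro u hu
      have h1 := hmem u hu
      rw [hyc u] at h1
      exact (keyp y u).2 h1
    · intro p
      have h1 := hint (ixe m b π p)
      have h3 : Dr m b π ρ c v (ixe m b π p) = dl m b ρ c (ch p) (ex p) * v p := by
        unfold Dr
        rw [Rot_ch, Rot_ex, Equiv.symm_apply_apply]
      rw [h3] at h1
      have h5 : (∫ u in (0 : ℝ)..1, (ρ * Q.1 - ρ * P.1) *
          om m (b ∘ π) (rt π ρ t) (ρ * P.1 + u * (ρ * Q.1 - ρ * P.1), y' u) (ixe m b π p)) =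
          ∫ u in (0 : ℝ)..1, (ρ * Q.1 - ρ * P.1) *
          om m (b ∘ π) (rt π ρ t) (ρ * P.1 + u * (ρ * Q.1 - ρ * P.1), c * y u)
            (ixe m b π p) := by
        refine intervalIntegral.integral_congr fun u _ => ?_
        simp only [hyc u]
      have h6 := h1.trans (h5.trans (key y (ixe m b π p)))
      rw [Rot_ch, Rot_ex, Equiv.symm_apply_apply] at h6
      exact mul_left_cancel₀ (Rot_dl0 hρ hc _ _) h6

private lemma Rot_itg1 (hρ : ρ ≠ 0) (hc : c ≠ 0) (hcm : c ^ m = ρ ^ (∑ j, b j)) (P Q : ℂ × ℂ)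
    (v : Ix m b → ℂ) (h : Itg m b t P Q v) :
    Itg m (b ∘ π) (rt π ρ t) (ρ * P.1, c * P.2) (ρ * Q.1, c * Q.2) (Dr m b π ρ c v) := by
  induction h with
  | refl hP =>
    rw [Rot_Drz]
    exact Itg.refl _ ((Rot_pts hρ hcm P).1 hP)
  | step _ h' ih =>
    rw [Rot_Dra]
    exact Itg.step ih ((Rot_seg hρ hc hcm _ _ _).1 h')

private lemma Rot_itg2 (hρ : ρ ≠ 0) (hc : c ≠ 0) (hcm : c ^ m = ρ ^ (∑ j, b j)) (P Q : ℂ × ℂ)
    (v : Ix m (b ∘ π) → ℂ) (h : Itg m (b ∘ π) (rt π ρ t) P Q v) :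
    Itg m b t (ρ⁻¹ * P.1, c⁻¹ * P.2) (ρ⁻¹ * Q.1, c⁻¹ * Q.2) (Ds m b π ρ c v) := by
  have e : ∀ P : ℂ × ℂ, (ρ * (ρ⁻¹ * P.1), c * (c⁻¹ * P.2)) = P := by
    intro P
    rw [← mul_assoc, ← mul_assoc, mul_inv_cancel₀ hρ, mul_inv_cancel₀ hc, one_mul, one_mul]
  induction h with
  | refl hP =>
    rw [Rot_Dsz]
    refine Itg.refl _ ((Rot_pts (π := π) (c := c) hρ hcm _).2 ?_)
    simp only
    rw [e P]
    exact hP
  | @step Q R v w _ h' ih =>
    rw [Rot_Dsa]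
    refine Itg.step ih ((Rot_seg (π := π) hρ hc hcm _ _ _).2 ?_)
    simp only
    rw [e Q, e R, Rot_DrDs hρ hc]
    exact h'

end aux

theorem tRot : S_Rot := by
  intro m r b t π ρ c hm hρ1 hcm
  have hρ : ρ ≠ 0 := by
    intro h0
    rw [h0, norm_zero] at hρ1
    exact zero_ne_one hρ1
  have hc : c ≠ 0 := by
    intro h0
    rw [h0, zero_pow (by omega)] at hcm
    exact pow_ne_zero _ hρ hcm.symm
  have e : ∀ P : ℂ × ℂ, (ρ⁻¹ * (ρ * P.1), c⁻¹ * (c * P.2)) = P := by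
    intro P
    rw [← mul_assoc, ← mul_assoc, inv_mul_cancel₀ hρ, inv_mul_cancel₀ hc, one_mul, one_mul]
  have e' : ∀ P : ℂ × ℂ, (ρ * (ρ⁻¹ * P.1), c * (c⁻¹ * P.2)) = P := by
    intro P
    rw [← mul_assoc, ← mul_assoc, mul_inv_cancel₀ hρ, mul_inv_cancel₀ hc, one_mul, one_mul]
  have hI : ∀ P Q v, Itg m b t P Q v ↔ Itg m (b ∘ π) (rt π ρ t) (ρ * P.1, c * P.2)
      (ρ * Q.1, c * Q.2) (Dr m b π ρ c v) := by
    intro P Q v
    constructor
    · exact Rot_itg1 hρ hc hcm P Q v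
    · intro h
      have h1 := Rot_itg2 hρ hc hcm _ _ _ h
      simp only at h1
      rw [e P, e Q, Rot_DsDr hρ hc] at h1
      exact h1
  refine ⟨Rot_DsDr hρ hc, Rot_DrDs hρ hc, ?_, Rot_pts hρ hcm, hI, ?_⟩
  · intro v
    funext p
    have h1 : Dr m b π ρ c (Zd m b v) p =
        dl m b ρ c (ch p) (ex p) * (ze m (ch p) * v ((ixe m b π).symm p)) := rfl
    have h2 : Zd m (b ∘ π) (Dr m b π ρ c v) p =
        ze m (ch p) * (dl m b ρ c (ch p) (ex p) * v ((ixe m b π).symm p)) := rfl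
    rw [h1, h2]
    ring
  · intro v
    constructor
    · rintro ⟨k, hk, P, hP⟩
      refine ⟨k, hk, (ρ * P.1, c * P.2), ?_⟩
      rw [← Rot_Drn]
      exact (hI P P (k • v)).1 hP
    · rintro ⟨k, hk, P, hP⟩
      refine ⟨k, hk, (ρ⁻¹ * P.1, c⁻¹ * P.2), ?_⟩
      rw [hI]
      simp only
      rw [e' P, Rot_Drn]
      exact hP

end TATE.FA
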