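import Pool.Agent.Lib.TATE.FA.Spec

/-!
# PROJECT TATE, package FA, module Rts: local branches of `y`
-/

set_option autoImplicit false

open Topology Metric MeasureTheory

noncomputable section

namespace TATE.FA

open SEJ TATE

theorem Rts_pow {m : ℕ} (hm : m ≠ 0) (z : ℂ) (b : ℕ) : (z ^ ((b : ℂ) / m)) ^ m = z ^ b := by
  rw [← Complex.cpow_nat_mul]
  have hm' : (m : ℂ) ≠ 0 := Nat.cast_ne_zero.mpr hm
  rw [mul_div_cancel₀ _ hm', Complex.cpow_natCast]

theorem Rts_prod {ι E : Type} [NormedAddCommGroup E] [NormedSpace ℂ E] (u : Finset ι)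
    (g : ι → E → ℂ) (S : Set E) (h : ∀ i, DifferentiableOn ℂ (g i) S) :
    DifferentiableOn ℂ (fun x => ∏ i ∈ u, g i x) S := by
  classical
  induction u using Finset.induction_on with
  | empty => simp only [Finset.prod_empty]; exact differentiableOn_const _
  | insert a s ha ih =>
    simp only [Finset.prod_insert ha]
    exact (h a).mul ih

/-- **Rts**: local branches. -/
theorem tRts : S_Rts := by
  intro m r b hm e U ξ₀ t P hU hξ₀ ht hP
  have hm0 : m ≠ 0 := by omega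
  obtain ⟨hP1, hP2⟩ := hP
  have hne : ∀ j, P.1 - t ξ₀ j ≠ 0 := fun j h => hP1 ⟨j, (sub_eq_zero.mp h).symm⟩
  have htj : ∀ j, DifferentiableOn ℂ (fun ξ => t ξ j) U := fun j =>
    (differentiableOn_pi.1 ht) j
  have hq : ∀ j, DifferentiableOn ℂ (fun ξ => (P.1 - t ξ j) / (P.1 - t ξ₀ j)) U := by
    intro j
    simp only [div_eq_mul_inv]
    exact ((htj j).const_sub P.1).mul_const _
  have hqc : ContinuousOn (fun ξ j => (P.1 - t ξ j) / (P.1 - t ξ₀ j)) U :=
    continuousOn_pi.2 fun j => (hq j).continuousOn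
  have hS : IsOpen (Set.univ.pi fun _ : Fin (r + 1) => Complex.slitPlane) :=
    isOpen_set_pi Set.finite_univ fun _ _ => Complex.isOpen_slitPlane
  refine ⟨U ∩ (fun ξ j => (P.1 - t ξ j) / (P.1 - t ξ₀ j)) ⁻¹'
    (Set.univ.pi fun _ : Fin (r + 1) => Complex.slitPlane), Set.inter_subset_left,
    hqc.isOpen_inter_preimage hU hS, ⟨hξ₀, ?_⟩,
    fun ξ => P.2 * ∏ j, ((P.1 - t ξ j) / (P.1 - t ξ₀ j)) ^ ((b j : ℂ) / m), ?_, ?_, ?_⟩
  · intro j _
    change (P.1 - t ξ₀ j) / (P.1 - t ξ₀ j) ∈ Complex.slitPlane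
    rw [div_self (hne j)]
    exact Complex.one_mem_slitPlane
  · refine DifferentiableOn.const_mul ?_ _
    refine Rts_prod _ _ _ fun j => ?_
    refine DifferentiableOn.cpow ((hq j).mono Set.inter_subset_left)
      (differentiableOn_const _) ?_
    intro ξ hξ
    exact hξ.2 j (Set.mem_univ j)
  · have h1 : ∏ j, ((P.1 - t ξ₀ j) / (P.1 - t ξ₀ j)) ^ ((b j : ℂ) / m) = 1 := by
      refine Finset.prod_eq_one fun j _ => ?_
      rw [div_self (hne j), Complex.one_cpow]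
    change P.2 * ∏ j, ((P.1 - t ξ₀ j) / (P.1 - t ξ₀ j)) ^ ((b j : ℂ) / m) = P.2
    rw [h1, mul_one]
  · intro ξ hξ
    constructor
    · rintro ⟨j, hj⟩
      have h1 : (P.1 - t ξ j) / (P.1 - t ξ₀ j) ∈ Complex.slitPlane := hξ.2 j (Set.mem_univ j)
      have h2 := Complex.slitPlane_ne_zero h1
      have h3 : t ξ j = P.1 := hj
      rw [h3, sub_self, zero_div] at h2
      exact h2 rfl
    · change (P.2 * ∏ j, ((P.1 - t ξ j) / (P.1 - t ξ₀ j)) ^ ((b j : ℂ) / m)) ^ m =
        ∏ j, (P.1 - t ξ j) ^ b j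
      rw [mul_pow, hP2, ← Finset.prod_pow, ← Finset.prod_mul_distrib]
      refine Finset.prod_congr rfl fun j _ => ?_
      rw [Rts_pow hm0, div_pow, mul_div_cancel₀ _ (pow_ne_zero _ (hne j))]

end TATE.FA
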