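import Pool.Agent.Lib.TATE.FA.Spec2

/-!
# PROJECT TATE, package FA: rotation of the integral lattice
-/

set_option autoImplicit false

open Topology Metric MeasureTheory

noncomputable section

namespace TATE.FA

open SEJ TATE
open SECR (cutp)
open HC (AV)
open HC.SE (New IsCov)

theorem tRtz : S_Rot → S_Rtz := by
  intro hR m r b t π ρ c hm hρ hc v
  obtain ⟨-, -, -, -, hI, -⟩ := hR m r b t π ρ c hm hρ hc
  have hρ0 : ρ ≠ 0 := by
    intro h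
    rw [h, norm_zero] at hρ
    exact zero_ne_one hρ
  have hc0 : c ≠ 0 := by
    intro h
    rw [h, zero_pow (by omega)] at hc
    exact pow_ne_zero _ hρ0 hc.symm
  constructor
  · rintro ⟨P, hP⟩
    exact ⟨_, (hI P P v).mp hP⟩
  · rintro ⟨P, hP⟩
    refine ⟨(ρ⁻¹ * P.1, c⁻¹ * P.2), (hI _ _ v).mpr ?_⟩
    have h1 : ((ρ * (ρ⁻¹ * P.1), c * (c⁻¹ * P.2)) : ℂ × ℂ) = P := by
      rw [mul_inv_cancel_left₀ hρ0, mul_inv_cancel_left₀ hc0]
    change Itg m (b ∘ π) (rt π ρ t) (ρ * (ρ⁻¹ * P.1), c * (c⁻¹ * P.2))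
      (ρ * (ρ⁻¹ * P.1), c * (c⁻¹ * P.2)) (Dr m b π ρ c v)
    rw [h1]
    exact hP

end TATE.FA
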