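import Pool.Agent.Lib.TATE.FA.Spec

/-!
# PROJECT TATE, package FA: uniqueness of the transport
-/

set_option autoImplicit false

open Topology Metric MeasureTheory

noncomputable section

namespace TATE.FA

open SEJ TATE
open SECR (cutp)
open HC (AV)
open HC.SE (New IsCov)

/-- The coordinates with respect to a continuous independent family are continuous. -/
theorem Uni_cont {T N E : Type} [TopologicalSpace T] [Fintype N] [NormedAddCommGroup E]
    [NormedSpace ℝ E] (W : T → N → E) (u : T → E) (X : T → N → ℝ) (B : Set T) (hB : IsOpen B)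
    (hW : ∀ q, ContinuousOn (fun t => W t q) B) (hu : ContinuousOn u B)
    (hli : ∀ t ∈ B, LinearIndependent ℝ (W t)) (hX : ∀ t ∈ B, u t = ∑ q, X t q • W t q) :
    ContinuousOn X B := by
  intro t0 ht0
  apply ContinuousAt.continuousWithinAt
  have hnb : B ∈ 𝓝 t0 := hB.mem_nhds ht0
  let f : T → (N → ℝ) →ₗ[ℝ] E := fun t => Fintype.linearCombination ℝ (W t)
  have hf : ∀ t x, f t x = ∑ q, x q • W t q := fun t x => Fintype.linearCombination_apply ℝ (W t) x
  have hker : LinearMap.ker (f t0) = ⊥ := by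
    rw [LinearMap.ker_eq_bot]
    exact linearIndependent_iff_injective_fintypeLinearCombination.1 (hli t0 ht0)
  obtain ⟨K, hK, hanti⟩ := (f t0).exists_antilipschitzWith hker
  have hK' : (0 : ℝ) < K := hK
  have hlow0 : ∀ x, ‖x‖ ≤ K * ‖f t0 x‖ := by
    intro x
    have := hanti.le_mul_dist x 0
    simpa [dist_eq_norm] using this
  let D : T → ℝ := fun t => ∑ q, ‖W t q - W t0 q‖
  have hWt : ∀ q, ContinuousAt (fun t => W t q) t0 := fun q => (hW q).continuousAt hnb
  have hD : Filter.Tendsto D (𝓝 t0) (𝓝 0) := by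
    have : Filter.Tendsto D (𝓝 t0) (𝓝 (∑ q : N, (0:ℝ))) := by
      apply tendsto_finsetSum
      intro q _
      have h1 : Filter.Tendsto (fun t => W t q - W t0 q) (𝓝 t0) (𝓝 (W t0 q - W t0 q)) :=
        (hWt q).sub tendsto_const_nhds
      rw [sub_self] at h1
      simpa using h1.norm
    simpa using this
  have hdiff : ∀ t x, ‖f t x - f t0 x‖ ≤ ‖x‖ * D t := by
    intro t x
    rw [hf, hf, ← Finset.sum_sub_distrib]
    calc ‖∑ q, (x q • W t q - x q • W t0 q)‖ ≤ ∑ q, ‖x q • W t q - x q • W t0 q‖ :=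
          norm_sum_le _ _
      _ ≤ ∑ q, ‖x‖ * ‖W t q - W t0 q‖ := by
          apply Finset.sum_le_sum
          intro q _
          rw [← smul_sub, norm_smul]
          exact mul_le_mul_of_nonneg_right (norm_le_pi_norm x q) (norm_nonneg _)
      _ = ‖x‖ * D t := by rw [Finset.mul_sum]
  have hev : ∀ᶠ t in 𝓝 t0, D t < 1 / (2 * K) :=
    (tendsto_order.1 hD).2 _ (by positivity)
  have hlow : ∀ᶠ t in 𝓝 t0, ∀ x, ‖x‖ ≤ 2 * K * ‖f t x‖ := by
    filter_upwards [hev] with t ht x
    have h1 := hlow0 x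
    have h2 := hdiff t x
    have h3 : ‖f t0 x‖ ≤ ‖f t x‖ + ‖x‖ * (1 / (2 * K)) := by
      have h4 : ‖f t0 x‖ ≤ ‖f t x‖ + ‖f t x - f t0 x‖ := by
        have := norm_sub_le (f t x) (f t x - f t0 x)
        simpa using this
      have h5 : ‖x‖ * D t ≤ ‖x‖ * (1 / (2 * K)) := mul_le_mul_of_nonneg_left ht.le (norm_nonneg _)
      linarith
    have h6 : (K : ℝ) * ‖f t0 x‖ ≤ K * (‖f t x‖ + ‖x‖ * (1 / (2 * K))) :=
      mul_le_mul_of_nonneg_left h3 hK'.le
    have h7 : (K : ℝ) * (‖f t x‖ + ‖x‖ * (1 / (2 * K))) = K * ‖f t x‖ + ‖x‖ / 2 := by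
      field_simp
    linarith
  have hmain : Filter.Tendsto (fun t => ‖X t - X t0‖) (𝓝 t0) (𝓝 0) := by
    have hR : Filter.Tendsto (fun t => 2 * K * ‖u t - f t (X t0)‖) (𝓝 t0) (𝓝 0) := by
      have h1 : Filter.Tendsto (fun t => f t (X t0)) (𝓝 t0) (𝓝 (f t0 (X t0))) := by
        simp only [hf]
        apply tendsto_finsetSum
        intro q _
        exact (hWt q).const_smul _
      have h2 : Filter.Tendsto (fun t => u t - f t (X t0)) (𝓝 t0) (𝓝 (u t0 - f t0 (X t0))) :=
        (hu.continuousAt hnb).sub h1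
      have h3 : u t0 - f t0 (X t0) = 0 := by
        rw [hf, hX t0 ht0, sub_self]
      rw [h3] at h2
      have h4 := (h2.norm).const_mul (2 * (K : ℝ))
      simpa using h4
    refine tendsto_of_tendsto_of_tendsto_of_le_of_le' tendsto_const_nhds hR
      (Filter.Eventually.of_forall fun t => norm_nonneg _) ?_
    filter_upwards [hlow, hnb] with t ht htB
    have h1 := ht (X t - X t0)
    have h2 : f t (X t - X t0) = u t - f t (X t0) := by
      rw [map_sub, hf t (X t), ← hX t htB]
    rwa [h2] at h1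
  exact tendsto_iff_norm_sub_tendsto_zero.2 hmain

/-- Coordinates with rational values are constant. -/
theorem Uni_const {T N E : Type} [TopologicalSpace T] [Fintype N] [NormedAddCommGroup E]
    [NormedSpace ℝ E] (W : T → N → E) (u : T → E) (B : Set T) (hB : IsOpen B)
    (hc : IsPreconnected B)
    (hW : ∀ q, ContinuousOn (fun t => W t q) B) (hu : ContinuousOn u B)
    (hli : ∀ t ∈ B, LinearIndependent ℝ (W t))
    (hX : ∀ t ∈ B, ∃ x : N → ℚ, u t = ∑ q, (x q : ℝ) • W t q) (t0 : T) (ht0 : t0 ∈ B) (q0 : N)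
    (h0 : u t0 = W t0 q0) : ∀ t ∈ B, u t = W t q0 := by
  classical
  choose! x hx using hX
  let X : T → N → ℝ := fun t q => (x t q : ℝ)
  have hcont : ContinuousOn X B := Uni_cont W u X B hB hW hu hli hx
  have hcnt : (Set.range fun y : N → ℚ => fun q => (y q : ℝ)).Countable := Set.countable_range _
  have hsub : (X '' B).Subsingleton := by
    refine hcnt.isTotallyDisconnected _ ?_ (hc.image X hcont)
    rintro _ ⟨t, -, rfl⟩
    exact ⟨x t, rfl⟩
  have hX0 : X t0 = Pi.single q0 1 := by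
    have h1 := linearIndependent_iff_injective_fintypeLinearCombination.1 (hli t0 ht0)
    apply h1
    rw [Fintype.linearCombination_apply, Fintype.linearCombination_apply]
    have h2 : ∑ q, X t0 q • W t0 q = u t0 := (hx t0 ht0).symm
    rw [h2, h0]
    rw [Finset.sum_eq_single q0]
    · simp
    · intro q _ hq
      simp [Pi.single_eq_of_ne hq]
    · intro h
      exact absurd (Finset.mem_univ _) h
  intro t ht
  have h3 : X t = Pi.single q0 1 := by
    rw [← hX0]
    exact hsub ⟨t, ht, rfl⟩ ⟨t0, ht0, rfl⟩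
  have h4 : u t = ∑ q, X t q • W t q := hx t ht
  rw [h4, h3, Finset.sum_eq_single q0]
  · simp
  · intro q _ hq
    simp [Pi.single_eq_of_ne hq]
  · intro h
    exact absurd (Finset.mem_univ _) h

/-- **Uni**: uniqueness of the transport. -/
theorem tUni : S_Chf → S_Uni := by
  intro hChf m r b π ρ c hb hρ hc t δ τ hδ hUp h1 hLQ hcont t' ht' q
  obtain ⟨hA, hB⟩ := hChf m r b π ρ c hb hρ hc
  have ht : t ∈ ball t δ := mem_ball_self hδ
  have hmem : frc m b π ρ c t q ∈ LQ m b t := by
    rw [(hA t (hUp t ht)).2.2]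
    refine ⟨Pi.single q 1, ?_⟩
    rw [Finset.sum_eq_single q]
    · simp
    · intro q' _ hq
      simp [Pi.single_eq_of_ne hq]
    · intro h
      exact absurd (Finset.mem_univ _) h
  refine Uni_const (fun s => frc m b π ρ c s) (fun s => τ s (frc m b π ρ c t q)) (ball t δ)
    isOpen_ball (convex_ball t δ).isPreconnected ?_ (hcont _) (fun s hs => (hA s (hUp s hs)).2.1)
    ?_ t ht q (h1 _) t' ht'
  · intro q'
    exact (hB q').continuousOn.mono fun s hs => hUp s hs
  · intro s hs
    have h2 : τ s (frc m b π ρ c t q) ∈ LQ m b s := by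
      rw [← hLQ s hs]
      exact ⟨_, hmem, rfl⟩
    rw [(hA s (hUp s hs)).2.2] at h2
    obtain ⟨x, hx⟩ := h2
    refine ⟨x, ?_⟩
    show τ s (frc m b π ρ c t q) = _
    rw [hx]
    apply Finset.sum_congr rfl
    intro q' _
    funext p
    simp

end TATE.FA
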