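import Pool.Agent.Lib.TATE.FA.Spec
import Pool.Agent.Lib.SE.CR.Al

/-!
# TATE, FA: the frame is in the rational lattice (helper36)
-/

set_option autoImplicit false

open Topology Metric MeasureTheory

noncomputable section

namespace TATE.FA

open SEJ TATE
open SECR (cutp)
open HC (AV)
open HC.SE (New IsCov)

section vec

variable {m r : ℕ} {b : Fin (r + 1) → ℕ} {s : Fin (r + 1) → ℂ}

private theorem Vec_sub (n : ℕ) (v w : Ix m b → ℂ) :
    Zn m b n (v - w) = Zn m b n v - Zn m b n w := by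
  funext p
  exact mul_sub _ _ _

private theorem Vec_zz (n k : ℕ) (v : Ix m b → ℂ) : Zn m b n (Zn m b k v) = Zn m b (k + n) v := by
  funext p
  change ze m (ch p) ^ n * (ze m (ch p) ^ k * v p) = ze m (ch p) ^ (k + n) * v p
  ring

private theorem Vec_pow (hm : m ≠ 0) (u : ℕ) : ze m u ^ m = 1 := by
  unfold ze
  rw [← Complex.exp_nat_mul, Complex.exp_eq_one_iff]
  refine ⟨u, ?_⟩
  have : (m : ℂ) ≠ 0 := Nat.cast_ne_zero.mpr hm
  field_simp
  push_cast
  ring

private theorem Vec_inv (hm : m ≠ 0) (u n : ℕ) : ze m u ^ ((m - 1) * n) = (ze m u ^ n)⁻¹ := by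
  refine eq_inv_of_mul_eq_one_left ?_
  rw [← pow_add]
  have h : (m - 1) * n + n = m * n := by
    obtain ⟨k, rfl⟩ := Nat.exists_eq_succ_of_ne_zero hm
    simp only [Nat.succ_eq_add_one, Nat.add_sub_cancel]
    ring
  rw [h, pow_mul, Vec_pow hm, one_pow]

/-- `P_k` in terms of the `A_l`. -/
private theorem Vec_P (hc : IsCov m s b) (hs : Up s) (k : Fin (r + 1)) :
    Pm m b s k = Am m b s k + ∑ l ∈ Finset.Ioi k,
      (Am m b s l - Zn m b ((m - 1) * b l) (Am m b s l)) := by
  have hm : m ≠ 0 := by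
    have := hc.1
    omega
  funext p
  obtain ⟨-, h2, -, -, -, -, -, -, -, h3⟩ := tN0 s b hc (ch p) p.1.1.2 p.2.1
  have h4 := xE2 s _ _ (h3 hs (ex p) p.2.2) k
  change Pp s (frm s (SEJ.mu m b (ch p)) (Polynomial.X ^ ex p)) k = _
  rw [h4, Pi.add_apply, Finset.sum_apply]
  change _ = Tp s (frm s (SEJ.mu m b (ch p)) (Polynomial.X ^ ex p)) k + _
  congr 1
  refine Finset.sum_congr rfl fun l _ => ?_
  rw [h2 l, Pi.sub_apply]
  change _ = Tp s (frm s (SEJ.mu m b (ch p)) (Polynomial.X ^ ex p)) l -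
    ze m (ch p) ^ ((m - 1) * b l) * Tp s (frm s (SEJ.mu m b (ch p)) (Polynomial.X ^ ex p)) l
  rw [Vec_inv hm]
  ring

/-- The relation between the `A_l`. -/
private theorem Vec_A (hc : IsCov m s b) (hs : Up s) :
    ∑ l, (Am m b s l - Zn m b ((m - 1) * b l) (Am m b s l)) = 0 := by
  have hm : m ≠ 0 := by
    have := hc.1
    omega
  funext p
  obtain ⟨-, h2, -, -, -, -, -, -, -, h3⟩ := tN0 s b hc (ch p) p.1.1.2 p.2.1
  have h4 := xE1 s _ _ (h3 hs (ex p) p.2.2)
  rw [Finset.sum_apply, Pi.zero_apply, ← h4]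
  refine Finset.sum_congr rfl fun l _ => ?_
  rw [h2 l, Pi.sub_apply]
  change Tp s (frm s (SEJ.mu m b (ch p)) (Polynomial.X ^ ex p)) l -
    ze m (ch p) ^ ((m - 1) * b l) * Tp s (frm s (SEJ.mu m b (ch p)) (Polynomial.X ^ ex p)) l = _
  rw [Vec_inv hm]
  ring

/-- `P_k - P_l` is in the lattice. -/
private theorem Vec_com (hAlg : S_Alg) (hLq : S_Lq) (hCon : S_Con) (hLop : S_Lop)
    (hc : IsCov m s b) (hs : Up s) (k l : Fin (r + 1)) :
    Pm m b s k - Pm m b s l ∈ LQ m b s := by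
  have hm : 1 ≤ m := by
    have := hc.1
    omega
  obtain ⟨-, -, hA3, -⟩ := hAlg m r b s hm
  obtain ⟨-, -, -, -, hq5, hq6⟩ := hLq m r b s hm
    (hCon m r b s ⟨hc.1, hc.2.2.1, hc.2.2.2.1, hc.2.2.2.2⟩ hc.2.1)
  obtain ⟨-, hL2⟩ := hLop m r b s hc hs
  obtain ⟨x, hx⟩ : ∃ x, x ∈ cutp s := by
    refine ⟨((∑ j, |(s j).re|) + 1 : ℝ), ?_⟩
    intro j _
    rw [Complex.ofReal_re]
    have h1 : |(s j).re| ≤ ∑ j, |(s j).re| :=
      Finset.single_le_sum (f := fun j => |(s j).re|) (fun i _ => abs_nonneg _)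
        (Finset.mem_univ j)
    have h2 := le_abs_self (s j).re
    linarith
  have h1 := hA3 _ _ _ _ _ (hL2 0 k x hx) (hL2 (0 + b k) l x hx)
  have h2 := hA3 _ _ _ _ _ (hL2 0 l x hx) (hL2 (0 + b l) k x hx)
  have h3 : 0 + b l + b k = 0 + b k + b l := by ring
  rw [h3] at h2
  have h4 := hq5 _ _ _ _ h1 h2
  refine hq6 (b k) (hc.2.2.1 k) _ (hq6 (b l) (hc.2.2.1 l) _ ?_)
  convert h4 using 1
  funext p
  simp only [Zn, Pi.add_apply, Pi.sub_apply, zero_add, pow_zero, one_mul]
  ring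

end vec

theorem tVec : S_Alg → S_Lq → S_Con → S_Lop → S_Vec := by
  intro hAlg hLq hCon hLop m r b s hc hs q
  have hm : 1 ≤ m := by
    have := hc.1
    omega
  have hm0 : m ≠ 0 := by omega
  obtain ⟨hq1, hq2, hq3, hq4, -, hq6⟩ := hLq m r b s hm
    (hCon m r b s ⟨hc.1, hc.2.2.1, hc.2.2.2.1, hc.2.2.2.2⟩ hc.2.1)
  have hneg : ∀ v ∈ LQ m b s, -v ∈ LQ m b s := by
    intro v hv
    have h := hq3 (-1) v hv
    have h1 : (((-1 : ℚ) : ℝ) : ℂ) = -1 := by norm_num
    rwa [h1, neg_one_smul] at h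
  have hsub : ∀ v ∈ LQ m b s, ∀ w ∈ LQ m b s, v - w ∈ LQ m b s := by
    intro v hv w hw
    rw [sub_eq_add_neg]
    exact hq2 v hv _ (hneg w hw)
  -- the difference of neighbours
  have hstep : ∀ i : Fin r, Am m b s i.castSucc -
      Zn m b ((m - 1) * b i.succ) (Am m b s i.succ) ∈ LQ m b s := by
    intro i
    have h1 := Vec_com hAlg hLq hCon hLop hc hs i.castSucc i.succ
    have h2 := Vec_P hc hs i.castSucc
    have h3 := Vec_P hc hs i.succ
    have h4 : Finset.Ioi i.castSucc = insert i.succ (Finset.Ioi i.succ) := by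
      ext j
      rw [Finset.mem_insert, Finset.mem_Ioi, Finset.mem_Ioi, Fin.castSucc_lt_iff_succ_le,
        le_iff_eq_or_lt]
      exact or_congr_left eq_comm
    rw [h4, Finset.sum_insert (by simp)] at h2
    have h5 : Pm m b s i.castSucc - Pm m b s i.succ = Am m b s i.castSucc -
        Zn m b ((m - 1) * b i.succ) (Am m b s i.succ) := by
      rw [h2, h3]
      abel
    rwa [h5] at h1
  -- downwards induction
  have hind : ∀ k : Fin (r + 1), Am m b s k -
      Zn m b ((m - 1) * ∑ l ∈ Finset.Ioi k, b l) (Am m b s (Fin.last r)) ∈ LQ m b s := by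
    intro k
    induction k using Fin.reverseInduction with
    | last =>
      have h1 : Finset.Ioi (Fin.last r) = ∅ := by
        ext j
        simp [Fin.le_last]
      rw [h1, Finset.sum_empty, mul_zero]
      have h2 : Zn m b 0 (Am m b s (Fin.last r)) = Am m b s (Fin.last r) := by
        funext p
        simp [Zn]
      rw [h2, sub_self]
      exact hq1
    | cast i ih =>
      have h4 : Finset.Ioi i.castSucc = insert i.succ (Finset.Ioi i.succ) := by
        ext j
        rw [Finset.mem_insert, Finset.mem_Ioi, Finset.mem_Ioi, Fin.castSucc_lt_iff_succ_le,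
          le_iff_eq_or_lt]
        exact or_congr_left eq_comm
      rw [h4, Finset.sum_insert (by simp)]
      have h5 := hq4 ((m - 1) * b i.succ) _ ih
      rw [Vec_sub, Vec_zz] at h5
      have h6 := hq2 _ (hstep i) _ h5
      convert h6 using 1
      have h7 : (m - 1) * (b i.succ + ∑ l ∈ Finset.Ioi i.succ, b l) =
          (m - 1) * ∑ l ∈ Finset.Ioi i.succ, b l + (m - 1) * b i.succ := by ring
      rw [h7]
      abel
  -- the last one
  have hlast : Am m b s (Fin.last r) ∈ LQ m b s := by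
    have h0 : (Finset.univ : Finset (Fin (r + 1))) = insert 0 (Finset.Ioi 0) := by
      ext j
      simp only [Finset.mem_univ, Finset.mem_insert, Finset.mem_Ioi, true_iff]
      rcases Fin.eq_zero_or_eq_succ j with rfl | ⟨i, rfl⟩
      · exact Or.inl rfl
      · exact Or.inr (Fin.succ_pos i)
    have h1 := Vec_P hc hs 0
    have h2 := Vec_A hc hs
    rw [h0, Finset.sum_insert (by simp)] at h2
    have h3 : Pm m b s 0 = Zn m b ((m - 1) * b 0) (Am m b s 0) := by
      rw [h1]
      have h4 := eq_neg_of_add_eq_zero_right h2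
      rw [h4]
      abel
    have h4 : Pm m b s (Fin.last r) = Am m b s (Fin.last r) := by
      rw [Vec_P hc hs (Fin.last r)]
      have h5 : Finset.Ioi (Fin.last r) = ∅ := by
        ext j
        simp [Fin.le_last]
      rw [h5, Finset.sum_empty, add_zero]
    have h5 := Vec_com hAlg hLq hCon hLop hc hs (Fin.last r) 0
    rw [h3, h4] at h5
    have h6 := hq4 ((m - 1) * b 0) _ (hind 0)
    rw [Vec_sub, Vec_zz] at h6
    have h7 := hq2 _ h5 _ h6
    have h8 : (m - 1) * ∑ l ∈ Finset.Ioi 0, b l + (m - 1) * b 0 = (m - 1) * ∑ l, b l := by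
      rw [h0, Finset.sum_insert (by simp)]
      ring
    rw [h8] at h7
    refine hq6 ((m - 1) * ∑ l, b l) ?_ _ ?_
    · intro h9
      refine hc.2.2.2.1 ?_
      have h10 : Nat.Coprime m (m - 1) := by
        have h11 : m = (m - 1) + 1 := by omega
        rw [h11]
        simp
      exact h10.dvd_of_dvd_mul_left h9
    · convert h7 using 1
      abel
  have hA : ∀ k, Am m b s k ∈ LQ m b s := by
    intro k
    have h1 := hq2 _ (hind k) _ (hq4 ((m - 1) * ∑ l ∈ Finset.Ioi k, b l) _ hlast)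
    rwa [sub_add_cancel] at h1
  exact hq4 _ _ (hA _)

end TATE.FA
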