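import Pool.Agent.Lib.TATE.FA.Spec2

/-!
# The algebra of words
-/

set_option autoImplicit false

open Topology Metric MeasureTheory

noncomputable section

namespace TATE.FA

open SEJ TATE

private theorem Wrd_ze_pow (m u : ℕ) : ze m u = ze m 1 ^ u := by
  rw [ze, ze, ← Complex.exp_nat_mul]
  congr 1
  push_cast
  ring

private theorem Wrd_ze_m (m : ℕ) (hm : 1 ≤ m) (u : ℕ) : ze m u ^ m = 1 := by
  have hm' : (m : ℂ) ≠ 0 := Nat.cast_ne_zero.mpr (by omega)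
  have h1 : ze m 1 ^ m = 1 := by
    rw [← Wrd_ze_pow, ze]
    have : 2 * (Real.pi : ℂ) * Complex.I * (m : ℂ) / m = 2 * Real.pi * Complex.I := by
      field_simp
    rw [this, Complex.exp_two_pi_mul_I]
  rw [Wrd_ze_pow, ← pow_mul, mul_comm, pow_mul, h1, one_pow]

variable {m r : ℕ} {b : Fin (r + 1) → ℕ}

private theorem Wrd_zn_zero (n : ℕ) : Zn m b n 0 = 0 := by
  funext p
  simp [Zn]

private theorem Wrd_zn_add (n : ℕ) (u v : Ix m b → ℂ) :
    Zn m b n (u + v) = Zn m b n u + Zn m b n v := by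
  funext p
  simp [Zn, mul_add]

private theorem Wrd_zn_sub (n : ℕ) (u v : Ix m b → ℂ) :
    Zn m b n (u - v) = Zn m b n u - Zn m b n v := by
  funext p
  simp [Zn, mul_sub]

private theorem Wrd_zn_zn (f g : ℕ) (v : Ix m b → ℂ) :
    Zn m b f (Zn m b g v) = Zn m b (f + g) v := by
  funext p
  simp only [Zn]
  rw [pow_add, mul_assoc]

private theorem Wrd_zn_nil (v : Ix m b → ℂ) : Zn m b 0 v = v := by
  funext p
  simp [Zn]

private theorem Wrd_zn_mul (hm : 1 ≤ m) (f k : ℕ) (v : Ix m b → ℂ) :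
    Zn m b (f + m * k) v = Zn m b f v := by
  funext p
  simp only [Zn]
  rw [pow_add, pow_mul, Wrd_ze_m m hm, one_pow, mul_one]

private theorem Wrd_zn_dvd (hm : 1 ≤ m) {f : ℕ} (h : m ∣ f) (v : Ix m b → ℂ) :
    Zn m b f v = v := by
  obtain ⟨k, rfl⟩ := h
  have := Wrd_zn_mul hm 0 k v
  rw [zero_add] at this
  rw [this, Wrd_zn_nil]

private theorem Wrd_zn_mod (hm : 1 ≤ m) {f g : ℕ} (h : f ≡ g [MOD m]) (v : Ix m b → ℂ) :
    Zn m b f v = Zn m b g v := by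
  have h1 : ∀ n : ℕ, Zn m b n v = Zn m b (n % m) v := fun n => by
    conv_lhs => rw [← Nat.mod_add_div n m]
    exact Wrd_zn_mul hm _ _ v
  rw [h1 f, h1 g, h]

variable {p : Fin (r + 1) → (Ix m b → ℂ)}

private theorem Wrd_cast {f f' : ℕ} {v v' : Ix m b → ℂ} (h : Wr m b p f v) (hf : f = f')
    (hv : v = v') : Wr m b p f' v' := by
  subst hf
  subst hv
  exact h

private theorem Wrd_comp {f g : ℕ} {u v : Ix m b → ℂ} (h : Wr m b p f u) (h' : Wr m b p g v) :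
    Wr m b p (f + g) (u + Zn m b f v) := by
  induction h' with
  | nil =>
    rw [Wrd_zn_zero, add_zero, add_zero]
    exact h
  | @up g v k h' ih =>
    refine Wrd_cast (Wr.up k ih) (by ring) ?_
    rw [Wrd_zn_add, Wrd_zn_zn, add_assoc]

private theorem Wrd_rep (k : Fin (r + 1)) (n : ℕ) :
    Wr m b p (n * b k) (p k - Zn m b (n * b k) (p k)) := by
  induction n with
  | zero =>
    refine Wrd_cast Wr.nil (by ring) ?_
    rw [zero_mul, Wrd_zn_nil, sub_self]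
  | succ n ih =>
    refine Wrd_cast (Wr.up k ih) (by ring) ?_
    rw [Wrd_zn_sub, Wrd_zn_zn, sub_add_sub_cancel, Nat.succ_mul]

private theorem Wrd_inv (hm : 1 ≤ m) {f : ℕ} {u : Ix m b → ℂ} (h : Wr m b p f u) :
    ∃ g v, m ∣ f + g ∧ Wr m b p g v ∧ u + Zn m b f v = 0 := by
  induction h with
  | nil => exact ⟨0, 0, by simp, Wr.nil, by rw [Wrd_zn_zero, add_zero]⟩
  | @up f v0 k h ih =>
    obtain ⟨g, v, hg, hv, h0⟩ := ih
    refine ⟨(m - 1) * b k + g, _, ?_, Wrd_comp (Wrd_rep k (m - 1)) hv, ?_⟩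
    · have h1 : f + b k + ((m - 1) * b k + g) = (f + g) + m * b k := by
        obtain ⟨n, rfl⟩ : ∃ n, m = n + 1 := ⟨m - 1, by omega⟩
        rw [Nat.add_sub_cancel]
        ring
      rw [h1]
      exact dvd_add hg (dvd_mul_right _ _)
    · have h2 : f + b k + (m - 1) * b k = f + m * b k := by
        obtain ⟨n, rfl⟩ : ∃ n, m = n + 1 := ⟨m - 1, by omega⟩
        rw [Nat.add_sub_cancel]
        ring
      rw [Wrd_zn_add, Wrd_zn_sub, Wrd_zn_sub, Wrd_zn_zn, Wrd_zn_zn, Wrd_zn_zn, h2,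
        Wrd_zn_mul hm, Wrd_zn_mul hm]
      rw [← h0]
      abel

private theorem Wrd_reach (hm : 1 ≤ m) (hd : ∀ d, d ∣ m → (∀ j, d ∣ b j) → d = 1) (f : ℕ) :
    ∃ g u, g ≡ f [MOD m] ∧ Wr m b p g u := by
  let H : AddSubgroup ℤ :=
    { carrier := {x | ∃ g u, ((g : ℕ) : ℤ) ≡ x [ZMOD m] ∧ Wr m b p g u}
      zero_mem' := ⟨0, 0, by simp, Wr.nil⟩
      add_mem' := by
        rintro x y ⟨g, u, hg, hu⟩ ⟨g', u', hg', hu'⟩
        refine ⟨g + g', _, ?_, Wrd_comp hu hu'⟩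
        push_cast
        exact hg.add hg'
      neg_mem' := by
        rintro x ⟨g, u, hg, hu⟩
        obtain ⟨g', v, hd', hv, -⟩ := Wrd_inv hm hu
        refine ⟨g', v, ?_, hv⟩
        have h1 : ((g : ℤ) + (g' : ℤ)) ≡ 0 [ZMOD m] := by
          rw [Int.modEq_zero_iff_dvd]
          exact_mod_cast hd'
        have h2 := h1.sub hg
        have h3 : (g : ℤ) + (g' : ℤ) - (g : ℤ) = g' := by ring
        rw [h3, zero_sub] at h2
        exact h2 }
  have hm' : ((m : ℕ) : ℤ) ∈ H := ⟨0, 0, by simp [Int.ModEq], Wr.nil⟩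
  have hb : ∀ j, ((b j : ℕ) : ℤ) ∈ H := fun j =>
    ⟨0 + b j, _, by simp [Int.ModEq], Wr.up j Wr.nil⟩
  obtain ⟨a, ha⟩ := Int.subgroup_cyclic H
  have hdv : ∀ x ∈ H, a ∣ x := fun x hx => by
    rw [ha, ← AddSubgroup.zmultiples_eq_closure, Int.mem_zmultiples_iff] at hx
    exact hx
  have h1 : a.natAbs = 1 := hd _ (Int.natAbs_dvd_natAbs.2 (hdv _ hm'))
    (fun j => Int.natAbs_dvd_natAbs.2 (hdv _ (hb j)))
  have h2 : ((f : ℕ) : ℤ) ∈ H := by
    rw [ha, ← AddSubgroup.zmultiples_eq_closure, Int.mem_zmultiples_iff]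
    exact Int.natAbs_dvd.1 (by rw [h1]; simp)
  obtain ⟨g, u, hg, hu⟩ := h2
  exact ⟨g, u, by exact_mod_cast (Int.natCast_modEq_iff.1 hg), hu⟩

private theorem Wrd_map {p' : Fin (r + 1) → (Ix m b → ℂ)} (φ : (Ix m b → ℂ) →ₗ[ℝ] (Ix m b → ℂ))
    (h1 : ∀ n v, φ (Zn m b n v) = Zn m b n (φ v)) (h2 : ∀ k, φ (p k) = p' k) {f : ℕ}
    {u : Ix m b → ℂ} (h : Wr m b p f u) : Wr m b p' f (φ u) := by
  induction h with
  | nil =>
    rw [map_zero]
    exact Wr.nil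
  | @up f v k h ih =>
    refine Wrd_cast (Wr.up k ih) rfl ?_
    rw [map_add, h1, map_sub, h1, h2]

/-- **Wrd**: WORDS. -/
theorem tWrd : S_Wrd := by
  intro m r b p hm
  refine ⟨fun f g u v h h' => Wrd_comp h h', fun f u h => Wrd_inv hm h,
    ⟨0, dvd_zero _, Wr.nil⟩, ?_, ?_, ?_, fun hd f => Wrd_reach hm hd f,
    fun p' φ h1 h2 f u h => Wrd_map φ h1 h2 h⟩
  · rintro u ⟨f, hf, hu⟩ v ⟨g, hg, hv⟩
    refine ⟨f + g, dvd_add hf hg, ?_⟩
    have := Wrd_comp hu hv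
    rw [Wrd_zn_dvd hm hf] at this
    exact this
  · rintro v ⟨f, hf, hv⟩
    obtain ⟨g, v', hg, hv', h0⟩ := Wrd_inv hm hv
    rw [Wrd_zn_dvd hm hf] at h0
    have h1 : -v = v' := (eq_neg_of_add_eq_zero_right h0).symm
    rw [h1]
    exact ⟨g, (Nat.dvd_add_right hf).1 hg, hv'⟩
  · intro f g u v hu hv hfg
    obtain ⟨g', v', hg', hv', h0⟩ := Wrd_inv hm hv
    refine ⟨f + g', ?_, ?_⟩
    · have h1 : f + g' ≡ g + g' [MOD m] := hfg.add_right g'
      exact (Nat.modEq_zero_iff_dvd).1 (h1.trans (Nat.modEq_zero_iff_dvd.2 hg'))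
    · refine Wrd_cast (Wrd_comp hu hv') rfl ?_
      rw [Wrd_zn_mod hm hfg, sub_eq_add_neg, eq_neg_of_add_eq_zero_right h0]

end TATE.FA
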