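import Pool.Agent.Lib.TATE.FA.Alg
import Pool.Agent.Lib.TATE.FA.Lq
import Pool.Agent.Lib.TATE.FA.Rot
import Pool.Agent.Lib.TATE.FA.Cht
import Pool.Agent.Lib.TATE.FA.Itc
import Pool.Agent.Lib.TATE.FA.Crx
import Pool.Agent.Lib.TATE.FA.Lop
import Pool.Agent.Lib.TATE.FA.Prs
import Pool.Agent.Lib.TATE.FA.Rts
import Pool.Agent.Lib.TATE.FA.Pri
import Pool.Agent.Lib.TATE.FA.Conn
import Pool.Agent.Lib.TATE.FA.Vec
import Pool.Agent.Lib.TATE.FA.Li
import Pool.Agent.Lib.TATE.FA.Hlf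
import Pool.Agent.Lib.TATE.FA.Lft
import Pool.Agent.Lib.TATE.FA.Rnk
import Pool.Agent.Lib.TATE.FA.Chf
import Pool.Agent.Lib.TATE.FA.Gch
import Pool.Agent.Lib.TATE.FA.Gcs
import Pool.Agent.Lib.TATE.FA.Grt
import Pool.Agent.Lib.TATE.FA.Gpr
import Pool.Agent.Lib.TATE.FA.Uni
import Pool.Agent.Lib.TATE.FA.Fa1
import Pool.Agent.Lib.TATE.FA.Drv
import Pool.Agent.Lib.TATE.FA.Fa2
import Pool.Agent.Lib.TATE.FA.Fa3
import Pool.Agent.Lib.TATE.FA.Ex
import Pool.Agent.Lib.TATE.FA.Fa5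
import Pool.Agent.Lib.TATE.FA.Lzg
import Pool.Agent.Lib.TATE.FA.Rtz
import Pool.Agent.Lib.TATE.FA.Wrd
import Pool.Agent.Lib.TATE.FA.Lfg
import Pool.Agent.Lib.TATE.FA.Alp
import Pool.Agent.Lib.TATE.FA.Lzc
import Pool.Agent.Lib.TATE.FA.Cyc
import Pool.Agent.Lib.TATE.FA.Pk
import Pool.Agent.Lib.TATE.FA.Chz

/-!
# PROJECT TATE, package FA: the interface statements FA1 - FA5 (helper45)
-/

set_option autoImplicit false

namespace TATE.FA

theorem aLq : S_Lq := tLq tAlg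
theorem aLop : S_Lop := tLop tAlg tItc tCrx
theorem aPri : S_Pri := tPri tAlg tPrs tRts
theorem aCon : S_Con := tCon tAlg tRot tCht aLop aPri
theorem aVec : S_Vec := tVec tAlg aLq aCon aLop
theorem aRnk : S_Rnk := tRnk tAlg aLq aCon tLft
theorem aChf : S_Chf := tChf tRot aVec tLi tHlf aRnk
theorem aGcs : S_Gcs := tGcs tGch
theorem aGpr : S_Gpr := tGpr tRot tCht tGch tGrt
theorem aUni : S_Uni := tUni aChf
theorem aLzg : S_Lzg := tLzg tAlg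
theorem aRtz : S_Rtz := tRtz tRot
theorem aLzc : S_Lzc := tLzc aLop tWrd tLfg tAlp
theorem aPk : S_Pk := tPk tCyc
theorem aChz : S_Chz := tChz tRot aRtz aLzc tWrd aPk aChf
theorem aDrv : S_Drv := tDrv tAlg tLft

end TATE.FA

namespace TATE

open FA

theorem tFA1 : StmtFA1 := tFa1 aLq aCon tCht aChf aGpr aGcs tGrt tRot aChz
theorem tFA2 : StmtFA2 := tFa2 tAlg aLq aCon aPri aDrv
theorem tFA3 : StmtFA3 := tFa3 tAlg aLq aCon tLft aRnk tCht aChf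
theorem tFA5 : StmtFA5 := tFa5 tRot tCht aChf aUni

end TATE
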