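import Pool.Agent.Lib.TATE.FA.Spec

/-!
# The algebra of the integrals

Reversal, concatenation and change of sheet for the integrals of the forms along polygonal paths.
-/

set_option autoImplicit false

open Topology Metric MeasureTheory

noncomputable section

namespace TATE.FA

open SEJ TATE

private theorem Alg_ze_pow (m u : ℕ) : ze m u = ze m 1 ^ u := by
  rw [ze, ze, ← Complex.exp_nat_mul]
  congr 1
  push_cast
  ring

private theorem Alg_ze_one (m : ℕ) (hm : 1 ≤ m) : ze m 1 ^ m = 1 := by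
  have hm' : (m : ℂ) ≠ 0 := Nat.cast_ne_zero.mpr (by omega)
  rw [← Alg_ze_pow, ze]
  have : 2 * (Real.pi : ℂ) * Complex.I * (m : ℂ) / m = 2 * Real.pi * Complex.I := by
    field_simp
  rw [this, Complex.exp_two_pi_mul_I]

variable {m r : ℕ} {b : Fin (r + 1) → ℕ} {t : Fin (r + 1) → ℂ}

private theorem Alg_seg_left {P Q : ℂ × ℂ} {v : Ix m b → ℂ} (h : Seg m b t P Q v) :
    P ∈ Pts m b t := by
  obtain ⟨y, -, h0, -, h2, -⟩ := h
  have := h2 0 ⟨le_refl _, zero_le_one⟩
  rw [h0] at this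
  simpa using this

private theorem Alg_seg_right {P Q : ℂ × ℂ} {v : Ix m b → ℂ} (h : Seg m b t P Q v) :
    Q ∈ Pts m b t := by
  obtain ⟨y, -, -, h1, h2, -⟩ := h
  have := h2 1 ⟨zero_le_one, le_refl _⟩
  rw [h1] at this
  simpa using this

private theorem Alg_seg_rev {P Q : ℂ × ℂ} {v : Ix m b → ℂ} (h : Seg m b t P Q v) :
    Seg m b t Q P (-v) := by
  obtain ⟨y, hc, h0, h1, h2, h3⟩ := h
  refine ⟨fun u => y (1 - u), hc.comp (by fun_prop), by simpa using h1, by simpa using h0, ?_, ?_⟩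
  · intro u hu
    have h4 := h2 (1 - u) ⟨by linarith [hu.2], by linarith [hu.1]⟩
    have h5 : P.1 + ((1 - u : ℝ) : ℂ) * (Q.1 - P.1) = Q.1 + (u : ℂ) * (P.1 - Q.1) := by
      push_cast
      ring
    rw [h5] at h4
    exact h4
  · intro p
    have h6 : ∀ u : ℝ, (P.1 - Q.1) * om m b t (Q.1 + (u : ℂ) * (P.1 - Q.1), y (1 - u)) p =
        -(fun s : ℝ => (Q.1 - P.1) * om m b t (P.1 + (s : ℂ) * (Q.1 - P.1), y s) p) (1 - u) := by
      intro u
      have h5 : P.1 + ((1 - u : ℝ) : ℂ) * (Q.1 - P.1) = Q.1 + (u : ℂ) * (P.1 - Q.1) := by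
        push_cast
        ring
      simp only [h5]
      ring
    simp only [Pi.neg_apply]
    rw [intervalIntegral.integral_congr fun u _ => h6 u, intervalIntegral.integral_neg,
      intervalIntegral.integral_comp_sub_left
        (fun s : ℝ => (Q.1 - P.1) * om m b t (P.1 + (s : ℂ) * (Q.1 - P.1), y s) p), h3 p]
    simp

private theorem Alg_seg_itg {P Q : ℂ × ℂ} {v : Ix m b → ℂ} (h : Seg m b t P Q v) :
    Itg m b t P Q v := by
  have h1 := Itg.step (Itg.refl P (Alg_seg_left h)) h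
  rwa [zero_add] at h1

private theorem Alg_itg_left {P Q : ℂ × ℂ} {v : Ix m b → ℂ} (h : Itg m b t P Q v) :
    P ∈ Pts m b t := by
  induction h with
  | refl h => exact h
  | step _ _ ih => exact ih

private theorem Alg_itg_right {P Q : ℂ × ℂ} {v : Ix m b → ℂ} (h : Itg m b t P Q v) :
    Q ∈ Pts m b t := by
  cases h with
  | refl h => exact h
  | step _ h' => exact Alg_seg_right h'

private theorem Alg_trans {P Q R : ℂ × ℂ} {v w : Ix m b → ℂ} (h : Itg m b t P Q v)
    (h' : Itg m b t Q R w) : Itg m b t P R (v + w) := by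
  induction h' with
  | refl _ =>
    rw [add_zero]
    exact h
  | step _ h2 ih =>
    rw [← add_assoc]
    exact Itg.step ih h2

private theorem Alg_rev {P Q : ℂ × ℂ} {v : Ix m b → ℂ} (h : Itg m b t P Q v) :
    Itg m b t Q P (-v) := by
  induction h with
  | refl h =>
    rw [neg_zero]
    exact Itg.refl _ h
  | step _ h2 ih =>
    rw [neg_add_rev]
    exact Alg_trans (Alg_seg_itg (Alg_seg_rev h2)) ih

private theorem Alg_pts {P : ℂ × ℂ} (hm : 1 ≤ m) (n : ℕ) (h : P ∈ Pts m b t) :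
    (P.1, ze m 1 ^ n * P.2) ∈ Pts m b t := by
  refine ⟨h.1, ?_⟩
  have h1 := h.2
  change (ze m 1 ^ n * P.2) ^ m = _
  rw [mul_pow, ← pow_mul, mul_comm n m, pow_mul, Alg_ze_one m hm, one_pow, one_mul]
  exact h1

private theorem Alg_om (x y : ℂ) (n : ℕ) (p : Ix m b) :
    om m b t (x, ze m 1 ^ n * y) p = ze m (ch p) ^ n * om m b t (x, y) p := by
  simp only [om]
  rw [Alg_ze_pow m (ch p), mul_pow, ← pow_mul, ← pow_mul, mul_comm n (ch p)]
  ring

private theorem Alg_seg_sheet {P Q : ℂ × ℂ} {v : Ix m b → ℂ} (hm : 1 ≤ m) (n : ℕ)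
    (h : Seg m b t P Q v) :
    Seg m b t (P.1, ze m 1 ^ n * P.2) (Q.1, ze m 1 ^ n * Q.2) (Zn m b n v) := by
  obtain ⟨y, hc, h0, h1, h2, h3⟩ := h
  refine ⟨fun u => ze m 1 ^ n * y u, by fun_prop, by simp [h0], by simp [h1], ?_, ?_⟩
  · intro u hu
    exact Alg_pts hm n (h2 u hu)
  · intro p
    simp only [Alg_om, Zn, h3 p]
    rw [← intervalIntegral.integral_const_mul]
    congr 1
    funext u
    ring

private theorem Alg_sheet {P Q : ℂ × ℂ} {v : Ix m b → ℂ} (hm : 1 ≤ m) (n : ℕ)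
    (h : Itg m b t P Q v) :
    Itg m b t (P.1, ze m 1 ^ n * P.2) (Q.1, ze m 1 ^ n * Q.2) (Zn m b n v) := by
  induction h with
  | refl h =>
    have : Zn m b n (0 : Ix m b → ℂ) = 0 := by
      funext p
      simp [Zn]
    rw [this]
    exact Itg.refl _ (Alg_pts hm n h)
  | step _ h2 ih =>
    rename_i v w _
    have : Zn m b n (v + w) = Zn m b n v + Zn m b n w := by
      funext p
      simp [Zn, mul_add]
    rw [this]
    exact Itg.step ih (Alg_seg_sheet hm n h2)

/-- The algebra of the integrals. -/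
theorem tAlg : S_Alg := by
  intro m r b t hm
  refine ⟨fun P Q v h => ⟨Alg_seg_left h, Alg_seg_right h, Alg_seg_rev h, Alg_seg_itg h⟩,
    fun P Q v h => ⟨Alg_itg_left h, Alg_itg_right h, Alg_rev h⟩, fun P Q R v w h h' =>
    Alg_trans h h', fun P Q v n h => Alg_sheet hm n h⟩

end TATE.FA

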