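import Pool.Agent.Lib.TATE.FA.Spec

/-!
# TATE/FA/Fa4: the new part of the Jacobian exists for all branch points

`SEJ.tNewEx`, and the bundled structure `New` gives `IsNew`.
-/

set_option autoImplicit false

open HC (AV)

noncomputable section

namespace TATE.FA

private theorem Fa4_cy (T : AV) (m : ℕ) (Z : Module.End ℂ T.V) (hlat : ∀ v ∈ T.L, Z v ∈ T.L)
    (hcyc : Polynomial.aeval Z (Polynomial.cyclotomic m ℤ) = 0) : HC.CC.IsCy T m fun v => Z v := by
  have hpow : ∀ (k : ℕ) (v : T.V), (Z ^ k) v = (fun v => Z v)^[k] v := by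
    intro k v
    rw [Module.End.pow_apply]
  have hdeg : (Polynomial.cyclotomic m ℤ).natDegree < m + 1 := by
    rw [Polynomial.natDegree_cyclotomic]
    exact Nat.lt_succ_of_le (Nat.totient_le m)
  refine ⟨Z.isLinear, fun v hv => hlat v hv, fun v => ?_⟩
  have h := LinearMap.congr_fun hcyc v
  rw [Polynomial.aeval_eq_sum_range' hdeg, LinearMap.sum_apply, LinearMap.zero_apply] at h
  rw [← h]
  refine Finset.sum_congr rfl fun k _ => ?_
  rw [LinearMap.smul_apply, hpow]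
  exact Int.cast_smul_eq_zsmul ℂ _ _

theorem tFa4 : S_Fa4 := by
  intro m r b t hb hr ht
  obtain ⟨hm, hj, hs, hd⟩ := hb
  obtain ⟨T, N, _, _⟩ := SEJ.tNewEx t b ⟨hm, ht, hj, hs, hd⟩
  refine ⟨T, fun v => N.Z v, Fa4_cy T m N.Z N.lat N.cyc, N.dim,
    ⟨N.γ.P, N.γ.S, N.γ.α, N.γ.ω, N.γ.poly, N.γ.fin, N.γ.et, N.γ.map, N.γ.area⟩, N.P, N.S, N.equ,
    fun u hu huc i hi => ?_⟩
  obtain ⟨B, hB⟩ := N.dif u hu huc i hi
  exact ⟨fun v => B v, B.isLinear, hB⟩

end TATE.FA
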