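import Pool.Agent.Lib.TATE.FA.Spec
import Pool.Agent.Lib.SE.CR.Idt

/-!
# The period map is nowhere constant
-/

set_option autoImplicit false

open Topology Metric MeasureTheory

noncomputable section

namespace TATE.FA

open SEJ TATE SEP
open HC (AV)

/-- The numbers `ze m u` as powers of a primitive root. -/
theorem Fa5_ze (m u : ℕ) : Complex.exp (2 * Real.pi * Complex.I / m) ^ u = ze m u := by
  rw [ze, ← Complex.exp_nat_mul]
  congr 1
  ring

theorem Fa5_inj (m : ℕ) (hm : m ≠ 0) (u v : ℕ) (hu : u < m) (hv : v < m)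
    (h : ze m u = ze m v) : u = v := by
  rw [← Fa5_ze, ← Fa5_ze] at h
  exact (Complex.isPrimitiveRoot_exp m hm).pow_inj hu hv h

/-- The projection to a character as a polynomial in `Z`. -/
theorem Fa5_lag (m : ℕ) (hm : m ≠ 0) (u : ℕ) (hu : u < m) (huc : u.Coprime m) :
    ∃ e : ℕ → ℂ, ∀ v < m, v.Coprime m →
      ∑ a : Fin m.totient, e a * ze m v ^ (a : ℕ) = if v = u then 1 else 0 := by
  classical
  let S : Finset ℕ := (Finset.range m).filter fun a => m.Coprime a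
  have hS : ∀ v, v ∈ S ↔ v < m ∧ v.Coprime m := fun v => by
    rw [Finset.mem_filter, Finset.mem_range, Nat.coprime_comm]
  have hcard : S.card = m.totient := rfl
  have huS : u ∈ S := (hS u).2 ⟨hu, huc⟩
  have hinj : Set.InjOn (ze m) S := by
    intro a ha b hb hab
    exact Fa5_inj m hm a b ((hS a).1 ha).1 ((hS b).1 hb).1 hab
  have hpos : 0 < S.card := Finset.card_pos.2 ⟨u, huS⟩
  have hdeg : (Lagrange.basis S (ze m) u).natDegree < m.totient := by
    have h1 := Lagrange.degree_basis hinj huS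
    have h2 : (Lagrange.basis S (ze m) u).natDegree = S.card - 1 :=
      Polynomial.natDegree_eq_of_degree_eq_some h1
    rw [h2]
    omega
  refine ⟨fun a => (Lagrange.basis S (ze m) u).coeff a, fun v hv hvc => ?_⟩
  have h3 := Polynomial.eval_eq_sum_range' hdeg (ze m v)
  rw [Fin.sum_univ_eq_sum_range
    (fun a => (Lagrange.basis S (ze m) u).coeff a * ze m v ^ a) m.totient, ← h3]
  by_cases h : v = u
  · rw [if_pos h, h]
    exact Lagrange.eval_basis_self hinj huS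
  · rw [if_neg h]
    exact Lagrange.eval_basis_of_ne (Ne.symm h) ((hS v).2 ⟨hv, hvc⟩)

/-- The combination of the frame for a character. -/
theorem Fa5_sum (m r : ℕ) (b : Fin (r + 1) → ℕ) (s : Fin (r + 1) → ℂ) (c : Fin r → ℂ)
    (e : ℕ → ℂ) (p : Ix m b) :
    (∑ q : Fin m.totient × Fin r, (c q.2 * e q.1) • fr m b s q) p =
      (∑ a : Fin m.totient, e a * ze m (ch p) ^ (a : ℕ)) *
        ∑ k, c k * Am m b s k.castSucc p := by
  rw [Finset.sum_apply, Fintype.sum_prod_type, Finset.sum_mul_sum]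
  refine Finset.sum_congr rfl fun a _ => Finset.sum_congr rfl fun k _ => ?_
  simp only [Pi.smul_apply, smul_eq_mul, fr, Zn]
  ring

/-- Too few equations. -/
theorem Fa5_ker (m r : ℕ) (b : Fin (r + 1) → ℕ) (s : Fin (r + 1) → ℂ) (u : ℕ) (hu : u < m)
    (huc : u.Coprime m)
    (hlt : (Finset.univ.filter fun i : Fin r => m * i.1 + ∑ j, (u * b j) % m < m * r).card < r) :
    ∃ c : Fin r → ℂ, c ≠ 0 ∧ ∀ p : Ix m b, ch p = u →
      ∑ k, c k * Am m b s k.castSucc p = 0 := by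
  classical
  let I := {i : Fin r // m * i.1 + ∑ j, (u * b j) % m < m * r}
  let P : I → Ix m b := fun i => ⟨(⟨u, hu⟩, i.1), huc, i.2⟩
  let f : (Fin r → ℂ) →ₗ[ℂ] (I → ℂ) :=
    { toFun := fun c i => ∑ k, c k * Am m b s k.castSucc (P i)
      map_add' := by
        intro x y
        funext i
        simp only [Pi.add_apply, add_mul, Finset.sum_add_distrib]
      map_smul' := by
        intro z x
        funext i
        simp only [Pi.smul_apply, smul_eq_mul, Finset.mul_sum, RingHom.id_apply, mul_assoc] }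
  have h1 : Module.finrank ℂ (I → ℂ) < Module.finrank ℂ (Fin r → ℂ) := by
    rw [Module.finrank_fintype_fun_eq_card, Module.finrank_fintype_fun_eq_card, Fintype.card_fin,
      Fintype.card_subtype]
    exact hlt
  obtain ⟨c, hc, hc0⟩ := Submodule.exists_mem_ne_zero_of_ne_bot
    (LinearMap.ker_ne_bot_of_finrank_lt (f := f) h1)
  refine ⟨c, hc0, fun p hp => ?_⟩
  have h2 : m * p.1.2.1 + ∑ j, (u * b j) % m < m * r := by
    have h3 := p.2.2
    have h4 : (p.1.1 : ℕ) = u := hp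
    rw [h4] at h3
    exact h3
  have h5 : P ⟨p.1.2, h2⟩ = p := by
    apply Subtype.ext
    exact Prod.ext (Fin.ext hp.symm) rfl
  have h6 := congrFun (LinearMap.mem_ker.1 hc) ⟨p.1.2, h2⟩
  have h7 : ∑ k, c k * Am m b s k.castSucc (P ⟨p.1.2, h2⟩) = 0 := h6
  rwa [h5] at h7

/-- The exponents. -/
theorem Fa5_mu {m r : ℕ} {b : Fin (r + 1) → ℕ} (hm : 3 ≤ m) (hb : ∀ j, ¬ m ∣ b j) {u : ℕ}
    (huc : u.Coprime m) (hu1 : ∑ j, (u * b j) % m < m * r) : Mu (SEJ.mu m b u) := by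
  have hm0 : (0 : ℝ) < m := by exact_mod_cast (by omega : 0 < m)
  have hlt : ∀ j, (u * b j) % m < m := fun j => Nat.mod_lt _ (by omega)
  have hpos : ∀ j, 1 ≤ (u * b j) % m := fun j => by
    by_contra h
    have h1 : (u * b j) % m = 0 := by omega
    exact hb j (huc.symm.dvd_of_dvd_mul_left (Nat.dvd_of_mod_eq_zero h1))
  have hsum : ∑ j, SEJ.mu m b u j = ((r : ℝ) + 1) - ((∑ j, (u * b j) % m : ℕ) : ℝ) / m := by
    simp only [SEJ.mu, Finset.sum_sub_distrib, Finset.sum_const, Finset.card_univ,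
      Fintype.card_fin, nsmul_eq_mul, mul_one, ← Finset.sum_div]
    push_cast
    ring
  refine ⟨fun j => ?_, fun j => ?_, ?_⟩
  · rw [SEJ.mu, sub_pos, div_lt_one hm0]
    exact_mod_cast hlt j
  · rw [SEJ.mu, sub_lt_self_iff]
    exact div_pos (by exact_mod_cast hpos j) hm0
  · have h2 : ((∑ j, (u * b j) % m : ℕ) : ℝ) < m * r := by exact_mod_cast hu1
    have h3 : ((∑ j, (u * b j) % m : ℕ) : ℝ) / m < r := by
      rw [div_lt_iff₀ hm0]
      linarith
    rw [hsum]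
    linarith

theorem Fa5_frm {k : ℕ} (s : Fin k → ℂ) (μ : Fin k → ℝ) :
    frm s μ (Polynomial.X ^ 0) = xi s μ := by
  funext x
  rw [frm, pow_zero, Polynomial.eval_one, one_mul]

/-- A real linear map which commutes with `i` is complex linear. -/
theorem Fa5_cpx {ι : Type} (τ : (ι → ℂ) ≃ₗ[ℝ] (ι → ℂ))
    (h : ∀ v, τ (Complex.I • v) = Complex.I • τ v) (z : ℂ) (v : ι → ℂ) :
    τ (z • v) = z • τ v := by
  have h1 : ∀ w : ι → ℂ, z • w = z.re • w + z.im • (Complex.I • w) := by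
    intro w
    funext i
    simp only [Pi.smul_apply, Pi.add_apply, smul_eq_mul, Complex.real_smul]
    conv_lhs => rw [← Complex.re_add_im z]
    ring
  rw [h1 v, h1 (τ v), map_add, map_smul, map_smul, h]

/-- Combinations of the frames in a chart. -/
theorem Fa5_Ds (m r : ℕ) (b : Fin (r + 1) → ℕ) (π : Equiv.Perm (Fin (r + 1))) (ρ c : ℂ)
    (t : Fin (r + 1) → ℂ) (z : Fin m.totient × Fin r → ℂ) :
    ∑ q, z q • frc m b π ρ c t q = Ds m b π ρ c (∑ q, z q • fr m (b ∘ π) (rt π ρ t) q) := by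
  funext p
  simp only [Finset.sum_apply, Pi.smul_apply, smul_eq_mul, frc, Ds, Finset.mul_sum]
  refine Finset.sum_congr rfl fun q _ => ?_
  ring

theorem Fa5_Ds0 (m r : ℕ) (b : Fin (r + 1) → ℕ) (π : Equiv.Perm (Fin (r + 1))) (ρ c : ℂ) :
    Ds m b π ρ c 0 = 0 := by
  funext p
  simp [Ds]

theorem Fa5_Dr0 (m r : ℕ) (b : Fin (r + 1) → ℕ) (π : Equiv.Perm (Fin (r + 1))) (ρ c : ℂ) :
    Dr m b π ρ c 0 = 0 := by
  funext p
  simp [Dr]

/-- The transport respects the rational lattices. -/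
theorem Fa5_LQ (m r : ℕ) (b : Fin (r + 1) → ℕ) (t t' : Fin (r + 1) → ℂ)
    (τ : (Ix m b → ℂ) ≃ₗ[ℝ] (Ix m b → ℂ)) (h : τ '' LZ m b t = LZ m b t') :
    τ '' LQ m b t = LQ m b t' := by
  ext v
  constructor
  · rintro ⟨w, ⟨k, hk, hw⟩, rfl⟩
    refine ⟨k, hk, ?_⟩
    rw [← map_nsmul, ← h]
    exact ⟨_, hw, rfl⟩
  · rintro ⟨k, hk, hv⟩
    rw [← h] at hv
    obtain ⟨w, hw, hwv⟩ := hv
    refine ⟨τ.symm v, ⟨k, hk, ?_⟩, τ.apply_symm_apply v⟩
    have h1 : k • τ.symm v = w := by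
      apply τ.injective
      rw [map_nsmul, τ.apply_symm_apply, hwv]
    rwa [h1]

theorem tFa5 : S_Rot → S_Cht → S_Chf → S_Uni → S_Fa5 := by
  intro hRot hCht _ hUni m r b Φ hC ⟨u, hu, huc, hd0, hdr⟩ t ht ε hε
  by_contra hcon
  push Not at hcon
  obtain ⟨hm, hb, hbs, hg⟩ := hC
  have hm1 : 1 ≤ m := by omega
  obtain ⟨π, ρ, c, ε', hρ, hc, hε', hUp⟩ := hCht m r b t hm1 ht
  obtain ⟨hDsDr, hDrDs, -⟩ := hRot m r b t π ρ c hm1 hρ hc
  have hρ0 : ρ ≠ 0 := fun h => by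
    rw [h, norm_zero] at hρ
    exact zero_ne_one hρ
  set δ := min ε (min (Φ.ρ t) ε') with hδ
  have hδ0 : 0 < δ := lt_min hε (lt_min (Φ.rpos t ht) hε')
  have hsub1 : ball t δ ⊆ ball t ε := ball_subset_ball (min_le_left _ _)
  have hsub2 : ball t δ ⊆ ball t (Φ.ρ t) :=
    ball_subset_ball ((min_le_right _ _).trans (min_le_left _ _))
  have hsub3 : ball t δ ⊆ ball t ε' :=
    ball_subset_ball ((min_le_right _ _).trans (min_le_right _ _))
  have hτ := hUni m r b π ρ c ⟨hm, hb, hbs, hg⟩ hρ hc t δ (Φ.τ t) hδ0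
    (fun t' h => hUp t' (hsub3 h)) (Φ.one t ht)
    (fun t' h => Fa5_LQ m r b t t' (Φ.τ t t') (Φ.latZ t ht t' (hsub2 h)))
    (fun v => ((Φ.hol t ht v).continuousOn).mono hsub2)
  have hsum : ∑ j, (u * (b ∘ π) j) % m = ∑ j, (u * b j) % m :=
    Equiv.sum_comp π fun j => (u * b j) % m
  obtain ⟨x, hx0, hx⟩ := Fa5_ker m r (b ∘ π) (rt π ρ t) u hu huc (by rw [hsum]; exact hdr)
  obtain ⟨e, he⟩ := Fa5_lag m (by omega) u hu huc
  -- the index with exponent zero
  have hS : ∑ j, (u * b j) % m < m * r := by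
    obtain ⟨i, hi⟩ := Finset.card_pos.1 hd0
    have h1 := (Finset.mem_filter.1 hi).2
    exact lt_of_le_of_lt (Nat.le_add_left _ _) h1
  have hr : 0 < r := by
    by_contra h
    have h1 : r = 0 := by omega
    have h2 : m * r = 0 := by rw [h1, mul_zero]
    omega
  have hp0 : m * ((⟨0, hr⟩ : Fin r) : ℕ) + ∑ j, (u * (b ∘ π) j) % m < m * r := by
    rw [hsum]
    simpa using hS
  let p0 : Ix m (b ∘ π) := ⟨(⟨u, hu⟩, ⟨0, hr⟩), huc, hp0⟩
  have hch : ∀ p : Ix m (b ∘ π), ch p < m ∧ (ch p).Coprime m := fun p => ⟨p.1.1.2, p.2.1⟩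
  have hzero : ∑ q : Fin m.totient × Fin r, (x q.2 * e q.1) • fr m (b ∘ π) (rt π ρ t) q = 0 := by
    funext p
    rw [Fa5_sum, he _ (hch p).1 (hch p).2]
    by_cases h : ch p = u
    · rw [hx p h, mul_zero]
      rfl
    · rw [if_neg h, zero_mul]
      rfl
  have key : ∀ t' ∈ ball t δ,
      ∑ k : Fin r, x k * per (SEJ.mu m (b ∘ π) u) (rt π ρ t') k.castSucc = 0 := by
    intro t' ht'
    have h1 := Fa5_Ds m r b π ρ c t fun q => x q.2 * e q.1
    rw [hzero, Fa5_Ds0] at h1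
    have h2 := congrArg (Φ.τ t t') h1
    rw [map_zero, map_sum] at h2
    have h3 : ∀ q : Fin m.totient × Fin r, Φ.τ t t' ((x q.2 * e q.1) • frc m b π ρ c t q) =
        (x q.2 * e q.1) • frc m b π ρ c t' q := by
      intro q
      rw [Fa5_cpx (Φ.τ t t') (hcon t' ⟨hsub1 ht', hsub2 ht'⟩), hτ t' ht' q]
    rw [Finset.sum_congr rfl fun q _ => h3 q,
      Fa5_Ds m r b π ρ c t' fun q => x q.2 * e q.1] at h2
    have h4 := congrArg (Dr m b π ρ c) h2
    rw [hDrDs, Fa5_Dr0] at h4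
    have h5 := congrFun h4 p0
    rw [Fa5_sum, he _ (hch p0).1 (hch p0).2, if_pos (show ch p0 = u from rfl), one_mul] at h5
    rw [← Pi.zero_apply (M := fun _ : Ix m (b ∘ π) => ℂ) p0, ← h5]
    refine Finset.sum_congr rfl fun k _ => ?_
    have h6 : Am m (b ∘ π) (rt π ρ t') k.castSucc p0 =
        Tp (rt π ρ t') (frm (rt π ρ t') (SEJ.mu m (b ∘ π) u) (Polynomial.X ^ 0)) k.castSucc := rfl
    rw [h6, Fa5_frm]
    rfl
  have hMu : Mu (SEJ.mu m (b ∘ π) u) := by
    refine Fa5_mu (b := b ∘ π) hm (fun j => hb (π j)) huc ?_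
    exact hsum.trans_lt hS
  let x' : Fin (r + 1) → ℂ := Fin.snoc x 0
  have hx' : ∀ k : Fin r, x' k.castSucc = x k := fun k => by simp [x']
  have hxl : x' (Fin.last r) = 0 := by simp [x']
  have hint : (interior {s : Fin (r + 1) → ℂ | (StrictMono fun j => (s j).im) ∧
      ∑ j, x' j * per (SEJ.mu m (b ∘ π) u) s j = 0}).Nonempty := by
    refine ⟨rt π ρ t, mem_interior_iff_mem_nhds.2 ?_⟩
    refine Filter.mem_of_superset (ball_mem_nhds _ hδ0) fun s hs => ?_
    have hs' : rt π ρ (fun j => ρ⁻¹ * s (π.symm j)) = s := by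
      funext j
      simp only [rt, Equiv.symm_apply_apply]
      rw [← mul_assoc, mul_inv_cancel₀ hρ0, one_mul]
    have ht' : (fun j => ρ⁻¹ * s (π.symm j)) ∈ ball t δ := by
      rw [mem_ball, dist_pi_lt_iff hδ0]
      intro j
      have h1 : dist (s (π.symm j)) (rt π ρ t (π.symm j)) < δ :=
        (dist_pi_lt_iff hδ0).1 (mem_ball.1 hs) (π.symm j)
      refine lt_of_eq_of_lt ?_ h1
      rw [dist_eq_norm, dist_eq_norm]
      have h2 : ρ⁻¹ * s (π.symm j) - t j = ρ⁻¹ * (s (π.symm j) - rt π ρ t (π.symm j)) := by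
        simp only [rt, Equiv.apply_symm_apply]
        rw [mul_sub, ← mul_assoc, inv_mul_cancel₀ hρ0, one_mul]
      rw [h2, norm_mul, norm_inv, hρ, inv_one, one_mul]
    refine ⟨?_, ?_⟩
    · have h1 := hUp _ (hsub3 ht')
      rw [hs'] at h1
      exact h1
    · rw [Fin.sum_univ_castSucc, hxl, zero_mul, add_zero]
      have h1 := key _ ht'
      rw [hs'] at h1
      rw [← h1]
      exact Finset.sum_congr rfl fun k _ => by rw [hx']
  obtain ⟨a, ha⟩ := SECR.tIdt (SEJ.mu m (b ∘ π) u) hMu x' hint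
  have h1 := ha (Fin.last r)
  rw [hxl] at h1
  have h2 : a = 0 := by
    rcases mul_eq_zero.1 h1.symm with h | h
    · exact h
    · exact absurd h (P3j.lam_ne_one _ hMu (Fin.last r))
  apply hx0
  funext k
  rw [← hx' k, ha, h2, zero_mul]
  rfl

end TATE.FA
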