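import Pool.Agent.Lib.TATE.FA.Spec
import Pool.Agent.Lib.SE.CR.SegI
import Pool.Agent.Lib.SE.CR.Hol

/-!
# PROJECT TATE, package FA, module Hlf: the frame is holomorphic in the branch points (helper55)

`c_k A_k - λ_0 A_0` with `c_k = λ_0 ⋯ λ_k` is holomorphic for every `k` (induction, by `SEJ.xE2`),
`A_r - λ_0 A_0` is the sum of the `D_k` (by `SEJ.xE1`), so `(c_r - 1) A_r` is holomorphic, hence
`A_r`, `λ_0 A_0` and all `A_k` are.
-/

set_option autoImplicit false

open Topology Metric MeasureTheory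

noncomputable section

namespace TATE.FA

open SEJ TATE
open SECR (cutp)
open HC (AV)
open HC.SE (New IsCov)

/-- The linear algebra of the relations. -/
private theorem Hlf_lin {E : Type} [NormedAddCommGroup E] [NormedSpace ℂ E] (U : Set E) {r : ℕ}
    (la : Fin (r + 1) → ℂ) (h0 : ∀ j, la j ≠ 0) (h1 : ∏ j, la j ≠ 1)
    (A : Fin (r + 1) → E → ℂ) (D : Fin r → E → ℂ)
    (hD : ∀ k, DifferentiableOn ℂ (D k) U)
    (hs : ∀ s ∈ U, ∑ j, (1 - la j) * A j s = 0)
    (hA : ∀ s ∈ U, ∀ k : Fin r, D k s = la k.succ * A k.succ s - A k.castSucc s)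
    (j : Fin (r + 1)) : DifferentiableOn ℂ (A j) U := by
  -- the products `c_k`
  obtain ⟨c, hc0, hcs, hcr⟩ : ∃ c : Fin (r + 1) → ℂ, c 0 = la 0 ∧
      (∀ k : Fin r, c k.succ = c k.castSucc * la k.succ) ∧ c (Fin.last r) = ∏ j, la j := by
    refine ⟨fun k => ∏ l ∈ Finset.Iic k, la l, ?_, ?_, ?_⟩
    · have : (Finset.Iic (0 : Fin (r + 1))) = {0} := by
        ext x
        simp
      simp only [this, Finset.prod_singleton]
    · intro k
      have : Finset.Iic k.succ = insert k.succ (Finset.Iic k.castSucc) := by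
        ext x
        simp only [Finset.mem_Iic, Finset.mem_insert, Fin.le_def, Fin.ext_iff, Fin.val_succ,
          Fin.val_castSucc]
        omega
      simp only [this]
      rw [Finset.prod_insert, mul_comm]
      simp only [Finset.mem_Iic, Fin.le_def, Fin.val_succ, Fin.val_castSucc]
      omega
    · have : Finset.Iic (Fin.last r) = Finset.univ := by
        ext x
        simp [Fin.le_last]
      simp only [this]
  have hcn : ∀ k, c k ≠ 0 := by
    intro k
    refine Fin.induction (motive := fun k => c k ≠ 0) ?_ ?_ k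
    · rw [hc0]
      exact h0 0
    · intro i hi
      rw [hcs]
      exact mul_ne_zero hi (h0 _)
  -- `c_k A_k - λ_0 A_0` is differentiable
  have hg : ∀ k, DifferentiableOn ℂ (fun s => c k * A k s - la 0 * A 0 s) U := by
    intro k
    refine Fin.induction
      (motive := fun k => DifferentiableOn ℂ (fun s => c k * A k s - la 0 * A 0 s) U) ?_ ?_ k
    · have : (fun s : E => c 0 * A 0 s - la 0 * A 0 s) = fun _ => (0 : ℂ) := by
        funext s
        rw [hc0]
        ring
      rw [this]
      exact differentiableOn_const _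
    · intro i hi
      refine (hi.add ((hD i).const_mul (c i.castSucc))).congr fun s hs' => ?_
      rw [hcs, Pi.add_apply, hA s hs' i]
      ring
  -- `A_r - λ_0 A_0` is differentiable
  have hr : DifferentiableOn ℂ (fun s => A (Fin.last r) s - la 0 * A 0 s) U := by
    have h2 : DifferentiableOn ℂ (fun s => ∑ k, D k s) U :=
      DifferentiableOn.fun_sum fun k _ => hD k
    refine h2.congr fun s hs' => ?_
    have h3 := hs s hs'
    simp only [sub_mul, one_mul, Finset.sum_sub_distrib] at h3
    rw [Fin.sum_univ_castSucc (fun j => A j s), Fin.sum_univ_succ (fun j => la j * A j s)] at h3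
    rw [Finset.sum_congr rfl fun k _ => hA s hs' k, Finset.sum_sub_distrib]
    linear_combination h3
  have hl : DifferentiableOn ℂ (A (Fin.last r)) U := by
    have h2 := ((hg (Fin.last r)).sub hr).const_mul (c (Fin.last r) - 1)⁻¹
    refine h2.congr fun s _ => ?_
    have h3 : c (Fin.last r) - 1 ≠ 0 := by
      rw [hcr]
      exact sub_ne_zero.2 h1
    rw [Pi.sub_apply]
    field_simp
    ring
  have hz : DifferentiableOn ℂ (fun s => la 0 * A 0 s) U := by
    refine (hl.sub hr).congr fun s _ => ?_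
    rw [Pi.sub_apply]
    ring
  have h2 := ((hg j).add hz).const_mul (c j)⁻¹
  refine h2.congr fun s _ => ?_
  rw [Pi.add_apply]
  have h3 := hcn j
  field_simp
  ring

private theorem Hlf_cov {m r : ℕ} {b : Fin (r + 1) → ℕ} (hb : Cvb m b) {s : Fin (r + 1) → ℂ}
    (hs : Up s) : IsCov m s b :=
  ⟨hb.1, fun i j h => hs.injective (by simp only [h]), hb.2.1, hb.2.2.1, hb.2.2.2⟩

/-- The integrals over the rays are holomorphic in the branch points. -/
theorem Hlf_A {m r : ℕ} (b : Fin (r + 1) → ℕ) (hb : Cvb m b) (j : Fin (r + 1)) :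
    DifferentiableOn ℂ (fun s => Am m b s j) {s | Up s} := by
  have hm : m ≠ 0 := by
    have := hb.1
    omega
  refine differentiableOn_pi.2 fun p => ?_
  have hu : ch p < m := p.1.1.2
  have hc : (ch p).Coprime m := p.2.1
  have hi : m * ex p + ∑ j, (ch p * b j) % m < m * r := p.2.2
  -- a point with increasing imaginary parts
  have hs₀ : Up (fun j : Fin (r + 1) => ((j : ℕ) : ℂ) * Complex.I) := by
    intro i j hij
    simp only [Complex.mul_im, Complex.natCast_re, Complex.I_im, mul_one, Complex.natCast_im,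
      Complex.I_re, mul_zero, add_zero]
    exact_mod_cast hij
  obtain ⟨h1, h2, h3, -⟩ := tN0 _ b (Hlf_cov hb hs₀) (ch p) hu hc
  have hprim : IsPrimitiveRoot (ze m (ch p)) m := N5_prim hm hc
  have hG : ∀ s : Fin (r + 1) → ℂ, Up s →
      Good s (SEJ.mu m b (ch p)) (Polynomial.X ^ ex p) := by
    intro s hs
    obtain ⟨-, -, -, -, -, -, -, -, -, h4⟩ := tN0 s b (Hlf_cov hb hs) (ch p) hu hc
    exact h4 hs _ hi
  have hla0 : ∀ j, lam (SEJ.mu m b (ch p)) j ≠ 0 := fun j => Complex.exp_ne_zero _
  have hla1 : ∏ j, lam (SEJ.mu m b (ch p)) j ≠ 1 := by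
    have e : ∏ j, lam (SEJ.mu m b (ch p)) j = (ze m (ch p) ^ ∑ j, b j)⁻¹ := by
      rw [← Finset.prod_pow_eq_pow_sum, ← Finset.prod_inv_distrib]
      exact Finset.prod_congr rfl fun j _ => h2 j
    rw [e, ne_eq, inv_eq_one]
    intro h
    exact hb.2.2.1 ((hprim.pow_eq_one_iff_dvd _).1 h)
  refine Hlf_lin {s : Fin (r + 1) → ℂ | Up s} (lam (SEJ.mu m b (ch p))) hla0 hla1
    (fun j s => Am m b s j p)
    (fun k s => SECR.sgi (SEJ.mu m b (ch p)) (Polynomial.X ^ ex p) s k)
    (fun k => SECR.tHol (SEJ.mu m b (ch p)) (Polynomial.X ^ ex p) h1 k)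
    (fun s hs => xE1 s _ _ (hG s hs)) ?_ j
  intro s hs k
  have hg := hG s hs
  show SECR.sgi (SEJ.mu m b (ch p)) (Polynomial.X ^ ex p) s k = _
  rw [SECR.tSegI _ _ s hg k, xE2 s _ _ hg, xE2 s _ _ hg]
  have e : Finset.Ioi k.castSucc = insert k.succ (Finset.Ioi k.succ) := by
    ext x
    simp only [Finset.mem_Ioi, Finset.mem_insert, Fin.lt_def, Fin.ext_iff, Fin.val_succ,
      Fin.val_castSucc]
    omega
  rw [e, Finset.sum_insert (by simp)]
  unfold Am
  ring

/-- **Hlf** -/
theorem tHlf : S_Hlf := by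
  intro m r b hb q
  have h := Hlf_A b hb q.2.castSucc
  refine differentiableOn_pi.2 fun p => ?_
  exact ((differentiableOn_pi.1 h) p).const_mul (ze m (ch p) ^ (q.1 : ℕ))

end TATE.FA
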