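import Pool.Agent.Lib.TATE.Iface
import Pool.Agent.Lib.SE.CR.Spec
import Pool.Agent.Lib.SE.J.Main

/-!
# PROJECT TATE, package FA: the family of the new parts (helper45)

Every module: file `TATE/FA/Xyz.lean`, `theorem tXyz : S_Xyz`, namespace `TATE.FA`, import only
`Pool.Agent.Lib.TATE.FA.Spec` and what you need from the proved files (SE/CR/Al, Crs, Crd, SegI, Hol,
Idt, Cut, SE/Big/Seg, SE/CC/Cy, …; SE/J/Main is imported here). If the docstring says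
`From S_A, S_B`, the theorem is `tXyz : S_A → S_B → S_Xyz`.

Chart: `Up s` (increasing imaginary parts); the formulas of SE/J and SE/CR. General `t`: rotate and
permute, `s j = ρ t (π j)`.
-/

set_option autoImplicit false

open Topology Metric MeasureTheory

noncomputable section

namespace TATE.FA

open SEJ TATE
open SECR (cutp)
open HC (AV)
open HC.SE (New IsCov)

/-- Increasing imaginary parts. -/
abbrev Up {k : ℕ} (s : Fin k → ℂ) : Prop := StrictMono fun j => (s j).im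

section defs

variable (m : ℕ) {r : ℕ} (b : Fin (r + 1) → ℕ)

/-- `Z ^ n` -/
def Zn (n : ℕ) (v : Ix m b → ℂ) : Ix m b → ℂ := fun p => ze m (ch p) ^ n * v p

/-- The primitive which vanishes at `+ ∞`, on the cut plane. -/
def Fm (s : Fin (r + 1) → ℂ) (x : ℂ) : Ix m b → ℂ := fun p =>
  prm (frm s (SEJ.mu m b (ch p)) (Polynomial.X ^ ex p)) x

/-- Its value at `s_j`. -/
def Pm (s : Fin (r + 1) → ℂ) (j : Fin (r + 1)) : Ix m b → ℂ := fun p =>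
  Pp s (frm s (SEJ.mu m b (ch p)) (Polynomial.X ^ ex p)) j

/-- The integral over the ray `s_j - [0, ∞)`. -/
def Am (s : Fin (r + 1) → ℂ) (j : Fin (r + 1)) : Ix m b → ℂ := fun p =>
  Tp s (frm s (SEJ.mu m b (ch p)) (Polynomial.X ^ ex p)) j

/-- The real basis `Z^a A_k`, `a < φ(m)`, `k < r`. -/
def fr (s : Fin (r + 1) → ℂ) (q : Fin m.totient × Fin r) : Ix m b → ℂ :=
  Zn m b q.1 (Am m b s q.2.castSucc)

/-- The points `(x, ζ^f y0 x)`. -/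
def pf (s : Fin (r + 1) → ℂ) (f : ℕ) (x : ℂ) : ℂ × ℂ := (x, ze m 1 ^ f * y0 m s b x)

/-- The same index for the permuted exponents. -/
def ixe (π : Equiv.Perm (Fin (r + 1))) : Ix m b ≃ Ix m (b ∘ π) :=
  Equiv.subtypeEquivRight fun p => by
    have h : ∑ j, ((p.1 : ℕ) * (b ∘ π) j) % m = ∑ j, ((p.1 : ℕ) * b j) % m :=
      Equiv.sum_comp π fun j => ((p.1 : ℕ) * b j) % m
    rw [h]

/-- The factor of the coordinate `(u, i)` under `(x, y) ↦ (ρ x, c y)`. -/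
def dl (ρ c : ℂ) (u i : ℕ) : ℂ := ρ * ρ ^ i * c ^ u / ρ ^ (∑ j, (1 + u * b j / m))

/-- The change of coordinates under `(x, y) ↦ (ρ x, c y)`, `s j = ρ t (π j)`. -/
def Dr (π : Equiv.Perm (Fin (r + 1))) (ρ c : ℂ) (v : Ix m b → ℂ) : Ix m (b ∘ π) → ℂ :=
  fun p => dl m b ρ c (ch p) (ex p) * v ((ixe m b π).symm p)

/-- Its inverse. -/
def Ds (π : Equiv.Perm (Fin (r + 1))) (ρ c : ℂ) (v : Ix m (b ∘ π) → ℂ) : Ix m b → ℂ :=
  fun p => (dl m b ρ c (ch p) (ex p))⁻¹ * v (ixe m b π p)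

/-- The rotated and permuted branch points. -/
def rt (π : Equiv.Perm (Fin (r + 1))) (ρ : ℂ) (t : Fin (r + 1) → ℂ) : Fin (r + 1) → ℂ :=
  fun j => ρ * t (π j)

/-- The frame in the chart `(π, ρ, c)`. -/
def frc (π : Equiv.Perm (Fin (r + 1))) (ρ c : ℂ) (t : Fin (r + 1) → ℂ)
    (q : Fin m.totient × Fin r) : Ix m b → ℂ :=
  Ds m b π ρ c (fr m (b ∘ π) (rt π ρ t) q)

/-- The Gram matrix of the forms of the first kind. -/
def Gm (t : Fin (r + 1) → ℂ) : Matrix (Ix m b) (Ix m b) ℂ := fun p q =>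
  if ch p = ch q then ∫ x : ℂ, x ^ ex p * (starRingEnd ℂ) (x ^ ex q) *
    ((∏ j, ‖x - t j‖ ^ (-(2 * SEJ.mu m b (ch p) j)) : ℝ) : ℂ) else 0

/-- The Riemann form `Im (w^* G⁻¹ v)`. -/
def Ef (t : Fin (r + 1) → ℂ) (v w : Ix m b → ℂ) : ℝ :=
  (dotProduct (star w) (Matrix.mulVec (Gm m b t)⁻¹ v)).im

/-- Rational combinations of the vectors `W q`. -/
def Qsp (W : Fin m.totient × Fin r → (Ix m b → ℂ)) : Set (Ix m b → ℂ) :=
  {v | ∃ x : Fin m.totient × Fin r → ℚ, v = ∑ q, ((x q : ℝ) : ℂ) • W q}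

end defs

/-! ## 1. The algebra of the integrals -/

/-- **Alg**. PROOF. `Seg`: reverse the path (`y (1 - u)`, `intervalIntegral.integral_comp_sub_left`); end
points from `u = 0, 1`; `Itg.step (Itg.refl P h) h'` gives `0 + v`. `Itg`: induction on the second
hypothesis; reversal by concatenation. Sheets: `y ↦ ζ^n y` (`ze m 1 ^ m = 1`), `om` at `(x, ζ^n y)` is
`ζ^(n u) om` (`ze m 1 ^ u = ze m u`), induction. -/
def S_Alg : Prop :=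
  ∀ (m r : ℕ) (b : Fin (r + 1) → ℕ) (t : Fin (r + 1) → ℂ), 1 ≤ m →
    (∀ P Q v, Seg m b t P Q v →
      P ∈ Pts m b t ∧ Q ∈ Pts m b t ∧ Seg m b t Q P (-v) ∧ Itg m b t P Q v) ∧
    (∀ P Q v, Itg m b t P Q v → P ∈ Pts m b t ∧ Q ∈ Pts m b t ∧ Itg m b t Q P (-v)) ∧
    (∀ P Q R v w, Itg m b t P Q v → Itg m b t Q R w → Itg m b t P R (v + w)) ∧
    ∀ P Q v (n : ℕ), Itg m b t P Q v →
      Itg m b t (P.1, ze m 1 ^ n * P.2) (Q.1, ze m 1 ^ n * Q.2) (Zn m b n v)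

/-- **Lq**: THE RATIONAL LATTICE. From `S_Alg`. PROOF. Sums: `k v` at `P`, `k' v'` at `P'`: conjugate by a
path from `P` to `P'` (hypothesis) and take multiples: `k k' (v + v')`. Rational multiples: positive
integers by concatenation, negative ones by reversal. `Z^n`: sheets. Difference of two integrals:
a closed path. `0`: `Itg.refl` (a point exists: an `m`-th root over `x ∉ range t`).
Last: `w = v - Z^n v`, `ω = ze^n ≠ 1` for all characters (`m ∤ n`, `u` prime to `m`), `ω^m = 1`: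
`v = - m⁻¹ ∑_(j < m) j Z^(n j) w`. -/
def S_Lq : Prop :=
  ∀ (m r : ℕ) (b : Fin (r + 1) → ℕ) (t : Fin (r + 1) → ℂ), 1 ≤ m →
    (∀ P ∈ Pts m b t, ∀ Q ∈ Pts m b t, ∃ v, Itg m b t P Q v) →
    (0 : Ix m b → ℂ) ∈ LQ m b t ∧
    (∀ u ∈ LQ m b t, ∀ v ∈ LQ m b t, u + v ∈ LQ m b t) ∧
    (∀ (x : ℚ), ∀ v ∈ LQ m b t, ((x : ℝ) : ℂ) • v ∈ LQ m b t) ∧
    (∀ n : ℕ, ∀ v ∈ LQ m b t, Zn m b n v ∈ LQ m b t) ∧
    (∀ P Q v w, Itg m b t P Q v → Itg m b t P Q w → v - w ∈ LQ m b t) ∧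
    ∀ n : ℕ, ¬ m ∣ n → ∀ v, v - Zn m b n v ∈ LQ m b t → v ∈ LQ m b t

/-! ## 2. Rotation and permutation -/

/-- **Rot**: ROTATION. PROOF. `Seg`: the lift `c y`, `dx' = ρ dx`, `(ρ x)^i (c y)^u / ∏_j (ρ x - ρ t_j)^(…)` is
`dl` times `om` (products over `j` are reindexed by `π`). Conversely divide by `c`. `Itg`: induction
(for the converse write the points as `(ρ x, c y)` and `v = Dr (Ds v)`). -/
def S_Rot : Prop :=
  ∀ (m r : ℕ) (b : Fin (r + 1) → ℕ) (t : Fin (r + 1) → ℂ) (π : Equiv.Perm (Fin (r + 1)))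
    (ρ c : ℂ), 1 ≤ m → ‖ρ‖ = 1 → c ^ m = ρ ^ (∑ j, b j) →
    (∀ v, Ds m b π ρ c (Dr m b π ρ c v) = v) ∧ (∀ v, Dr m b π ρ c (Ds m b π ρ c v) = v) ∧
    (∀ v, Dr m b π ρ c (Zd m b v) = Zd m (b ∘ π) (Dr m b π ρ c v)) ∧
    (∀ P, P ∈ Pts m b t ↔ (ρ * P.1, c * P.2) ∈ Pts m (b ∘ π) (rt π ρ t)) ∧
    (∀ P Q v, Itg m b t P Q v ↔ Itg m (b ∘ π) (rt π ρ t) (ρ * P.1, c * P.2) (ρ * Q.1, c * Q.2)
      (Dr m b π ρ c v)) ∧
    ∀ v, v ∈ LQ m b t ↔ Dr m b π ρ c v ∈ LQ m (b ∘ π) (rt π ρ t)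

/-- **Cht**: CHARTS EXIST. PROOF. As `N15_rho` (SE/J/N15.lean): for all but finitely many `ρ` with `|ρ| = 1`
the `Im (ρ t_j)` are different; sort them; `c` an `m`-th root. The condition is open in `t`. -/
def S_Cht : Prop :=
  ∀ (m r : ℕ) (b : Fin (r + 1) → ℕ) (t : Fin (r + 1) → ℂ), 1 ≤ m → Function.Injective t →
    ∃ (π : Equiv.Perm (Fin (r + 1))) (ρ c : ℂ) (ε : ℝ), ‖ρ‖ = 1 ∧ c ^ m = ρ ^ (∑ j, b j) ∧
      0 < ε ∧ ∀ t' ∈ ball t ε, Up (rt π ρ t')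

/-! ## 3. Integrals in a chart -/

/-- **Itc**: SEGMENTS IN THE CUT PLANE. PROOF. The lift `u ↦ ζ^f y0(x + u (x' - x))` is continuous on `[0, 1]`
(`SECR.Al.y0c`), extended to `ℝ` by `Set.projIcc`. `om` at `(x, ζ^f y0 x)` is `ze^f frm`
(`SECR.Al.frmeq`), `prm (frm)` is a primitive (`SEJ.xD1`, `Good` from `SEJ.tN0`, see `SECR.Al.dF`):
`intervalIntegral.integral_eq_sub_of_hasDerivAt`. -/
def S_Itc : Prop :=
  ∀ (m r : ℕ) (b : Fin (r + 1) → ℕ) (s : Fin (r + 1) → ℂ), IsCov m s b → Up s →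
    ∀ (f : ℕ) (x x' : ℂ), (∀ u ∈ Set.Icc (0 : ℝ) 1, x + u * (x' - x) ∈ cutp s) →
      Seg m b s (pf m b s f x) (pf m b s f x') (Zn m b f (Fm m b s x' - Fm m b s x))

/-- **Crx**: CROSSING THE RAY `k` downwards. PROOF. `Y x = y0 x` for `Im x ≥ Im s_k`,
`ζ^(b_k) y0 x` below: continuous along the vertical segment (`SECR.Crs.branch` at `x₀`, `SECR.Al.y0c`
elsewhere). `G_p` from `SEJ.xN11`: near `x₀`, above `G = prm`, `G' = frm`; below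
`λ G = prm - (1 - λ) Pp_k`, `G' = λ⁻¹ frm`, `λ⁻¹ = ze^(b_k)` (`SEJ.tN0`). So `om (x, ζ^f Y x) = ze^f G'` and
the integral is `ze^f (G(x₀ - i h) - G(x₀ + i h))`. See SE/CR/Crs.lean. -/
def S_Crx : Prop :=
  ∀ (m r : ℕ) (b : Fin (r + 1) → ℕ) (s : Fin (r + 1) → ℂ), IsCov m s b → Up s →
    ∀ (k : Fin (r + 1)) (x₀ : ℂ), x₀.im = (s k).im → x₀.re < (s k).re →
    ∃ ε > (0 : ℝ), ∀ h : ℝ, 0 < h → h < ε → x₀ + h * Complex.I ∈ cutp s ∧
      x₀ - h * Complex.I ∈ cutp s ∧ ∀ f : ℕ,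
      Seg m b s (pf m b s f (x₀ + h * Complex.I)) (pf m b s (f + b k) (x₀ - h * Complex.I))
        (Zn m b f (Zn m b (b k) (Fm m b s (x₀ - h * Complex.I)) +
          (Pm m b s k - Zn m b (b k) (Pm m b s k)) - Fm m b s (x₀ + h * Complex.I)))

/-- **Lop**: LOOPS. From `S_Alg`, `S_Itc`, `S_Crx`. PROOF. First: from `x` horizontally to the right to
`X + i Im x` (`X` bigger than all real parts), vertically to `X + i Im x'`, to the left to `x'`; all in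
`cutp s`. Second: `x₀ = s_k - 1`: `x → x₀ + i h → x₀ - i h → x`; the sum of the three integrals is
`Z^f (F(x₀ + i h) - F x) + Z^f (Z^(b_k) F(x₀ - i h) + (1 - Z^(b_k)) P_k - F(x₀ + i h)) +
Z^(f + b_k) (F x - F(x₀ - i h))`. -/
def S_Lop : Prop :=
  ∀ (m r : ℕ) (b : Fin (r + 1) → ℕ) (s : Fin (r + 1) → ℂ), IsCov m s b → Up s →
    (∀ (f : ℕ), ∀ x ∈ cutp s, ∀ x' ∈ cutp s,
      Itg m b s (pf m b s f x) (pf m b s f x') (Zn m b f (Fm m b s x' - Fm m b s x))) ∧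
    ∀ (f : ℕ) (k : Fin (r + 1)), ∀ x ∈ cutp s,
      Itg m b s (pf m b s f x) (pf m b s (f + b k) x)
        (Zn m b f ((Pm m b s k - Fm m b s x) - Zn m b (b k) (Pm m b s k - Fm m b s x)))

/-! ## 4. Parameters -/

/-- **Prs**: PARAMETERS FOR ONE SEGMENT. PROOF. `y₀(u)` the lift at `ξ₀`. First the universal case: the
parameters are `(a, a', t) ∈ ℂ × ℂ × ℂ^(r+1)` near `(a₀, a₀', t₀)`, `x(u) = a + u (a' - a)`,
`q_j = (x(u) - t_j) / (x₀(u) - t₀_j)`, near `1` uniformly for `u ∈ [0, 1]` (compactness), the lift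
`y(u) = y₀(u) ∏_j q_j ^ (b_j / m)` (principal powers; extend from `[0, 1]` to `ℝ` by `Set.projIcc`).
The integral is `∫_0^1 y₀(u)^(ch p) H(a, a', t, u) du`,
`H = (a' - a) x^i ∏_j q_j ^ (ch p b_j / m) / ∏_j (x - t_j)^(1 + …)` analytic near `(a₀, a₀', t₀, u)`,
`u ∈ [0, 1]`: `SECR.Hol.gen` gives differentiability (at every point near the base point: the same
formula, `H` is analytic at the nearby points too). Then compose with `ξ ↦ (P ξ).1, (Q ξ).1, t ξ`. The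
second coordinates: `(P ξ).2` and the lift at `u = 0` are continuous in `ξ`, with the same `m`-th power
`≠ 0`, equal at `ξ₀`, so equal near `ξ₀` (as `SECR.Al.roots`). -/
def S_Prs : Prop :=
  ∀ (m r : ℕ) (b : Fin (r + 1) → ℕ), 1 ≤ m → ∀ (e : ℕ) (U : Set (Fin e → ℂ)) (ξ₀ : Fin e → ℂ)
      (t : (Fin e → ℂ) → (Fin (r + 1) → ℂ)) (P Q : (Fin e → ℂ) → ℂ × ℂ) (v₀ : Ix m b → ℂ),
      IsOpen U → ξ₀ ∈ U → DifferentiableOn ℂ t U → DifferentiableOn ℂ P U →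
      DifferentiableOn ℂ Q U →
      (∀ ξ ∈ U, P ξ ∈ Pts m b (t ξ) ∧ Q ξ ∈ Pts m b (t ξ)) →
      Seg m b (t ξ₀) (P ξ₀) (Q ξ₀) v₀ →
      ∃ U' ⊆ U, IsOpen U' ∧ ξ₀ ∈ U' ∧ ∃ v : (Fin e → ℂ) → (Ix m b → ℂ),
        DifferentiableOn ℂ v U' ∧ v ξ₀ = v₀ ∧ ∀ ξ ∈ U', Seg m b (t ξ) (P ξ) (Q ξ) (v ξ)

/-- **Rts**: LOCAL BRANCHES. PROOF. `η ξ = y ∏_j ((x - t_j ξ) / (x - t_j ξ₀)) ^ (b_j / m)`. -/
def S_Rts : Prop :=
  ∀ (m r : ℕ) (b : Fin (r + 1) → ℕ), 1 ≤ m → ∀ (e : ℕ) (U : Set (Fin e → ℂ)) (ξ₀ : Fin e → ℂ)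
      (t : (Fin e → ℂ) → (Fin (r + 1) → ℂ)) (P : ℂ × ℂ), IsOpen U → ξ₀ ∈ U →
      DifferentiableOn ℂ t U → P ∈ Pts m b (t ξ₀) →
      ∃ U' ⊆ U, IsOpen U' ∧ ξ₀ ∈ U' ∧ ∃ η : (Fin e → ℂ) → ℂ, DifferentiableOn ℂ η U' ∧
        η ξ₀ = P.2 ∧ ∀ ξ ∈ U', (P.1, η ξ) ∈ Pts m b (t ξ)

/-- **Pri**: PARAMETERS FOR POLYGONS. From `S_Alg`, `S_Prs`, `S_Rts`. PROOF. Induction on
`Itg m b (t ξ₀) P₀ Q₀ v₀` for all `P`, `Q` with `P ξ₀ = P₀`, `Q ξ₀ = Q₀`. `refl`: the constant path is a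
`Seg P₀ P₀ 0`, use `S_Prs`. `step`: the intermediate point `(x, y)` becomes `(x, η ξ)` (`S_Rts`), then the
induction hypothesis and `S_Prs`. -/
def S_Pri : Prop :=
  ∀ (m r : ℕ) (b : Fin (r + 1) → ℕ), 1 ≤ m → ∀ (e : ℕ) (U : Set (Fin e → ℂ)) (ξ₀ : Fin e → ℂ)
      (t : (Fin e → ℂ) → (Fin (r + 1) → ℂ)) (P Q : (Fin e → ℂ) → ℂ × ℂ) (v₀ : Ix m b → ℂ),
      IsOpen U → ξ₀ ∈ U → DifferentiableOn ℂ t U → DifferentiableOn ℂ P U →
      DifferentiableOn ℂ Q U →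
      (∀ ξ ∈ U, P ξ ∈ Pts m b (t ξ) ∧ Q ξ ∈ Pts m b (t ξ)) →
      Itg m b (t ξ₀) (P ξ₀) (Q ξ₀) v₀ →
      ∃ U' ⊆ U, IsOpen U' ∧ ξ₀ ∈ U' ∧ ∃ v : (Fin e → ℂ) → (Ix m b → ℂ),
        DifferentiableOn ℂ v U' ∧ v ξ₀ = v₀ ∧ ∀ ξ ∈ U', Itg m b (t ξ) (P ξ) (Q ξ) (v ξ)

/-! ## 5. Connectedness and the lattice -/

/-- **Con**: CONNECTEDNESS. From `S_Alg`, `S_Rot`, `S_Cht`, `S_Lop`, `S_Pri`. PROOF. By `S_Rot`, `S_Cht` let
`Up t`. (a) A point `(x, y)` is joined to a point over `cutp t`: `S_Pri` with one parameter, `P` constant,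
`Q ξ = (ξ, η ξ)` (a local branch `η ξ = y ∏_j ((ξ - t_j) / (x - t_j)) ^ (b_j / m)`) and `Itg.refl`;
`cutp t` is dense (move up). (b) A point over `x ∈ cutp t` is `pf f x` for some `f` (`m`-th roots).
(c) `pf f x` is joined to `pf f x'` and to `pf (f + b_k) x` (`S_Lop`); `gcd(m, b_0, …, b_r) = 1`: every
`f' - f` is congruent to `∑ n_k b_k`, `n_k ≥ 0`, modulo `m`, and `pf` depends only on `f` modulo `m`. -/
def S_Con : Prop :=
  ∀ (m r : ℕ) (b : Fin (r + 1) → ℕ) (t : Fin (r + 1) → ℂ), Cvb m b → Function.Injective t →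
    ∀ P ∈ Pts m b t, ∀ Q ∈ Pts m b t, ∃ v, Itg m b t P Q v

/-- **Vec**: THE FRAME IS IN THE LATTICE. From `S_Alg`, `S_Lq`, `S_Con`, `S_Lop`. PROOF. The commutator of
the loops of `S_Lop` for `k`, `l` at `x` (start at `f = 0`) is closed:
`(1 - Z^(b_k)) (1 - Z^(b_l)) (P_k - P_l) ∈ LQ`, so `P_k - P_l ∈ LQ` by the last part of `S_Lq`. `SEJ.xE2`:
`P_(k+1) - P_k = λ_(k+1) A_(k+1) - A_k`, `λ_j = Z^(-b_j)` (`SEJ.tN0`); `SEJ.xE1`: `∑ (1 - λ_j) A_j = 0`.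
Downwards induction: `A_k ≡ Z^(-(b_(k+1) + … + b_r)) A_r` modulo `LQ`, and
`0 = ∑ (1 - λ_j) A_j ≡ (1 - Z^(-∑ b_j)) A_r`; `m ∤ ∑ b_j`: `A_r ∈ LQ`, all `A_k ∈ LQ`. (`Z^(-n)` is
`Z^((m-1) n)`.) -/
def S_Vec : Prop :=
  ∀ (m r : ℕ) (b : Fin (r + 1) → ℕ) (s : Fin (r + 1) → ℂ), IsCov m s b → Up s →
    ∀ q, fr m b s q ∈ LQ m b s

/-- **Li**: THE FRAME IS A REAL BASIS. PROOF. `o : ONB m s b` (`SEJ.onb_ex`), `SEJ.onb_li`: the
`ze^a o.A k` are linearly independent. `o.Q q = ∑_i coeff_i X^i` over the `i` with `(ch q, i)` an index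
(`Good.deg`: `i + 1 < ∑ μ_j` iff `m i + ∑ (u b_j % m) < m r`), so `o.A k = C (Am k)` with a complex linear
`C` which commutes with `Z` (`Tp` is additive in the polynomial: integrability by `S_A2`, `S_C2` as in
SE/J). A real relation between the `fr q` gives one between the `ze^a o.A k`. -/
def S_Li : Prop :=
  ∀ (m r : ℕ) (b : Fin (r + 1) → ℕ) (s : Fin (r + 1) → ℂ), IsCov m s b → Up s →
    LinearIndependent ℝ (fr m b s)

/-- **Hlf**: THE FRAME IS HOLOMORPHIC. PROOF. `SECR.tSegI`, `SECR.tHol`: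
`D_k = P_(k+1) - P_k` is holomorphic in `s` (`SECR.sgi`); by `SEJ.xE2` `D_k = λ_(k+1) A_(k+1) - A_k`, by
`SEJ.xE1` `∑ (1 - λ_j) A_j = 0`: the `A_j` are combinations of the `D_k` with coefficients which do not
depend on `s` (`1 - ∏ λ_j ≠ 0`, as in S_Vec). Coordinatewise (`differentiableOn_pi`). `Good` from
`SEJ.tN0` (`IsCov` for `s` with `Up s`: `Up s` gives injectivity). -/
def S_Hlf : Prop :=
  ∀ (m r : ℕ) (b : Fin (r + 1) → ℕ), Cvb m b → ∀ q,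
    DifferentiableOn ℂ (fun s => fr m b s q) {s | Up s}

/-- **Lft**: INTEGRALS AND THE MAP OF THE CURVE. PROOF. `SEB.tSeg` (SE/Big/Seg.lean) for one segment
(`e` commutes with the integral, coordinatewise), then induction on `Itg`. -/
def S_Lft : Prop :=
  ∀ (T : AV) (m r : ℕ) (t : Fin (r + 1) → ℂ) (b : Fin (r + 1) → ℕ) (N : New T m t b)
    (e : T.V ≃ₗ[ℂ] (Ix m b → ℂ)), 1 ≤ m →
    (∀ x ∉ N.γ.S, ∀ y, N.γ.P (x, y) = 0 → e (N.γ.ω x y) = om m b t (x, y)) →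
    ∀ P Q v, Itg m b t P Q v → ∃ l ∈ T.L, e (N.γ.α Q.1 Q.2 - N.γ.α P.1 P.2) - v = e l

/-- **Rnk**: THE RANK. From `S_Alg`, `S_Lq`, `S_Con`, `S_Lft`. PROOF. `LQ ⊆ e '' (ℚ T.L)` by `S_Lft` for closed
paths. `e '' (ℚ T.L)` is a `ℚ`-vector space of dimension `2 dim T = r φ(m)` (`N.dim`, `ZLattice` basis),
`Qsp W ⊆ LQ` has `r φ(m)` linearly independent generators: all are equal. -/
def S_Rnk : Prop :=
  ∀ (T : AV) (m r : ℕ) (t : Fin (r + 1) → ℂ) (b : Fin (r + 1) → ℕ) (N : New T m t b)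
    (e : T.V ≃ₗ[ℂ] (Ix m b → ℂ)), Cvb m b → Function.Injective t →
    (∀ x ∉ N.γ.S, ∀ y, N.γ.P (x, y) = 0 → e (N.γ.ω x y) = om m b t (x, y)) →
    ∀ W : Fin m.totient × Fin r → (Ix m b → ℂ), LinearIndependent ℝ W → (∀ q, W q ∈ LQ m b t) →
      LQ m b t = Qsp m b W ∧ e '' {v | ∃ k : ℕ, k ≠ 0 ∧ k • v ∈ T.L} = LQ m b t

/-- **Chf**: FRAMES IN CHARTS. From `S_Rot`, `S_Vec`, `S_Li`, `S_Hlf`, `S_Rnk`. PROOF. `Ds` is complex
linear and injective, `S_Rot` moves the lattice. Existence of `T`: `SEJ.tNewEx`, `e` by `SECR.tCrd`. -/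
def S_Chf : Prop :=
  ∀ (m r : ℕ) (b : Fin (r + 1) → ℕ) (π : Equiv.Perm (Fin (r + 1))) (ρ c : ℂ), Cvb m b →
    ‖ρ‖ = 1 → c ^ m = ρ ^ (∑ j, b j) →
    (∀ t, Up (rt π ρ t) → Function.Injective t ∧ LinearIndependent ℝ (frc m b π ρ c t) ∧
      LQ m b t = Qsp m b (frc m b π ρ c t)) ∧
    ∀ q, DifferentiableOn ℂ (fun t => frc m b π ρ c t q) {t | Up (rt π ρ t)}

/-! ## 6. The Riemann form -/

/-- **Gch**: THE GRAM MATRIX IN A CHART. PROOF. `frm s μ (X^i) conj (frm s μ (X^i')) =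
x^i conj (x^i') ∏ ‖x - s_j‖^(-2 μ_j)` almost everywhere. `o : ONB m s b`, `X^(ex p) = ∑_q C_(pq) o.Q q`
(`o.span`), `G = C C^*` (`o.orth`; the products are integrable: `SEJ.xE5`), `C` invertible (the `X^(ex p)`
are linearly independent and the `o.Q q` are combinations of them, see S_Li), so for `v = C v'`,
`w = C w'`: `w^* G⁻¹ v = w'^* v'`. `Am k = C (o.A k)`. -/
def S_Gch : Prop :=
  ∀ (m r : ℕ) (b : Fin (r + 1) → ℕ) (s : Fin (r + 1) → ℂ), IsCov m s b → Up s →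
    ∀ o : ONB m s b, ∃ C : (Ix m b → ℂ) ≃ₗ[ℂ] (Ix m b → ℂ), (∀ k, Am m b s k = C (o.A k)) ∧
      (∀ n v, C (Zn m b n v) = Zn m b n (C v)) ∧
      ∀ v w, Ef m b s (C v) (C w) = ∑ p, (v p * (starRingEnd ℂ) (w p)).im

/-- **Gcs**: THE CONSTANT GRAM MATRIX. From `S_Gch`. PROOF. `tN8` (its `key`):
`∑_p Im (w_(a,l)(p) conj (w_(c,j)(p))) = ∑_u ze^a conj (ze^c) (Mm u)_(j,l)`, `Mm u = (Nm λ(u))⁻¹`
(`SEJ.onb_inv`), independent of `s`; rational by `tN5` (choose one `D` for `M u = (Nm (lam (mu m b u)))⁻¹`). -/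
def S_Gcs : Prop :=
  ∀ (m r : ℕ) (b : Fin (r + 1) → ℕ), Cvb m b → ∃ x : Fin m.totient × Fin r →
    Fin m.totient × Fin r → ℚ, ∀ s : Fin (r + 1) → ℂ, Up s → ∀ q q',
      Ef m b s (fr m b s q) (fr m b s q') = x q q'

/-- **Grt**: ROTATION OF THE FORM. PROOF. Substitution `x = ρ x'` in the plane (`‖ρ‖ = 1`, measure
preserving): `G(s)_(p,q) = δ_p conj(δ_q) G(t)_(p,q)`, `δ = dl`, because for `ch p = ch q`
`δ_p conj(δ_q) = ρ^i conj(ρ^i')` (`‖c‖ = 1`). So `G(s) = Δ G(t) Δ^*` and `Dr v = Δ v` (indices by `ixe`). -/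
def S_Grt : Prop :=
  ∀ (m r : ℕ) (b : Fin (r + 1) → ℕ) (t : Fin (r + 1) → ℂ) (π : Equiv.Perm (Fin (r + 1)))
    (ρ c : ℂ), 1 ≤ m → ‖ρ‖ = 1 → c ^ m = ρ ^ (∑ j, b j) → ∀ v w,
      Ef m (b ∘ π) (rt π ρ t) (Dr m b π ρ c v) (Dr m b π ρ c w) = Ef m b t v w

/-- **Gpr**: PROPERTIES. From `S_Rot`, `S_Cht`, `S_Gch`, `S_Grt`. PROOF. In a chart `Ef (C v) (C w)` is
`∑ Im (v conj w)`; general `t` by rotation. Bilinearity holds for every `t`. -/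
def S_Gpr : Prop :=
  ∀ (m r : ℕ) (b : Fin (r + 1) → ℕ) (t : Fin (r + 1) → ℂ), Cvb m b → Function.Injective t →
    ∃ E : (Ix m b → ℂ) →ₗ[ℝ] (Ix m b → ℂ) →ₗ[ℝ] ℝ, (∀ v w, E v w = Ef m b t v w) ∧
      (∀ u v, E u v = -E v u) ∧ (∀ u v, E (Complex.I • u) (Complex.I • v) = E u v) ∧
      (∀ v, v ≠ 0 → 0 < E (Complex.I • v) v) ∧ ∀ u v, E (Zd m b u) (Zd m b v) = E u v

/-! ## 7. The statements of the interface -/

/-- **Uni**: UNIQUENESS OF THE TRANSPORT. From `S_Chf`. PROOF. `τ t' (W_x(t))` is in `LQ t'`, so it has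
rational coordinates in the real basis `W_y(t')`; they are continuous in `t'` near `t`
(the inverse of the matrix of the basis is continuous), so constant: `τ t' (W_x(t)) = W_x(t')`. -/
def S_Uni : Prop :=
  ∀ (m r : ℕ) (b : Fin (r + 1) → ℕ) (π : Equiv.Perm (Fin (r + 1))) (ρ c : ℂ), Cvb m b →
    ‖ρ‖ = 1 → c ^ m = ρ ^ (∑ j, b j) → ∀ (t : Fin (r + 1) → ℂ) (δ : ℝ)
    (τ : (Fin (r + 1) → ℂ) → ((Ix m b → ℂ) ≃ₗ[ℝ] (Ix m b → ℂ))), 0 < δ →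
    (∀ t' ∈ ball t δ, Up (rt π ρ t')) → (∀ v, τ t v = v) →
    (∀ t' ∈ ball t δ, τ t' '' LQ m b t = LQ m b t') →
    (∀ v, ContinuousOn (fun t' => τ t' v) (ball t δ)) →
    ∀ t' ∈ ball t δ, ∀ q, τ t' (frc m b π ρ c t q) = frc m b π ρ c t' q

/-- **Fa1**. From `S_Lq`, `S_Con`, `S_Cht`, `S_Chf`, `S_Gpr`, `S_Gcs`, `S_Grt`, `S_Rot`. PROOF. For injective `t`
choose a chart (`S_Cht`), `τ t t'` maps the real basis `frc t` to `frc t'`. `E t'` on the basis is constant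
and rational (`S_Gcs`, `S_Grt`). `com`: `Zd (frc q)` is a constant integral combination of the `frc q'`
(`Φ_m(Z) = 0`), or: `LQ` is `Z`-stable and the coefficients are given by the cyclotomic polynomial. -/
def S_Fa1 : Prop := StmtFA1

/-- **Drv**: THE DERIVATIVE. From `S_Alg`, `S_Lft`. PROOF. `T`, `N` by `SEJ.tNewEx`, `e` by `SECR.tCrd`.
`N.γ.map` at `(x₀, η x₀)`: `η'`, `g`; `η' = η` near `x₀` (`SECR.Al.roots`-style). `S_Lft`: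
`e (α(x, η x) - α P) - v x ∈ e T.L`, so `e (g x) - v x - const ∈ e T.L` near `x₀`, continuous, `T.L` discrete:
constant near `x₀`. `g' = ω`. -/
def S_Drv : Prop :=
  ∀ (m r : ℕ) (b : Fin (r + 1) → ℕ), Cvb m b →
    ∀ t, Function.Injective t → ∀ P ∈ Pts m b t, ∀ (x₀ : ℂ) (η : ℂ → ℂ) (v : ℂ → (Ix m b → ℂ))
      (ε : ℝ), 0 < ε → ContinuousOn η (ball x₀ ε) → ContinuousOn v (ball x₀ ε) →
      (∀ x ∈ ball x₀ ε, (x, η x) ∈ Pts m b t ∧ Itg m b t P (x, η x) (v x)) →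
      HasDerivAt v (om m b t (x₀, η x₀)) x₀

/-- **Fa2**. From `S_Alg`, `S_Lq`, `S_Con`, `S_Pri`, `S_Drv`. -/
def S_Fa2 : Prop := StmtFA2

/-- **Fa3**. From `S_Alg`, `S_Lq`, `S_Con`, `S_Lft`, `S_Rnk`, `S_Cht`, `S_Chf`. PROOF. `HC.CC.tCy`, `tCur` (bundle `Z`,
`γ`, as in `HC.CC.tNew`; here `α` is needed too: the structure with the same fields), `SECR.tCrd` for `e`. -/
def S_Fa3 : Prop := StmtFA3

/-- **Fa4**. PROOF. `SEJ.tNewEx`; `New → IsNew`: unbundle (`IsCy` from `aeval`, see the proof of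
`HC.CC.tCy` backwards: `Polynomial.aeval_eq_sum_range'`). -/
def S_Fa4 : Prop := StmtFA4

/-- **Fa5**: THE PERIOD MAP IS NOWHERE CONSTANT. From `S_Rot`, `S_Cht`, `S_Chf`, `S_Uni`. PROOF. Assume
`τ t t'` complex linear for all `t'` in a small ball, in a chart `(π, ρ, c)`. `S_Uni`:
`τ t t' (W_x(t)) = W_x(t')`; so with `s = rt π ρ t`, `s' = rt π ρ t'` there is a complex linear `Λ` with
`Λ (fr s q) = fr s' q`, which commutes with `Z` (on the basis), so it respects the characters. Let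
`0 < d < r`, `d` the number of indices with `ch p = u` (the `i < r` with `m i + ∑ … < m r`, an initial
segment), `c ∈ ℂ^r`, `c ≠ 0`, `∑_k c_k (A_k(s))_p = 0` for the `d` indices `p` with `ch p = u` (`d < r`). Then
`∑_k c_k (A_k(s'))_(u,0) = 0` for all `s'` near `s`: `A_k(s')_(u,0) = per (mu m b u) s' k` (`X^0 = 1`).
`SECR.tIdt` (for `Fin (r+1)`, `c_r = 0`): `c_j = a (1 - λ_j)` for all `j ≤ r`; `j = r`: `a = 0`. So `c = 0`. -/
def S_Fa5 : Prop := StmtFA5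

end TATE.FA
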