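import Pool.Agent.Lib.TATE.FA.Spec

/-!
# PROJECT TATE, package FA, part 2: the integral lattice `LZ` is flat (helper45)

In a chart (`Up s`) the periods are the closed words in the letters
`Z^f (1 - Z^(b_k)) P_k` (`f` the sheet before the crossing of the ray `k`); positive letters suffice.
Rules for the modules: see Spec.lean.
-/

set_option autoImplicit false

open Topology Metric MeasureTheory

noncomputable section

namespace TATE.FA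

open SEJ TATE
open SECR (cutp)
open HC (AV)
open HC.SE (New IsCov)

/-- Words: the sheet `f` (a sum of `b_k`) and the integral, starting at the sheet `0`; `p k` is the value
at the branch point `k`. -/
inductive Wr (m : ℕ) {r : ℕ} (b : Fin (r + 1) → ℕ) (p : Fin (r + 1) → (Ix m b → ℂ)) :
    ℕ → (Ix m b → ℂ) → Prop
  | nil : Wr m b p 0 0
  | up {f : ℕ} {v : Ix m b → ℂ} (k : Fin (r + 1)) (h : Wr m b p f v) :
      Wr m b p (f + b k) (v + Zn m b f (p k - Zn m b (b k) (p k)))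

/-- The closed words. -/
def Wz (m : ℕ) {r : ℕ} (b : Fin (r + 1) → ℕ) (p : Fin (r + 1) → (Ix m b → ℂ)) :
    Set (Ix m b → ℂ) :=
  {v | ∃ f, m ∣ f ∧ Wr m b p f v}

/-- **Lzg**: `LZ` IS A GROUP. From `S_Alg`. PROOF. As in S_Lq: closed paths at `P` and `P'` (conjugate by a
path, hypothesis). -/
def S_Lzg : Prop :=
  ∀ (m r : ℕ) (b : Fin (r + 1) → ℕ) (t : Fin (r + 1) → ℂ), 1 ≤ m →
    (∀ P ∈ Pts m b t, ∀ Q ∈ Pts m b t, ∃ v, Itg m b t P Q v) →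
    (0 : Ix m b → ℂ) ∈ LZ m b t ∧
    (∀ u ∈ LZ m b t, ∀ v ∈ LZ m b t, u + v ∈ LZ m b t) ∧
    (∀ v ∈ LZ m b t, -v ∈ LZ m b t) ∧
    (∀ n : ℕ, ∀ v ∈ LZ m b t, Zn m b n v ∈ LZ m b t) ∧
    ∀ P Q v w, Itg m b t P Q v → Itg m b t P Q w → v - w ∈ LZ m b t

/-- **Rtz**: ROTATION of `LZ`. From `S_Rot`. PROOF. Every point of the rotated curve is `(ρ x, c y)`. -/
def S_Rtz : Prop :=
  ∀ (m r : ℕ) (b : Fin (r + 1) → ℕ) (t : Fin (r + 1) → ℂ) (π : Equiv.Perm (Fin (r + 1)))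
    (ρ c : ℂ), 1 ≤ m → ‖ρ‖ = 1 → c ^ m = ρ ^ (∑ j, b j) →
    ∀ v, v ∈ LZ m b t ↔ Dr m b π ρ c v ∈ LZ m (b ∘ π) (rt π ρ t)

/-- **Wrd**: WORDS. PROOF. (1) Composition: induction on the second word (`Zn f (Zn g v) = Zn (f + g) v`).
(2) Inverse: for one letter `k` from the sheet `f`: the letter `k` repeated `m - 1` times from the sheet
`f + b_k`: `Z^(f + b_k) (1 - Z^((m-1) b_k)) P_k`, sum `Z^f (1 - Z^(m b_k)) P_k = 0` (telescoping,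
`ze^m = 1`); induction on the word. (3) `Wz` is a subgroup: composition with `Zn f = id` for `m ∣ f`.
(4) Two words with sheets congruent modulo `m` differ by an element of `Wz` (inverse of one, (1)).
(5) Every sheet is reached: `gcd(m, b_0, …, b_r) = 1`. (6) A real linear map which commutes with
`Zn` and sends `p k` to `p' k` sends words to words (induction). -/
def S_Wrd : Prop :=
  ∀ (m r : ℕ) (b : Fin (r + 1) → ℕ) (p : Fin (r + 1) → (Ix m b → ℂ)), 1 ≤ m →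
    (∀ f g u v, Wr m b p f u → Wr m b p g v → Wr m b p (f + g) (u + Zn m b f v)) ∧
    (∀ f u, Wr m b p f u → ∃ g v, m ∣ f + g ∧ Wr m b p g v ∧ u + Zn m b f v = 0) ∧
    (0 : Ix m b → ℂ) ∈ Wz m b p ∧ (∀ u ∈ Wz m b p, ∀ v ∈ Wz m b p, u + v ∈ Wz m b p) ∧
    (∀ v ∈ Wz m b p, -v ∈ Wz m b p) ∧
    (∀ f g u v, Wr m b p f u → Wr m b p g v → f ≡ g [MOD m] → u - v ∈ Wz m b p) ∧
    ((∀ d, d ∣ m → (∀ j, d ∣ b j) → d = 1) → ∀ f : ℕ, ∃ g u, g ≡ f [MOD m] ∧ Wr m b p g u) ∧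
    ∀ (p' : Fin (r + 1) → (Ix m b → ℂ)) (φ : (Ix m b → ℂ) →ₗ[ℝ] (Ix m b → ℂ)),
      (∀ n v, φ (Zn m b n v) = Zn m b n (φ v)) → (∀ k, φ (p k) = p' k) →
      ∀ f u, Wr m b p f u → Wr m b p' f (φ u)

/-- **Lfg**: LIFTING, general form. PROOF. As `SEB.tSeg` (SE/Big/Seg.lean): for a `Seg` with lift `y(u)` the
difference `a (x(u), y(u)) - ∫_0^u` is locally constant modulo `Λ` on `[0, 1]` (near `u₀`: `η` and `y` are
equal, being continuous `m`-th roots with the same value; `g` is a primitive), and `[0, 1]` is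
connected; then induction on `Itg`. -/
def S_Lfg : Prop :=
  ∀ (m r : ℕ) (b : Fin (r + 1) → ℕ) (t : Fin (r + 1) → ℂ), 1 ≤ m →
    ∀ (Λ : AddSubgroup (Ix m b → ℂ)) (a : ℂ × ℂ → (Ix m b → ℂ)),
    (∀ P ∈ Pts m b t, ∃ (η : ℂ → ℂ) (g : ℂ → (Ix m b → ℂ)), η P.1 = P.2 ∧ ContinuousAt η P.1 ∧
      ∀ᶠ x in 𝓝 P.1, (x, η x) ∈ Pts m b t ∧ a (x, η x) - g x ∈ Λ ∧
        HasDerivAt g (om m b t (x, η x)) x) →
    ∀ P Q v, Itg m b t P Q v → a Q - a P - v ∈ Λ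

/-- **Alp**: THE MAP OF THE CURVE modulo words. PROOF. `y = ζ^f y0 x` for a unique `f < m`
(`y0 x ≠ 0`); `a (x, y) = Z^f F(x) + C f` with `F = Fm` (`prm`, on the rays the value from above). At a point
over `cutp s`: `η = ζ^f y0`, `g = Z^f F + C f` (derivative: `SECR.Al.dF`-style). On the ray `k`:
`η = ζ^f y0` for `Im x ≥ Im s_k`, `ζ^(f + b_k) y0` below (`SECR.Crs.branch`), `g_p = ze^f G_p + (C f)_p` with
`G_p` of `SEJ.xN11`: above `G = prm`, below `G = ze^(b_k) prm + (1 - ze^(b_k)) Pp_k`, so below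
`a (x, η x) - g x = C f' - C f - Z^f (1 - Z^(b_k)) P_k ∈ Λ`, `f' < m` congruent to `f + b_k`. See the proof of
`SEJ.tN12` (SE/J/N12.lean), which is the same computation. -/
def S_Alp : Prop :=
  ∀ (m r : ℕ) (b : Fin (r + 1) → ℕ) (s : Fin (r + 1) → ℂ), IsCov m s b → Up s →
    ∀ (Λ : AddSubgroup (Ix m b → ℂ)) (C : ℕ → (Ix m b → ℂ)),
    (∀ f f' k, f' ≡ f + b k [MOD m] →
      C f' - C f - Zn m b f (Pm m b s k - Zn m b (b k) (Pm m b s k)) ∈ Λ) →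
    ∃ a : ℂ × ℂ → (Ix m b → ℂ), ∀ P ∈ Pts m b s, ∃ (η : ℂ → ℂ) (g : ℂ → (Ix m b → ℂ)),
      η P.1 = P.2 ∧ ContinuousAt η P.1 ∧ ∀ᶠ x in 𝓝 P.1, (x, η x) ∈ Pts m b s ∧
        a (x, η x) - g x ∈ Λ ∧ HasDerivAt g (om m b s (x, η x)) x

/-- **Lzc**: THE PERIODS IN A CHART. From `S_Lop`, `S_Wrd`, `S_Lfg`, `S_Alp`. PROOF. `⊇`: induction on the word:
`Wr f v` gives `Itg (pf 0 x) (pf f x) (v + (Z^f F x - F x))` (second part of `S_Lop`), and for `m ∣ f` this is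
a closed path with integral `v`. `⊆`: `Λ = Wz` (a subgroup, `S_Wrd`), `C f` = the integral of a word with
sheet congruent to `f`; the hypothesis of `S_Alp` holds by (4) of `S_Wrd` (append the letter `k`; `Zn` depends
on the sheet modulo `m`); `S_Lfg` for a closed path. -/
def S_Lzc : Prop :=
  ∀ (m r : ℕ) (b : Fin (r + 1) → ℕ) (s : Fin (r + 1) → ℂ), IsCov m s b → Up s →
    LZ m b s = Wz m b (Pm m b s)

/-- **Cyc**: REDUCTION modulo the cyclotomic polynomial. PROOF. `K = Φ_m Q + R`, `deg R < φ(m)`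
(`Polynomial.modByMonic`), `Φ_m(ze m (ch p)) = 0` (`SEJ.N14_prim`, `IsPrimitiveRoot`). -/
def S_Cyc : Prop :=
  ∀ (m r : ℕ) (b : Fin (r + 1) → ℕ), 1 ≤ m → ∀ K : Polynomial ℚ, ∃ κ : Fin m.totient → ℚ,
    ∀ v : Ix m b → ℂ, (fun p => (Polynomial.aeval (ze m (ch p)) K) * v p) =
      ∑ a, ((κ a : ℝ) : ℂ) • Zn m b a v

/-- **Pk**: `P_k` AND `Z` IN THE FRAME have constant rational coordinates. From `S_Cyc`. PROOF.
`P_k = A_k + ∑_(l > k) (1 - λ_l) A_l` (`SEJ.xE2`), `A_r = - (1 - λ_r)⁻¹ ∑_(l < r) (1 - λ_l) A_l` (`SEJ.xE1`),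
`λ_l = ze^(-b_l) = ze^((m-1) b_l)`, `(1 - λ)⁻¹ = - m⁻¹ ∑_(j < m) j λ^j` for `λ^m = 1`, `λ ≠ 1`: so
`P_k = ∑_(l < r) K_(kl)(Z) A_l` with polynomials `K_(kl)` over `ℚ` which depend only on `m`, `b`; `S_Cyc`.
Second: `Zd (Z^a A_l) = Z^(a+1) A_l`, `S_Cyc` for `X^(a+1)`. -/
def S_Pk : Prop :=
  ∀ (m r : ℕ) (b : Fin (r + 1) → ℕ), Cvb m b →
    (∃ κ : Fin (r + 1) → Fin m.totient × Fin r → ℚ, ∀ s : Fin (r + 1) → ℂ, Up s → ∀ k,
      Pm m b s k = ∑ q, ((κ k q : ℝ) : ℂ) • fr m b s q) ∧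
    ∃ n : Fin m.totient × Fin r → Fin m.totient × Fin r → ℚ, ∀ (s : Fin (r + 1) → ℂ) q,
      Zd m b (fr m b s q) = ∑ q', ((n q q' : ℝ) : ℂ) • fr m b s q'

/-- **Chz**: THE FRAMES ARE FLAT FOR `LZ`. From `S_Rot`, `S_Rtz`, `S_Lzc`, `S_Wrd`, `S_Pk`, `S_Chf`. PROOF. A real linear
`φ` with `φ (frc t q) = frc t' q`: `φ' = Dr φ Ds` maps `fr s q` to `fr s' q` (`s = rt π ρ t`), commutes
with `Zd` (second part of `S_Pk`; a real basis by `S_Chf`), so with all `Zn`, and maps `Pm s k` to `Pm s' k`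
(first part); `S_Wrd` (6) and `S_Lzc` give `⊆`; the same for the inverse. -/
def S_Chz : Prop :=
  ∀ (m r : ℕ) (b : Fin (r + 1) → ℕ) (π : Equiv.Perm (Fin (r + 1))) (ρ c : ℂ), Cvb m b →
    ‖ρ‖ = 1 → c ^ m = ρ ^ (∑ j, b j) → ∀ (t t' : Fin (r + 1) → ℂ), Up (rt π ρ t) →
    Up (rt π ρ t') → ∀ φ : (Ix m b → ℂ) ≃ₗ[ℝ] (Ix m b → ℂ),
    (∀ q, φ (frc m b π ρ c t q) = frc m b π ρ c t' q) →
    φ '' LZ m b t = LZ m b t' ∧ ∀ v, φ (Zd m b v) = Zd m b (φ v)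

end TATE.FA
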